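import Mathlib
import Pool.Agent.H20.BK.Defs

set_option autoImplicit false

/-!
Project FK, module LLoc. The one-vertex obstruction.

Proof sketch of `exists_bad`. Suppose every dart `d` from `v` satisfies `φ³ d = d` and the three
darts `d, φ d, φ² d` lie in `G₀`. Then all neighbours of `v` in `H` are neighbours in `G₀`. Let
`d_w = (v → w)` (a dart of `H`). For a neighbour `w` of `v` let `w⁺ = (σ d_w).snd`. The face through
`w → v`: `φ (d_w.symm) = σ d_w = (v → w⁺)`. Apply the assumption to the dart `e = (v → w⁺)`: its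
face is `e, φ e, φ² e` with `φ (φ² e) = e = φ (d_w.symm)`, so `φ² e = d_w.symm = (w → v)`, hence
`φ e = (w⁺ → w)` and `w⁺, w` are adjacent in `G₀`. So consecutive neighbours in the rotation at `v`
are adjacent in `G₀`. For `w = a`: `a⁺ ∈ {x, y}`; for `w⁺ = a`: the predecessor of `a` is in
`{x, y}`; the same for `b`. Since `σ` is injective and `a ≠ b`, `{a⁺, b⁺} = {x, y}` and
`{a⁻, b⁻} = {x, y}` (and `x ≠ y`), so the set `{a, b, x, y}` is closed under `⁺`; as `σ` permutes the
darts from `v` cyclically (`IsRotation.sameCycle`) every neighbour of `v` lies in this set,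
contradiction with `c`.
-/

namespace Pool.Agent.H36.FK

open Pool.Agent.H20.BK

variable {V : Type*}

/-- At the vertex `v` of `G₀` there is no cyclic order of all neighbours in which consecutive ones
are adjacent, for the following reason: two neighbours `a`, `b` have at most the common neighbours
`x`, `y` with `v`, and there is a further neighbour `c`. -/
def Blocked (G₀ : SimpleGraph V) (v : V) : Prop :=
  ∃ a b x y c : V, G₀.Adj v a ∧ G₀.Adj v b ∧ G₀.Adj v c ∧ a ≠ b ∧ c ≠ a ∧ c ≠ b ∧ c ≠ x ∧ c ≠ y ∧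
    (∀ z, G₀.Adj v z → G₀.Adj a z → z = x ∨ z = y) ∧
    (∀ z, G₀.Adj v z → G₀.Adj b z → z = x ∨ z = y)

/-- A dart whose face is not a triangle with all three edges in `G₀`. -/
def BadDart {G₀ H : SimpleGraph V} (σ : Equiv.Perm H.Dart) (d : H.Dart) : Prop :=
  (σ * symmPerm H) ((σ * symmPerm H) ((σ * symmPerm H) d)) ≠ d ∨
    ¬ G₀.Adj d.fst d.snd ∨
    ¬ G₀.Adj ((σ * symmPerm H) d).fst ((σ * symmPerm H) d).snd ∨
    ¬ G₀.Adj ((σ * symmPerm H) ((σ * symmPerm H) d)).fst
      ((σ * symmPerm H) ((σ * symmPerm H) d)).snd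

private theorem dart_ext' {H : SimpleGraph V} {d e : H.Dart} (h1 : d.fst = e.fst)
    (h2 : d.snd = e.snd) : d = e :=
  SimpleGraph.Dart.ext _ _ (Prod.ext h1 h2)

private theorem key {G₀ H : SimpleGraph V} {σ : Equiv.Perm H.Dart}
    (hσ : IsRotation H σ) {v : V}
    (hgood : ∀ d : H.Dart, d.fst = v → ¬ BadDart (G₀ := G₀) σ d) (d : H.Dart) (hd : d.fst = v) :
    G₀.Adj v d.snd ∧ G₀.Adj (σ d).snd d.snd := by
  have hmul : ∀ e : H.Dart, (σ * symmPerm H) e = σ e.symm := fun e => rfl
  have hfst : ∀ e : H.Dart, ((σ * symmPerm H) e).fst = e.snd := by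
    intro e
    rw [hmul, hσ.fst_eq]
    rfl
  have h1 := hgood d hd
  have h2 := hgood (σ d) ((hσ.fst_eq d).trans hd)
  unfold BadDart at h1 h2
  push Not at h1 h2
  refine ⟨hd ▸ h1.2.1, ?_⟩
  have h3 : (σ * symmPerm H) d.symm = σ d := by
    rw [hmul, SimpleGraph.Dart.symm_symm]
  have h4 : (σ * symmPerm H) ((σ * symmPerm H) (σ d)) = d.symm :=
    (σ * symmPerm H).injective (h2.1.trans h3.symm)
  have h5 := h2.2.2.1
  have h6 : ((σ * symmPerm H) (σ d)).snd = d.snd := by
    rw [← hfst, h4]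
    rfl
  rw [hfst, h6] at h5
  exact h5

theorem exists_bad [Finite V] {G₀ H : SimpleGraph V} (hle : G₀ ≤ H) {σ : Equiv.Perm H.Dart}
    (hσ : IsRotation H σ) {v : V} (hv : Blocked G₀ v) :
    ∃ d : H.Dart, d.fst = v ∧ BadDart (G₀ := G₀) σ d := by
  by_contra hcon
  push Not at hcon
  have hkey := key (G₀ := G₀) hσ (v := v) hcon
  obtain ⟨a, b, x, y, c, hva, hvb, hvc, hab, hca, hcb, hcx, hcy, ha, hb⟩ := hv
  have hfin : Finite H.Dart :=
    Finite.of_injective (fun d : H.Dart => d.toProd) (fun d e h => SimpleGraph.Dart.ext _ _ h)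
  let da : H.Dart := ⟨(v, a), hle hva⟩
  let db : H.Dart := ⟨(v, b), hle hvb⟩
  let dc : H.Dart := ⟨(v, c), hle hvc⟩
  have hpred : ∀ w : H.Dart, w.fst = v → (σ.symm w).fst = v := by
    intro w hw
    have := hσ.fst_eq (σ.symm w)
    rw [Equiv.apply_symm_apply] at this
    rw [← this, hw]
  have hsucc : ∀ w : H.Dart, w.fst = v → (σ w).fst = v := fun w hw => (hσ.fst_eq w).trans hw
  -- successors of a and b
  have hsa : (σ da).snd = x ∨ (σ da).snd = y :=
    ha _ (hkey (σ da) (hsucc da rfl)).1 (hkey da rfl).2.symm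
  have hsb : (σ db).snd = x ∨ (σ db).snd = y :=
    hb _ (hkey (σ db) (hsucc db rfl)).1 (hkey db rfl).2.symm
  -- predecessors
  have hpa : (σ.symm da).snd = x ∨ (σ.symm da).snd = y := by
    have h := (hkey (σ.symm da) (hpred da rfl)).2
    rw [Equiv.apply_symm_apply] at h
    exact ha _ (hkey (σ.symm da) (hpred da rfl)).1 h
  have hpb : (σ.symm db).snd = x ∨ (σ.symm db).snd = y := by
    have h := (hkey (σ.symm db) (hpred db rfl)).2
    rw [Equiv.apply_symm_apply] at h
    exact hb _ (hkey (σ.symm db) (hpred db rfl)).1 h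
  have hne : (σ.symm da).snd ≠ (σ.symm db).snd := by
    intro h
    have h1 : σ.symm da = σ.symm db :=
      dart_ext' ((hpred da rfl).trans (hpred db rfl).symm) h
    have h2 : da = db := σ.symm.injective h1
    exact hab (congrArg (fun d : H.Dart => d.snd) h2)
  -- the set of darts towards a, b, x, y is closed
  have hda : ∀ d : H.Dart, d.fst = v → d.snd = (σ.symm da).snd → σ d = da := by
    intro d hd h
    rw [dart_ext' (hd.trans (hpred da rfl).symm) h, Equiv.apply_symm_apply]
  have hdb : ∀ d : H.Dart, d.fst = v → d.snd = (σ.symm db).snd → σ d = db := by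
    intro d hd h
    rw [dart_ext' (hd.trans (hpred db rfl).symm) h, Equiv.apply_symm_apply]
  have hclosed : ∀ d : H.Dart, d.fst = v →
      (d.snd = a ∨ d.snd = b ∨ d.snd = x ∨ d.snd = y) →
      ((σ d).snd = a ∨ (σ d).snd = b ∨ (σ d).snd = x ∨ (σ d).snd = y) := by
    intro d hd h
    have hxy : ∀ z, (z = x ∨ z = y) → z = (σ.symm da).snd ∨ z = (σ.symm db).snd := by
      intro z hz
      rcases hpa with h1 | h1 <;> rcases hpb with h2 | h2
      · exact absurd (h1.trans h2.symm) hne
      · rw [h1, h2]; exact hz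
      · rw [h1, h2]; exact hz.symm
      · exact absurd (h1.trans h2.symm) hne
    rcases h with h | h | h
    · have : d = da := dart_ext' hd h
      rw [this]
      exact Or.inr (Or.inr hsa)
    · have : d = db := dart_ext' hd h
      rw [this]
      exact Or.inr (Or.inr hsb)
    · rcases hxy _ h with h | h
      · rw [hda d hd h]; exact Or.inl rfl
      · rw [hdb d hd h]; exact Or.inr (Or.inl rfl)
  have hpow : ∀ n : ℕ, ((σ ^ n) da).fst = v ∧ (((σ ^ n) da).snd = a ∨ ((σ ^ n) da).snd = b ∨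
      ((σ ^ n) da).snd = x ∨ ((σ ^ n) da).snd = y) := by
    intro n
    induction n with
    | zero => exact ⟨rfl, Or.inl rfl⟩
    | succ n ih =>
      rw [pow_succ', Equiv.Perm.mul_apply]
      exact ⟨hsucc _ ih.1, hclosed _ ih.1 ih.2⟩
  obtain ⟨n, -, hn⟩ := (hσ.sameCycle da dc rfl).exists_pow_eq'
  have h := (hpow n).2
  rw [hn] at h
  rcases h with h | h | h | h
  · exact hca h
  · exact hcb h
  · exact hcx h
  · exact hcy h

end Pool.Agent.H36.FK
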