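import Mathlib
import Pool.Agent.H20.BK.Defs
import Pool.Agent.H36.FK.LLoc

set_option autoImplicit false

/-!
Project FK, module LG0. The graph `G0` (a large subgraph of the bar `k`-visibility graph of the
arrangement in `LBar`), `K = k + 1`. Vertices: `0 ≤ u < K` the upper long bars, `K ≤ u < K + KP` the
short bars, `K + KP ≤ u < 2K + KP` the lower long bars; the other vertices are isolated. A short
bar `u` is special (an `E` bar) if `u % K = K - 1`.
-/

namespace Pool.Agent.H36.FK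

open Pool.Agent.H20.BK

/-- The adjacency of `G0` for `u < v`. -/
def Rel (K P u v : ℕ) : Prop :=
  (u < K ∧ K ≤ v ∧ v < K + K * P ∧ (1 ≤ u ∨ v % K = K - 1)) ∨
  (K ≤ u ∧ u < K + K * P ∧ K + K * P ≤ v ∧ v < 2 * K + K * P ∧
    (v + 1 < 2 * K + K * P ∨ u % K = K - 1)) ∨
  (K ≤ u ∧ u < v ∧ v < K + K * P ∧
    (v ≤ u + K ∨ (v < u + 2 * K ∧ (u % K = K - 1 ∨ v % K = K - 1))))

theorem Rel.lt {K P u v : ℕ} (h : Rel K P u v) : u < v := by
  rcases h with ⟨h1, h2, -⟩ | ⟨-, h1, h2, -⟩ | ⟨-, h, -⟩ <;> omega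

/-- The graph `G0`. -/
def G0 (K P n : ℕ) : SimpleGraph (Fin n) where
  Adj u v := Rel K P u v ∨ Rel K P v u
  symm := ⟨fun _ _ h => h.symm⟩
  loopless := ⟨fun u h => by rcases h with h | h <;> exact absurd h.lt (lt_irrefl _)⟩

end Pool.Agent.H36.FK
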