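import Mathlib
import Pool.Agent.H36.FK.LG0

set_option autoImplicit false

/-!
Project FK, module LBar. The arrangement of bars, `K = k + 1`. Heights `-v`. With `q = v / K`,
`i = v % K`: a special short bar (`i = K - 1`) lives from `2Kq + 1` to `2Kq + 6K - 1`, another short
bar from `2Kq + i + 2` to `2Kq + 3K + i`.
-/

namespace Pool.Agent.H36.FK

open Pool.Agent.H20.BK

/-- left endpoint -/
def lN (K P v : ℕ) : ℕ :=
  if K ≤ v ∧ v < K + K * P then
    (if v % K = K - 1 then 2 * K * (v / K) + 1 else 2 * K * (v / K) + v % K + 2)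
  else if v < 2 * K + K * P then 0 else 2 * K * (P + 4) + 1

/-- right endpoint -/
def rN (K P v : ℕ) : ℕ :=
  if K ≤ v ∧ v < K + K * P then
    (if v % K = K - 1 then 2 * K * (v / K) + 5 * K + v % K else 2 * K * (v / K) + 3 * K + v % K)
  else if v < 2 * K + K * P then 2 * K * (P + 4) else 2 * K * (P + 4) + 2

theorem lN_lt_rN (K P v : ℕ) : lN K P v < rN K P v := by
  unfold lN rN
  by_cases h : K ≤ v ∧ v < K + K * P
  · rw [if_pos h, if_pos h]
    have hK : 1 ≤ K := by
      rcases Nat.eq_zero_or_pos K with h0 | h0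
      · subst h0; simp at h
      · exact h0
    split_ifs <;> omega
  · rw [if_neg h, if_neg h]
    split_ifs with h1
    · rcases Nat.eq_zero_or_pos K with h0 | h0
      · subst h0; simp at h1
      · positivity
    · omega

/-- The arrangement. -/
noncomputable def bars (K P n : ℕ) : Bars n where
  l v := (lN K P v : ℝ)
  r v := (rN K P v : ℝ)
  y v := -((v : ℕ) : ℝ)
  lt v := by exact_mod_cast lN_lt_rN K P v
  disj i j hij h := absurd (Fin.ext (by exact_mod_cast neg_injective h)) hij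

/-- A criterion for adjacency in the arrangement. -/
theorem adj_of {K P n : ℕ} {u v : Fin n} (huv : u < v) (x : ℕ)
    (hu : lN K P u ≤ x ∧ x ≤ rN K P u) (hv : lN K P v ≤ x ∧ x ≤ rN K P v) (I : Finset ℕ)
    (hI : I.card ≤ K - 1)
    (h : ∀ m : ℕ, u < m → m < v → lN K P m ≤ x → x ≤ rN K P m → m ∈ I) :
    ((bars K P n).graph (K - 1)).Adj u v := by
  have hcard : Nat.card {m : Fin n // m ≠ u ∧ m ≠ v ∧ (bars K P n).meets (x : ℝ) m ∧
      min ((bars K P n).y u) ((bars K P n).y v) ≤ (bars K P n).y m ∧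
      (bars K P n).y m ≤ max ((bars K P n).y u) ((bars K P n).y v)} ≤ Nat.card I := by
    have hmem : ∀ m : Fin n, (m ≠ u ∧ m ≠ v ∧ (bars K P n).meets (x : ℝ) m ∧
      min ((bars K P n).y u) ((bars K P n).y v) ≤ (bars K P n).y m ∧
      (bars K P n).y m ≤ max ((bars K P n).y u) ((bars K P n).y v)) → (m : ℕ) ∈ I := by
      rintro m ⟨h1, h2, h3, h4, h5⟩
      have hyu : (bars K P n).y u = -((u : ℕ) : ℝ) := rfl
      have hyv : (bars K P n).y v = -((v : ℕ) : ℝ) := rfl
      have hym : (bars K P n).y m = -((m : ℕ) : ℝ) := rfl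
      rw [hyu, hyv, hym] at h4 h5
      have huv' : ((u : ℕ) : ℝ) ≤ ((v : ℕ) : ℝ) := by exact_mod_cast huv.le
      rw [min_eq_right (by linarith)] at h4
      rw [max_eq_left (by linarith)] at h5
      have e1 : ((m : ℕ) : ℝ) ≤ ((v : ℕ) : ℝ) := by linarith
      have e2 : ((u : ℕ) : ℝ) ≤ ((m : ℕ) : ℝ) := by linarith
      have e1' : (m : ℕ) ≤ v := by exact_mod_cast e1
      have e2' : (u : ℕ) ≤ m := by exact_mod_cast e2
      have e3 : (m : ℕ) ≠ v := fun hh => h2 (Fin.ext hh)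
      have e4 : (m : ℕ) ≠ u := fun hh => h1 (Fin.ext hh)
      have h3a : ((lN K P m : ℕ) : ℝ) ≤ (x : ℝ) := h3.1
      have h3b : (x : ℝ) ≤ ((rN K P m : ℕ) : ℝ) := h3.2
      exact h m (by omega) (by omega) (by exact_mod_cast h3a) (by exact_mod_cast h3b)
    refine Nat.card_le_card_of_injective (fun m => (⟨(m.1 : ℕ), hmem m.1 m.2⟩ : I)) ?_
    intro a b hab
    simp only [Subtype.mk.injEq] at hab
    exact Subtype.ext (Fin.ext hab)
  refine ⟨huv.ne, Or.inl ⟨(x : ℝ), ⟨?_, ?_⟩, ⟨?_, ?_⟩, ?_⟩⟩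
  · have : ((lN K P u : ℕ) : ℝ) ≤ (x : ℝ) := by exact_mod_cast hu.1
    exact this
  · have : (x : ℝ) ≤ ((rN K P u : ℕ) : ℝ) := by exact_mod_cast hu.2
    exact this
  · have : ((lN K P v : ℕ) : ℝ) ≤ (x : ℝ) := by exact_mod_cast hv.1
    exact this
  · have : (x : ℝ) ≤ ((rN K P v : ℕ) : ℝ) := by exact_mod_cast hv.2
    exact this
  · refine hcard.trans ?_
    rw [Nat.card_eq_fintype_card, Fintype.card_coe]
    exact hI

end Pool.Agent.H36.FK
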