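import Mathlib
import Pool.Agent.H36.FK.LBar

set_option autoImplicit false

/-!
Project FK, module LBarA. Adjacency of long and short bars.

Proof sketch. `adj_of`. Let `v` be short, `q = v / K`, `i = v % K`.
* `u < K`, `x = rN v`. If `v` is special all short bars `m < v` satisfy `rN m < x`; take
  `I = Ioo u K`. Otherwise the only short bar `m < v` alive at `x = 2Kq + 3K + i` is `m = K q - 1`
  (the previous special one, `rN = 2Kq + 4K - 1`); take `I = insert (K q - 1) (Ioo u K)`, and `1 ≤ u`.
* short `u`, long `v = K + KP + j`, `x = lN u`. If `u` is special all short bars `m > u` have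
  `lN m > x`; take `I = Ico (K + KP) v`. Otherwise the only short bar `m > u` alive at
  `x = 2Kq + i + 2` is `m = K q + K - 1`; take `I = insert (K q + K - 1) (Ico (K + KP) v)`.
(For `m = K q' + i'` compare `K q'` and `K q`: `q' < q` gives `K q' + K ≤ K q`.)
-/

namespace Pool.Agent.H36.FK

open Pool.Agent.H20.BK

private lemma short_vals {K P m : ℕ} (hK : 2 ≤ K) (h1 : K ≤ m) (h2 : m < K + K * P) :
    (m % K = K - 1 → lN K P m = 2 * (K * (m / K)) + 1 ∧
      rN K P m = 2 * (K * (m / K)) + 6 * K - 1) ∧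
    (m % K ≠ K - 1 → lN K P m = 2 * (K * (m / K)) + m % K + 2 ∧
      rN K P m = 2 * (K * (m / K)) + 3 * K + m % K) := by
  have e : 2 * K * (m / K) = 2 * (K * (m / K)) := by ring
  have h12 : K ≤ m ∧ m < K + K * P := ⟨h1, h2⟩
  unfold lN rN
  rw [if_pos h12, if_pos h12, e]
  constructor
  · intro h
    rw [if_pos h, if_pos h]
    refine ⟨rfl, ?_⟩
    rw [h]
    omega
  · intro h
    rw [if_neg h, if_neg h]
    exact ⟨rfl, rfl⟩

private lemma long_vals {K P m : ℕ} (h1 : m < K ∨ K + K * P ≤ m) (h2 : m < 2 * K + K * P) :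
    lN K P m = 0 ∧ rN K P m = 2 * (K * P) + 8 * K := by
  have hn : ¬ (K ≤ m ∧ m < K + K * P) := by
    rintro ⟨a, b⟩
    rcases h1 with h | h <;> omega
  unfold lN rN
  rw [if_neg hn, if_neg hn, if_pos h2, if_pos h2]
  exact ⟨rfl, by ring⟩

private lemma blk_lt {K a b : ℕ} (h : a / K < b / K) : K * (a / K) + K ≤ K * (b / K) := by
  have h' := Nat.mul_le_mul_left K (show a / K + 1 ≤ b / K from h)
  rwa [mul_add, mul_one] at h'

private lemma blk_le {K P m : ℕ} (h0 : 0 < K) (h2 : m < K + K * P) : K * (m / K) ≤ K * P := by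
  apply Nat.mul_le_mul_left
  have h3 : m < (P + 1) * K := by
    have : (P + 1) * K = K + K * P := by ring
    omega
  have h4 := (Nat.div_lt_iff_lt_mul h0).2 h3
  omega

theorem adj_top {K P n : ℕ} (hK : 2 ≤ K) (u v : Fin n) (hu : (u : ℕ) < K) (h1 : K ≤ (v : ℕ))
    (h2 : (v : ℕ) < K + K * P) (h3 : 1 ≤ (u : ℕ) ∨ (v : ℕ) % K = K - 1) :
    ((bars K P n).graph (K - 1)).Adj u v := by
  have huv : u < v := by
    rw [Fin.lt_def]
    omega
  have hK0 : 0 < K := by omega
  obtain ⟨hl0, hr0⟩ := long_vals (K := K) (P := P) (m := (u : ℕ)) (Or.inl hu) (by omega)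
  obtain ⟨hs, hns⟩ := short_vals hK h1 h2
  have hle := blk_le hK0 h2
  have hdm := Nat.div_add_mod (v : ℕ) K
  have hml := Nat.mod_lt (v : ℕ) hK0
  by_cases hsp : (v : ℕ) % K = K - 1
  · obtain ⟨hlv, hrv⟩ := hs hsp
    refine adj_of huv (rN K P v) ⟨by omega, by omega⟩ ⟨by omega, le_refl _⟩
      (Finset.Ioo (u : ℕ) K) (by rw [Nat.card_Ioo]; omega) ?_
    intro m hum hmv hlm hrm
    rw [Finset.mem_Ioo]
    refine ⟨hum, ?_⟩
    by_contra hcon
    have hmK : K ≤ m := by omega
    have hm2 : m < K + K * P := by omega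
    obtain ⟨hs', hns'⟩ := short_vals hK hmK hm2
    have hdm' := Nat.div_add_mod m K
    have hml' := Nat.mod_lt m hK0
    have hdle : m / K ≤ (v : ℕ) / K := Nat.div_le_div_right hmv.le
    rcases Nat.lt_or_ge (m / K) ((v : ℕ) / K) with hlt | hge
    · have hb := blk_lt hlt
      by_cases hsp' : m % K = K - 1
      · obtain ⟨_, hr'⟩ := hs' hsp'
        omega
      · obtain ⟨_, hr'⟩ := hns' hsp'
        omega
    · have heq : m / K = (v : ℕ) / K := le_antisymm hdle hge
      rw [heq] at hdm' hs' hns'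
      have hsp' : m % K ≠ K - 1 := by omega
      obtain ⟨_, hr'⟩ := hns' hsp'
      omega
  · obtain ⟨hlv, hrv⟩ := hns hsp
    have hu1 : 1 ≤ (u : ℕ) := by
      rcases h3 with h | h
      · exact h
      · exact absurd h hsp
    refine adj_of huv (rN K P v) ⟨by omega, by omega⟩ ⟨by omega, le_refl _⟩
      (insert (K * ((v : ℕ) / K) - 1) (Finset.Ioo (u : ℕ) K)) ?_ ?_
    · refine (Finset.card_insert_le _ _).trans ?_
      rw [Nat.card_Ioo]
      omega
    · intro m hum hmv hlm hrm
      rw [Finset.mem_insert, Finset.mem_Ioo]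
      by_contra hcon
      push Not at hcon
      obtain ⟨hc1, hc2⟩ := hcon
      have hmK : K ≤ m := hc2 hum
      have hm2 : m < K + K * P := by omega
      obtain ⟨hs', hns'⟩ := short_vals hK hmK hm2
      have hdm' := Nat.div_add_mod m K
      have hml' := Nat.mod_lt m hK0
      have hdle : m / K ≤ (v : ℕ) / K := Nat.div_le_div_right hmv.le
      rcases Nat.lt_or_ge (m / K) ((v : ℕ) / K) with hlt | hge
      · have hb := blk_lt hlt
        by_cases hsp' : m % K = K - 1
        · obtain ⟨_, hr'⟩ := hs' hsp'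
          rcases Nat.lt_or_ge (m / K + 1) ((v : ℕ) / K) with hlt2 | hge2
          · have h' := Nat.mul_le_mul_left K (show m / K + 2 ≤ (v : ℕ) / K from hlt2)
            rw [mul_add] at h'
            omega
          · have heq : (v : ℕ) / K = m / K + 1 := by omega
            have h' : K * ((v : ℕ) / K) = K * (m / K) + K := by rw [heq, mul_add, mul_one]
            apply hc1
            omega
        · obtain ⟨_, hr'⟩ := hns' hsp'
          omega
      · have heq : m / K = (v : ℕ) / K := le_antisymm hdle hge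
        rw [heq] at hdm' hs' hns'
        have hsp' : m % K ≠ K - 1 := by omega
        obtain ⟨_, hr'⟩ := hns' hsp'
        omega

theorem adj_bot {K P n : ℕ} (hK : 2 ≤ K) (u v : Fin n) (h1 : K ≤ (u : ℕ))
    (h2 : (u : ℕ) < K + K * P) (h3 : K + K * P ≤ (v : ℕ)) (h4 : (v : ℕ) < 2 * K + K * P)
    (h5 : (v : ℕ) + 1 < 2 * K + K * P ∨ (u : ℕ) % K = K - 1) :
    ((bars K P n).graph (K - 1)).Adj u v := by
  have huv : u < v := by
    rw [Fin.lt_def]
    omega
  have hK0 : 0 < K := by omega
  obtain ⟨hl0, hr0⟩ := long_vals (K := K) (P := P) (m := (v : ℕ)) (Or.inr h3) h4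
  obtain ⟨hs, hns⟩ := short_vals hK h1 h2
  have hle := blk_le hK0 h2
  have hdm := Nat.div_add_mod (u : ℕ) K
  have hml := Nat.mod_lt (u : ℕ) hK0
  by_cases hsp : (u : ℕ) % K = K - 1
  · obtain ⟨hlu, hru⟩ := hs hsp
    refine adj_of huv (lN K P u) ⟨le_refl _, by omega⟩ ⟨by omega, by omega⟩
      (Finset.Ico (K + K * P) (v : ℕ)) (by rw [Nat.card_Ico]; omega) ?_
    intro m hum hmv hlm hrm
    rw [Finset.mem_Ico]
    refine ⟨?_, hmv⟩
    by_contra hcon
    have hmK : K ≤ m := by omega
    have hm2 : m < K + K * P := by omega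
    obtain ⟨hs', hns'⟩ := short_vals hK hmK hm2
    have hdm' := Nat.div_add_mod m K
    have hml' := Nat.mod_lt m hK0
    have hdle : (u : ℕ) / K ≤ m / K := Nat.div_le_div_right hum.le
    rcases Nat.lt_or_ge ((u : ℕ) / K) (m / K) with hlt | hge
    · have hb := blk_lt hlt
      by_cases hsp' : m % K = K - 1
      · obtain ⟨hl', _⟩ := hs' hsp'
        omega
      · obtain ⟨hl', _⟩ := hns' hsp'
        omega
    · have heq : m / K = (u : ℕ) / K := le_antisymm hge hdle
      rw [heq] at hdm'
      omega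
  · obtain ⟨hlu, hru⟩ := hns hsp
    have hv1 : (v : ℕ) + 1 < 2 * K + K * P := by
      rcases h5 with h | h
      · exact h
      · exact absurd h hsp
    refine adj_of huv (lN K P u) ⟨le_refl _, by omega⟩ ⟨by omega, by omega⟩
      (insert (K * ((u : ℕ) / K) + (K - 1)) (Finset.Ico (K + K * P) (v : ℕ))) ?_ ?_
    · refine (Finset.card_insert_le _ _).trans ?_
      rw [Nat.card_Ico]
      omega
    · intro m hum hmv hlm hrm
      rw [Finset.mem_insert, Finset.mem_Ico]
      by_contra hcon
      push Not at hcon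
      obtain ⟨hc1, hc2⟩ := hcon
      have hm2 : m < K + K * P := by
        by_contra hge
        have := hc2 (by omega)
        omega
      have hmK : K ≤ m := by omega
      obtain ⟨hs', hns'⟩ := short_vals hK hmK hm2
      have hdm' := Nat.div_add_mod m K
      have hml' := Nat.mod_lt m hK0
      have hdle : (u : ℕ) / K ≤ m / K := Nat.div_le_div_right hum.le
      rcases Nat.lt_or_ge ((u : ℕ) / K) (m / K) with hlt | hge
      · have hb := blk_lt hlt
        by_cases hsp' : m % K = K - 1
        · obtain ⟨hl', _⟩ := hs' hsp'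
          omega
        · obtain ⟨hl', _⟩ := hns' hsp'
          omega
      · have heq : m / K = (u : ℕ) / K := le_antisymm hge hdle
        rw [heq] at hdm' hs' hns'
        by_cases hsp' : m % K = K - 1
        · apply hc1
          omega
        · obtain ⟨hl', _⟩ := hns' hsp'
          omega

end Pool.Agent.H36.FK
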