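import Mathlib
import Pool.Agent.H36.FK.LBar

set_option autoImplicit false

/-!
Project FK, module LBarB. Adjacency of short bars.

Proof sketch. `adj_of`. `u < v` short.
* `v ≤ u + K`: `x = max (lN u) (lN v)`, `I = Ioo u v` (at most `K - 1` elements); both bars are alive
  since `v / K ≤ u / K + 1`.
* `u + K < v < u + 2K`, `v` special (then `u` is not, `v / K = u / K + 1`): `x = lN v = 2K(v/K) + 1`;
  the bars `m` with `v - K < m < v` have `m / K = v / K`, are not special and are not yet alive; take
  `I = Ioc u (v - K)`.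
* `u + K < v < u + 2K`, `u` special (then `v` is not, `v / K = u / K + 2`): `x = rN u`; the bars
  `m` with `u < m < u + K` have `m / K = u / K + 1`, are not special and are dead at `x`; take
  `I = Ico (u + K) v`.
-/

namespace Pool.Agent.H36.FK

open Pool.Agent.H20.BK

private theorem lbb_split {K v : ℕ} (hK : 1 ≤ K) :
    ∃ q i : ℕ, i < K ∧ v = K * q + i ∧ v / K = q ∧ v % K = i :=
  ⟨v / K, v % K, Nat.mod_lt _ hK, (Nat.div_add_mod v K).symm, rfl, rfl⟩

/-- the values of the end points of a short bar -/
private theorem lbb_val {K P v q i : ℕ} (h1 : K ≤ v) (h2 : v < K + K * P) (hq : v / K = q)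
    (hi : v % K = i) :
    (i = K - 1 → lN K P v = 2 * (K * q) + 1 ∧ rN K P v = 2 * (K * q) + 5 * K + i) ∧
    (i ≠ K - 1 → lN K P v = 2 * (K * q) + i + 2 ∧ rN K P v = 2 * (K * q) + 3 * K + i) := by
  have hc : K ≤ v ∧ v < K + K * P := ⟨h1, h2⟩
  constructor
  · intro h
    simp only [lN, rN, if_pos hc, hq, hi, if_pos h, Nat.mul_assoc]
    exact ⟨trivial, trivial⟩
  · intro h
    simp only [lN, rN, if_pos hc, hq, hi, if_neg h, Nat.mul_assoc]
    exact ⟨trivial, trivial⟩

/-- comparison of quotients -/
private theorem lbb_lt {K a b c d : ℕ} (h : K * a + c < K * b + d) (hd : d ≤ K) : a ≤ b := by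
  by_contra hab
  push Not at hab
  have h1 : K * (b + 1) ≤ K * a := Nat.mul_le_mul_left K hab
  rw [Nat.mul_add, Nat.mul_one] at h1
  omega

theorem adj_short {K P n : ℕ} (hK : 2 ≤ K) (u v : Fin n) (h1 : K ≤ (u : ℕ)) (h2 : u < v)
    (h3 : (v : ℕ) < K + K * P)
    (h4 : (v : ℕ) ≤ u + K ∨ ((v : ℕ) < u + 2 * K ∧ ((u : ℕ) % K = K - 1 ∨ (v : ℕ) % K = K - 1))) :
    ((bars K P n).graph (K - 1)).Adj u v := by
  have h2' : (u : ℕ) < (v : ℕ) := h2
  obtain ⟨a, i, hi, hu, hua, hui⟩ := lbb_split (K := K) (v := (u : ℕ)) (by omega)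
  obtain ⟨b, j, hj, hv, hvb, hvj⟩ := lbb_split (K := K) (v := (v : ℕ)) (by omega)
  have vu := lbb_val (P := P) h1 (by omega) hua hui
  have vv := lbb_val (P := P) (v := (v : ℕ)) (by omega) h3 hvb hvj
  have hab : a ≤ b := lbb_lt (K := K) (c := i) (d := j) (by omega) hj.le
  have hKab : K * a ≤ K * b := Nat.mul_le_mul_left K hab
  rw [hui, hvj] at h4
  by_cases hA : (v : ℕ) ≤ u + K
  · -- close bars
    have hb1 : b ≤ a + 1 := by
      by_contra hcon
      push Not at hcon
      have : K * (a + 2) ≤ K * b := Nat.mul_le_mul_left K hcon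
      rw [Nat.mul_add] at this
      omega
    have hKb : K * b ≤ K * a + K := by
      calc K * b ≤ K * (a + 1) := Nat.mul_le_mul_left K hb1
        _ = K * a + K := by ring
    refine adj_of h2 (max (lN K P u) (lN K P v)) ⟨le_max_left _ _, max_le (lN_lt_rN K P u).le ?_⟩
      ⟨le_max_right _ _, max_le ?_ (lN_lt_rN K P v).le⟩ (Finset.Ioo (u : ℕ) (v : ℕ)) ?_ ?_
    · by_cases e1 : i = K - 1 <;> by_cases e2 : j = K - 1
      · rw [(vu.1 e1).2, (vv.1 e2).1]; omega
      · rw [(vu.1 e1).2, (vv.2 e2).1]; omega
      · rw [(vu.2 e1).2, (vv.1 e2).1]; omega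
      · rw [(vu.2 e1).2, (vv.2 e2).1]; omega
    · by_cases e1 : i = K - 1 <;> by_cases e2 : j = K - 1
      · rw [(vu.1 e1).1, (vv.1 e2).2]; omega
      · rw [(vu.1 e1).1, (vv.2 e2).2]; omega
      · rw [(vu.2 e1).1, (vv.1 e2).2]; omega
      · rw [(vu.2 e1).1, (vv.2 e2).2]; omega
    · rw [Nat.card_Ioo]; omega
    · intro m hm1 hm2 _ _
      exact Finset.mem_Ioo.2 ⟨hm1, hm2⟩
  · push Not at hA
    rcases h4 with h4 | ⟨h4, h5⟩
    · omega
    by_cases e2 : j = K - 1
    · -- v special
      have hb1 : b = a + 1 := by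
        have c1 : b ≤ a + 1 := by
          by_contra hcon
          push Not at hcon
          have : K * (a + 2) ≤ K * b := Nat.mul_le_mul_left K hcon
          rw [Nat.mul_add] at this
          omega
        have c2 : b ≠ a := by
          rintro rfl
          omega
        omega
      have hKb : K * b = K * a + K := by rw [hb1]; ring
      have e1 : i ≠ K - 1 := by omega
      refine adj_of h2 (lN K P v) ⟨?_, ?_⟩ ⟨le_rfl, (lN_lt_rN K P v).le⟩
        (Finset.Ioc (u : ℕ) ((v : ℕ) - K)) ?_ ?_
      · rw [(vu.2 e1).1, (vv.1 e2).1]; omega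
      · rw [(vu.2 e1).2, (vv.1 e2).1]; omega
      · rw [Nat.card_Ioc]; omega
      · intro m hm1 hm2 hm3 _
        rw [Finset.mem_Ioc]
        refine ⟨hm1, ?_⟩
        by_contra hcon
        push Not at hcon
        obtain ⟨c, l, hl, hm, hmc, hml⟩ := lbb_split (K := K) (v := m) (by omega)
        have hcb : c = b := by
          have c1 : c ≤ b := lbb_lt (K := K) (c := l) (d := j) (by omega) hj.le
          have c2 : b ≤ c := by
            by_contra hcon2
            push Not at hcon2
            have : K * (c + 1) ≤ K * b := Nat.mul_le_mul_left K hcon2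
            rw [Nat.mul_add, Nat.mul_one] at this
            omega
          omega
        subst hcb
        have vm := lbb_val (P := P) (v := m) (by omega) (by omega) hmc hml
        have e3 : l ≠ K - 1 := by omega
        rw [(vm.2 e3).1, (vv.1 e2).1] at hm3
        omega
    · -- u special
      have e1 : i = K - 1 := by
        rcases h5 with h5 | h5
        · exact h5
        · exact absurd h5 e2
      have hb1 : b = a + 2 := by
        have c1 : b ≤ a + 2 := by
          by_contra hcon
          push Not at hcon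
          have : K * (a + 3) ≤ K * b := Nat.mul_le_mul_left K hcon
          rw [Nat.mul_add] at this
          omega
        have c2 : a + 2 ≤ b := by
          by_contra hcon
          push Not at hcon
          have : K * b ≤ K * (a + 1) := Nat.mul_le_mul_left K (by omega)
          rw [Nat.mul_add, Nat.mul_one] at this
          omega
        omega
      have hKb : K * b = K * a + 2 * K := by rw [hb1]; ring
      refine adj_of h2 (rN K P u) ⟨(lN_lt_rN K P u).le, le_rfl⟩ ⟨?_, ?_⟩
        (Finset.Ico ((u : ℕ) + K) (v : ℕ)) ?_ ?_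
      · rw [(vu.1 e1).2, (vv.2 e2).1]; omega
      · rw [(vu.1 e1).2, (vv.2 e2).2]; omega
      · rw [Nat.card_Ico]; omega
      · intro m hm1 hm2 _ hm4
        rw [Finset.mem_Ico]
        refine ⟨?_, hm2⟩
        by_contra hcon
        push Not at hcon
        obtain ⟨c, l, hl, hm, hmc, hml⟩ := lbb_split (K := K) (v := m) (by omega)
        have hca : c = a + 1 := by
          have c1 : c ≤ a + 1 := by
            by_contra hcon2
            push Not at hcon2
            have : K * (a + 2) ≤ K * c := Nat.mul_le_mul_left K hcon2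
            rw [Nat.mul_add] at this
            omega
          have c2 : a + 1 ≤ c := by
            by_contra hcon2
            push Not at hcon2
            have : K * c ≤ K * a := Nat.mul_le_mul_left K (by omega)
            omega
          omega
        have hKc : K * c = K * a + K := by rw [hca]; ring
        have vm := lbb_val (P := P) (v := m) (by omega) (by omega) hmc hml
        have e3 : l ≠ K - 1 := by omega
        rw [(vm.2 e3).2, (vu.1 e1).2] at hm4
        omega

end Pool.Agent.H36.FK
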