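import Mathlib
import Pool.Agent.H20.BK.Defs
import Pool.Agent.H36.FK.LLoc

set_option autoImplicit false

/-!
Project FK, module LLoc2. The one-vertex obstruction, sharper form: the bad face can be found next
to the edge `v a` or `v b`.

Proof sketch (as `exists_bad` in `LLoc`). If the conclusion fails then for `w = a` and `w = b` the two
faces at the corners of `v` next to the dart `v → w` are triangles with all edges in `G₀`:
`t = (v → w)` and `t = σ (v → w) = φ (w → v)`. So the successor and the predecessor of `a` in the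
rotation at `v` are common neighbours of `v` and `a` in `G₀`, i.e. in `{x, y}`, the same for `b`; the
rest is as in `exists_bad`. (First alternative of the conclusion: `t = (v → w)`, then
`(φ t).fst = w`; second: `t = φ (w → v) = σ (v → w)`, then `(φ⁻¹ t).fst = w`.)
-/

namespace Pool.Agent.H36.FK

open Pool.Agent.H20.BK

variable {V : Type*}

/-- Two neighbours `a`, `b` of `v` have at most the common neighbours `x`, `y` with `v`, and there is
a further neighbour `c`. -/
def Blk (G₀ : SimpleGraph V) (a b v : V) : Prop :=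
  ∃ x y c : V, G₀.Adj v a ∧ G₀.Adj v b ∧ G₀.Adj v c ∧ a ≠ b ∧ c ≠ a ∧ c ≠ b ∧ c ≠ x ∧ c ≠ y ∧
    (∀ z, G₀.Adj v z → G₀.Adj a z → z = x ∨ z = y) ∧
    (∀ z, G₀.Adj v z → G₀.Adj b z → z = x ∨ z = y)

private theorem dart_ext2 {H : SimpleGraph V} {d e : H.Dart} (h1 : d.fst = e.fst)
    (h2 : d.snd = e.snd) : d = e :=
  SimpleGraph.Dart.ext _ _ (Prod.ext h1 h2)

/-- the successor of `d` in the rotation -/
private theorem succ_adj {G₀ H : SimpleGraph V} {σ : Equiv.Perm H.Dart}
    (hσ : IsRotation H σ) {v : V} (d : H.Dart) (hd : d.fst = v)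
    (h2 : ¬ BadDart (G₀ := G₀) σ (σ d)) :
    G₀.Adj v (σ d).snd ∧ G₀.Adj d.snd (σ d).snd := by
  have hmul : ∀ e : H.Dart, (σ * symmPerm H) e = σ e.symm := fun e => rfl
  have hfst : ∀ e : H.Dart, ((σ * symmPerm H) e).fst = e.snd := by
    intro e
    rw [hmul, hσ.fst_eq]
    rfl
  unfold BadDart at h2
  push Not at h2
  have h0 : (σ d).fst = v := (hσ.fst_eq d).trans hd
  refine ⟨h0 ▸ h2.2.1, ?_⟩
  have h3 : (σ * symmPerm H) d.symm = σ d := by
    rw [hmul, SimpleGraph.Dart.symm_symm]
  have h4 : (σ * symmPerm H) ((σ * symmPerm H) (σ d)) = d.symm :=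
    (σ * symmPerm H).injective (h2.1.trans h3.symm)
  have h5 := h2.2.2.1
  have h6 : ((σ * symmPerm H) (σ d)).snd = d.snd := by
    rw [← hfst, h4]
    rfl
  rw [hfst, h6] at h5
  exact h5.symm

/-- the predecessor of `d` in the rotation -/
private theorem pred_adj {G₀ H : SimpleGraph V} {σ : Equiv.Perm H.Dart}
    (hσ : IsRotation H σ) {v : V} (d : H.Dart) (hd : d.fst = v)
    (h1 : ¬ BadDart (G₀ := G₀) σ d) :
    G₀.Adj v (σ.symm d).snd ∧ G₀.Adj d.snd (σ.symm d).snd := by
  have hmul : ∀ e : H.Dart, (σ * symmPerm H) e = σ e.symm := fun e => rfl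
  have hfst : ∀ e : H.Dart, ((σ * symmPerm H) e).fst = e.snd := by
    intro e
    rw [hmul, hσ.fst_eq]
    rfl
  unfold BadDart at h1
  push Not at h1
  obtain ⟨h2, -, h3, h4⟩ := h1
  -- the third dart is the reverse of the predecessor
  have h5 : ((σ * symmPerm H) ((σ * symmPerm H) d)).symm = σ.symm d := by
    rw [Equiv.eq_symm_apply]
    exact (hmul _).symm.trans h2
  have h6 : ((σ * symmPerm H) ((σ * symmPerm H) d)).fst = (σ.symm d).snd := by
    rw [← h5]
    rfl
  have h7 : ((σ * symmPerm H) ((σ * symmPerm H) d)).snd = v := by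
    rw [← hfst, h2, hd]
  have h8 : ((σ * symmPerm H) d).snd = (σ.symm d).snd := by
    rw [← h6, hfst]
  rw [h6, h7] at h4
  rw [hfst, h8] at h3
  exact ⟨h4.symm, h3⟩

theorem exists_bad2 [Finite V] {G₀ H : SimpleGraph V} (hle : G₀ ≤ H) {σ : Equiv.Perm H.Dart}
    (hσ : IsRotation H σ) {a b v : V} (hv : Blk G₀ a b v) :
    ∃ t : H.Dart, t.fst = v ∧ BadDart (G₀ := G₀) σ t ∧
      ((t.snd = a ∨ t.snd = b) ∨
        ∃ d : H.Dart, (σ * symmPerm H) d = t ∧ d.snd = v ∧ (d.fst = a ∨ d.fst = b)) := by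
  by_contra hcon
  push Not at hcon
  obtain ⟨x, y, c, hva, hvb, hvc, hab, hca, hcb, hcx, hcy, ha, hb⟩ := hv
  have hfin : Finite H.Dart :=
    Finite.of_injective (fun d : H.Dart => d.toProd) (fun d e h => SimpleGraph.Dart.ext _ _ h)
  let da : H.Dart := ⟨(v, a), hle hva⟩
  let db : H.Dart := ⟨(v, b), hle hvb⟩
  let dc : H.Dart := ⟨(v, c), hle hvc⟩
  have hpred : ∀ w : H.Dart, w.fst = v → (σ.symm w).fst = v := by
    intro w hw
    have := hσ.fst_eq (σ.symm w)
    rw [Equiv.apply_symm_apply] at this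
    rw [← this, hw]
  have hsucc : ∀ w : H.Dart, w.fst = v → (σ w).fst = v := fun w hw => (hσ.fst_eq w).trans hw
  -- the two faces at a dart towards `a` or `b`
  have hgood1 : ∀ d : H.Dart, d.fst = v → (d.snd = a ∨ d.snd = b) →
      ¬ BadDart (G₀ := G₀) σ d := by
    intro d hd hw hbad
    rcases hw with hw | hw
    · exact (hcon d hd hbad).1.1 hw
    · exact (hcon d hd hbad).1.2 hw
  have hgood2 : ∀ d : H.Dart, d.fst = v → (d.snd = a ∨ d.snd = b) →
      ¬ BadDart (G₀ := G₀) σ (σ d) := by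
    intro d hd hw hbad
    have h1 := (hcon (σ d) (hsucc d hd) hbad).2 d.symm
      (by
        show σ d.symm.symm = σ d
        rw [SimpleGraph.Dart.symm_symm]) hd
    rcases hw with hw | hw
    · exact h1.1 hw
    · exact h1.2 hw
  -- successors of a and b
  have hsa : (σ da).snd = x ∨ (σ da).snd = y := by
    have h := succ_adj (G₀ := G₀) hσ (v := v) da rfl (hgood2 da rfl (Or.inl rfl))
    exact ha _ h.1 h.2
  have hsb : (σ db).snd = x ∨ (σ db).snd = y := by
    have h := succ_adj (G₀ := G₀) hσ (v := v) db rfl (hgood2 db rfl (Or.inr rfl))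
    exact hb _ h.1 h.2
  -- predecessors
  have hpa : (σ.symm da).snd = x ∨ (σ.symm da).snd = y := by
    have h := pred_adj (G₀ := G₀) hσ (v := v) da rfl (hgood1 da rfl (Or.inl rfl))
    exact ha _ h.1 h.2
  have hpb : (σ.symm db).snd = x ∨ (σ.symm db).snd = y := by
    have h := pred_adj (G₀ := G₀) hσ (v := v) db rfl (hgood1 db rfl (Or.inr rfl))
    exact hb _ h.1 h.2
  have hne : (σ.symm da).snd ≠ (σ.symm db).snd := by
    intro h
    have h1 : σ.symm da = σ.symm db :=
      dart_ext2 ((hpred da rfl).trans (hpred db rfl).symm) h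
    have h2 : da = db := σ.symm.injective h1
    exact hab (congrArg (fun d : H.Dart => d.snd) h2)
  -- the set of darts towards a, b, x, y is closed
  have hda : ∀ d : H.Dart, d.fst = v → d.snd = (σ.symm da).snd → σ d = da := by
    intro d hd h
    rw [dart_ext2 (hd.trans (hpred da rfl).symm) h, Equiv.apply_symm_apply]
  have hdb : ∀ d : H.Dart, d.fst = v → d.snd = (σ.symm db).snd → σ d = db := by
    intro d hd h
    rw [dart_ext2 (hd.trans (hpred db rfl).symm) h, Equiv.apply_symm_apply]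
  have hclosed : ∀ d : H.Dart, d.fst = v →
      (d.snd = a ∨ d.snd = b ∨ d.snd = x ∨ d.snd = y) →
      ((σ d).snd = a ∨ (σ d).snd = b ∨ (σ d).snd = x ∨ (σ d).snd = y) := by
    intro d hd h
    have hxy : ∀ z, (z = x ∨ z = y) → z = (σ.symm da).snd ∨ z = (σ.symm db).snd := by
      intro z hz
      rcases hpa with h1 | h1 <;> rcases hpb with h2 | h2
      · exact absurd (h1.trans h2.symm) hne
      · rw [h1, h2]; exact hz
      · rw [h1, h2]; exact hz.symm
      · exact absurd (h1.trans h2.symm) hne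
    rcases h with h | h | h
    · have : d = da := dart_ext2 hd h
      rw [this]
      exact Or.inr (Or.inr hsa)
    · have : d = db := dart_ext2 hd h
      rw [this]
      exact Or.inr (Or.inr hsb)
    · rcases hxy _ h with h | h
      · rw [hda d hd h]; exact Or.inl rfl
      · rw [hdb d hd h]; exact Or.inr (Or.inl rfl)
  have hpow : ∀ n : ℕ, ((σ ^ n) da).fst = v ∧ (((σ ^ n) da).snd = a ∨ ((σ ^ n) da).snd = b ∨
      ((σ ^ n) da).snd = x ∨ ((σ ^ n) da).snd = y) := by
    intro n
    induction n with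
    | zero => exact ⟨rfl, Or.inl rfl⟩
    | succ n ih =>
      rw [pow_succ', Equiv.Perm.mul_apply]
      exact ⟨hsucc _ ih.1, hclosed _ ih.1 ih.2⟩
  obtain ⟨n, -, hn⟩ := (hσ.sameCycle da dc rfl).exists_pow_eq'
  have h := (hpow n).2
  rw [hn] at h
  rcases h with h | h | h | h
  · exact hca h
  · exact hcb h
  · exact hcx h
  · exact hcy h

end Pool.Agent.H36.FK
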