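import Mathlib
import Pool.Agent.H36.FK.LG0
import Pool.Agent.H36.FK.LLoc2

set_option autoImplicit false

/-!
Project FK, module LBlk2. The special short bars are blocked vertices of `G0`, with the two far
long bars made explicit (from `LBlk`, helper99).

Proof sketch. `v = K + K p + (K - 1)` with `1 ≤ p`, `p + 1 < P`. Take `a = 0` (adjacent exactly to the
special short bars), `b = 2K + KP - 1` (the same), `x = v - K`, `y = v + K`, `c = 1` (an upper long
bar, as `K ≥ 2`). A common neighbour `z` of `v` and `a` is a special short bar adjacent to `v`; its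
distance from `v` is a multiple of `K` below `2K`, so it is `x` or `y`.
-/

namespace Pool.Agent.H36.FK

open Pool.Agent.H20.BK

private theorem blk_adj_zero {K P n : ℕ} (hK : 2 ≤ K) {a z : Fin n} (ha : (a : ℕ) = 0)
    (h : (G0 K P n).Adj a z) : K ≤ (z : ℕ) ∧ (z : ℕ) < K + K * P ∧ (z : ℕ) % K = K - 1 := by
  rcases h with h | h
  · rcases h with ⟨h1, h2, h3, h4⟩ | ⟨h1, -⟩ | ⟨h1, -⟩
    · refine ⟨h2, h3, ?_⟩
      rcases h4 with h4 | h4
      · omega
      · exact h4
    · omega
    · omega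
  · have := h.lt
    omega

private theorem blk_adj_last {K P n : ℕ} (hK : 2 ≤ K) {b z : Fin n}
    (hb : (b : ℕ) = 2 * K + K * P - 1)
    (h : (G0 K P n).Adj b z) : K ≤ (z : ℕ) ∧ (z : ℕ) < K + K * P ∧ (z : ℕ) % K = K - 1 := by
  rcases h with h | h
  · rcases h with ⟨h1, h2, h3, h4⟩ | ⟨h1, h2, -⟩ | ⟨h1, h2, h3, -⟩
    · omega
    · omega
    · omega
  · rcases h with ⟨h1, h2, h3, h4⟩ | ⟨h1, h2, h3, h4, h5⟩ | ⟨h1, h2, h3, -⟩
    · omega
    · refine ⟨h1, h2, ?_⟩
      rcases h5 with h5 | h5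
      · omega
      · exact h5
    · omega

private theorem blk_near {K P : ℕ} {u w : ℕ} (hu : K ≤ u) (hw : w < K + K * P)
    (h : Rel K P u w) : u < w ∧ w < u + 2 * K := by
  rcases h with ⟨h1, h2, h3, h4⟩ | ⟨h1, h2, h3, h4, h5⟩ | ⟨h1, h2, h3, h4⟩
  · omega
  · omega
  · refine ⟨h2, ?_⟩
    rcases h4 with h4 | h4
    · omega
    · exact h4.1

private theorem blk_common {K P n : ℕ} (hK : 2 ≤ K) (p : ℕ) (h2 : p + 1 < P) {v z : Fin n}
    (hv : (v : ℕ) = K + K * p + (K - 1)) (h : (G0 K P n).Adj v z)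
    (hz : K ≤ (z : ℕ) ∧ (z : ℕ) < K + K * P ∧ (z : ℕ) % K = K - 1) :
    (z : ℕ) + K = v ∨ (z : ℕ) = v + K := by
  obtain ⟨hz1, hz2, hz3⟩ := hz
  have hP : K * (p + 2) ≤ K * P := Nat.mul_le_mul_left K h2
  have hP' : K * (p + 2) = K * p + 2 * K := by ring
  have hv2 : (v : ℕ) < K + K * P := by omega
  have hdm := Nat.div_add_mod (z : ℕ) K
  rw [hz3] at hdm
  set q := (z : ℕ) / K with hq
  have e1 : K * (p + 1) = K * p + K := by ring
  have e3 : K * (p + 3) = K * p + 3 * K := by ring
  rcases h with h | h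
  · obtain ⟨n1, n2⟩ := blk_near (by omega) hz2 h
    right
    have i1 : K * (p + 1) < K * q := by omega
    have i2 : K * q < K * (p + 3) := by omega
    have j1 : p + 1 < q := Nat.lt_of_mul_lt_mul_left i1
    have j2 : q < p + 3 := Nat.lt_of_mul_lt_mul_left i2
    have j3 : q = p + 2 := by omega
    rw [j3] at hdm
    omega
  · obtain ⟨n1, n2⟩ := blk_near hz1 hv2 h
    left
    have i1 : K * q < K * (p + 1) := by omega
    have i2 : K * p < K * (q + 1) := by
      have e4 : K * (q + 1) = K * q + K := by ring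
      omega
    have j1 : q < p + 1 := Nat.lt_of_mul_lt_mul_left i1
    have j2 : p < q + 1 := Nat.lt_of_mul_lt_mul_left i2
    have j3 : q = p := by omega
    rw [j3] at hdm
    omega

theorem blk_of (K P n : ℕ) (hK : 2 ≤ K) (hn : 2 * K + K * P ≤ n) (p : ℕ) (h1 : 1 ≤ p)
    (h2 : p + 1 < P) (v : Fin n) (hv : (v : ℕ) = K + K * p + (K - 1)) :
    Blk (G0 K P n) ⟨0, by omega⟩ ⟨2 * K + K * P - 1, by omega⟩ v := by
  have hP : K * (p + 2) ≤ K * P := Nat.mul_le_mul_left K h2
  have hP' : K * (p + 2) = K * p + 2 * K := by ring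
  have hp : K * 1 ≤ K * p := Nat.mul_le_mul_left K h1
  have hmod : (v : ℕ) % K = K - 1 := by
    have e : (v : ℕ) = (K - 1) + K * (p + 1) := by
      rw [hv]; ring
    rw [e, Nat.add_mul_mod_self_left]
    exact Nat.mod_eq_of_lt (by omega)
  refine ⟨⟨(v : ℕ) - K, by omega⟩,
    ⟨(v : ℕ) + K, by omega⟩, ⟨1, by omega⟩, ?_, ?_, ?_, ?_, ?_, ?_, ?_, ?_, ?_, ?_⟩
  · right
    exact Or.inl ⟨by simp; omega, by omega, by omega, Or.inr hmod⟩
  · left
    refine Or.inr (Or.inl ⟨by omega, by omega, ?_, ?_, Or.inr hmod⟩)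
    · simp; omega
    · simp; omega
  · right
    exact Or.inl ⟨by simp; omega, by omega, by omega, Or.inl (by simp)⟩
  · intro h
    have := congrArg Fin.val h
    simp at this
    omega
  · intro h
    have := congrArg Fin.val h
    simp at this
  · intro h
    have := congrArg Fin.val h
    simp at this
    omega
  · intro h
    have := congrArg Fin.val h
    simp at this
    omega
  · intro h
    have := congrArg Fin.val h
    simp at this
    omega
  · intro z hz1 hz2
    have h3 := blk_adj_zero hK (a := ⟨0, by omega⟩) rfl hz2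
    rcases blk_common hK p h2 hv hz1 h3 with h4 | h4
    · left
      apply Fin.ext
      simp only
      omega
    · right
      exact Fin.ext h4
  · intro z hz1 hz2
    have h3 := blk_adj_last hK (b := ⟨2 * K + K * P - 1, by omega⟩) rfl hz2
    rcases blk_common hK p h2 hv hz1 h3 with h4 | h4
    · left
      apply Fin.ext
      simp only
      omega
    · right
      exact Fin.ext h4

theorem exists_blk (K P n : ℕ) (hK : 2 ≤ K) (hn : 2 * K + K * P ≤ n) :
    ∃ (a b : Fin n) (S : Finset (Fin n)), a ∉ S ∧ b ∉ S ∧ P ≤ S.card + 2 ∧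
      ∀ v ∈ S, Blk (G0 K P n) a b v := by
  classical
  refine ⟨⟨0, by omega⟩, ⟨2 * K + K * P - 1, by omega⟩,
    Finset.univ.filter (fun v : Fin n => ∃ p, 1 ≤ p ∧ p + 1 < P ∧
    (v : ℕ) = K + K * p + (K - 1)), ?_, ?_, ?_, ?_⟩
  · intro h
    rw [Finset.mem_filter] at h
    obtain ⟨-, p, h1, h2, h3⟩ := h
    simp only at h3
    omega
  · intro h
    rw [Finset.mem_filter] at h
    obtain ⟨-, p, h1, h2, h3⟩ := h
    simp only at h3
    have hP : K * (p + 2) ≤ K * P := Nat.mul_le_mul_left K (by omega)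
    have e : K * (p + 2) = K * p + 2 * K := by ring
    omega
  · have hn0 : 0 < n := by omega
    have hlt : ∀ i, i < P - 2 → K + K * (i + 1) + (K - 1) < n := by
      intro i hi
      have hP : K * (i + 3) ≤ K * P := Nat.mul_le_mul_left K (by omega)
      have e : K * (i + 3) = K * (i + 1) + 2 * K := by ring
      omega
    have hc : P - 2 ≤ (Finset.univ.filter (fun v : Fin n => ∃ p, 1 ≤ p ∧ p + 1 < P ∧
        (v : ℕ) = K + K * p + (K - 1))).card := by
      refine Finset.le_card_of_inj_on_range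
        (fun i => if h : K + K * (i + 1) + (K - 1) < n then ⟨K + K * (i + 1) + (K - 1), h⟩
          else ⟨0, hn0⟩) ?_ ?_
      · intro i hi
        rw [Finset.mem_filter]
        refine ⟨Finset.mem_univ _, i + 1, by omega, by omega, ?_⟩
        rw [dif_pos (hlt i hi)]
      · intro i hi j hj hij
        rw [dif_pos (hlt i hi), dif_pos (hlt j hj)] at hij
        have h3 := congrArg Fin.val hij
        dsimp only at h3
        have h4 : K * (i + 1) = K * (j + 1) := by omega
        have h5 := Nat.eq_of_mul_eq_mul_left (by omega : 0 < K) h4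
        omega
    omega
  · intro v hv
    rw [Finset.mem_filter] at hv
    obtain ⟨-, p, h1, h2, h3⟩ := hv
    exact blk_of K P n hK hn p h1 h2 v h3

end Pool.Agent.H36.FK
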