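import Mathlib
import Pool.Agent.H36.FK.LG0

set_option autoImplicit false

/-!
Project FK, module LCnt. The number of edges of `G0`.

Proof sketch (as `LowerBars_edge`, `lower_bars` in `H20/BK/LowerBars.lean`: an index type injected into
the edges). Index type, `Q = P - 2` or so:
* `Fin (K (P-1)) × Fin K`: `(s, d) ↦ (K + s, K + s + d + 1)`;
* `Fin (P-2) × Fin (K-1)`: `(p, d) ↦ (e, e + K + 1 + d)`, `e = K + K p + (K-1)`;
* `Fin (P-2) × Fin (K-1)`: `(p, d) ↦ (e' - (K + 1 + d), e')`, `e' = K + K (p+1) + (K-1)`;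
* `Fin (KP) × Fin (K-1)`: `(s, j) ↦ (j + 1, K + s)`;
* `Fin P`: `p ↦ (0, K + K p + (K-1))`;
* `Fin (KP) × Fin (K-1)`: `(s, j) ↦ (K + s, K + KP + j)`;
* `Fin P`: `p ↦ (K + K p + (K-1), 2K + KP - 1)`.
The pairs `(u, v)`, `u < v`, are distinct (in the second and third family exactly one of `u`, `v` is
special). Total `3 K² P - K² - 4 K + 4` for `P ≥ 2`; for `P ≤ 1` the inequality is trivial.
-/

namespace Pool.Agent.H36.FK

open Pool.Agent.H20.BK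

/-- The index set of the edges, `K = m + 1`, `P = Q + 2`. -/
abbrev LCntIdx (m Q : ℕ) : Type :=
  (Fin ((m + 1) * Q + (m + 1)) × Fin (m + 1)) ⊕ ((Fin Q × Fin m) ⊕ ((Fin Q × Fin m) ⊕
    ((Fin ((m + 1) * Q + 2 * (m + 1)) × Fin m) ⊕ (Fin (Q + 2) ⊕
      ((Fin ((m + 1) * Q + 2 * (m + 1)) × Fin m) ⊕ Fin (Q + 2))))))

/-- The edges, with ordered endpoints. -/
def lcntEdge (m Q : ℕ) : LCntIdx m Q → ℕ × ℕ
  | Sum.inl (s, d) => (m + 1 + s, m + 1 + s + d + 1)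
  | Sum.inr (Sum.inl (p, d)) => (m + 1 + (m + 1) * p + m, 3 * (m + 1) + (m + 1) * p + d)
  | Sum.inr (Sum.inr (Sum.inl (p, i))) =>
      (m + 1 + (m + 1) * p + i, 2 * (m + 1) + (m + 1) * p + m)
  | Sum.inr (Sum.inr (Sum.inr (Sum.inl (s, j)))) => (j + 1, m + 1 + s)
  | Sum.inr (Sum.inr (Sum.inr (Sum.inr (Sum.inl p)))) => (0, m + 1 + (m + 1) * p + m)
  | Sum.inr (Sum.inr (Sum.inr (Sum.inr (Sum.inr (Sum.inl (s, j)))))) =>
      (m + 1 + s, m + 1 + ((m + 1) * Q + 2 * (m + 1)) + j)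
  | Sum.inr (Sum.inr (Sum.inr (Sum.inr (Sum.inr (Sum.inr p))))) =>
      (m + 1 + (m + 1) * p + m, m + 1 + ((m + 1) * Q + 2 * (m + 1)) + m)

private theorem lcnt_mul {m p Q : ℕ} (h : p < Q) : (m + 1) * p + (m + 1) ≤ (m + 1) * Q := by
  calc (m + 1) * p + (m + 1) = (m + 1) * (p + 1) := by ring
    _ ≤ (m + 1) * Q := Nat.mul_le_mul_left _ h

private theorem lcnt_mul2 {m p Q : ℕ} (h : p < Q + 2) :
    (m + 1) * p + (m + 1) ≤ (m + 1) * Q + 2 * (m + 1) := by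
  calc (m + 1) * p + (m + 1) = (m + 1) * (p + 1) := by ring
    _ ≤ (m + 1) * (Q + 2) := Nat.mul_le_mul_left _ h
    _ = (m + 1) * Q + 2 * (m + 1) := by ring

private theorem lcnt_inj {m p q : ℕ} (h : (m + 1) * p = (m + 1) * q) : p = q :=
  Nat.eq_of_mul_eq_mul_left (Nat.succ_pos m) h

private theorem lcnt_ne {m p q i : ℕ} (hi : i < m) (h : (m + 1) * p + m = (m + 1) * q + i) :
    False := by
  have h1 : ((m + 1) * p + m) % (m + 1) = m := by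
    rw [Nat.mul_add_mod]
    exact Nat.mod_eq_of_lt (Nat.lt_succ_self m)
  have h2 : ((m + 1) * q + i) % (m + 1) = i := by
    rw [Nat.mul_add_mod]
    exact Nat.mod_eq_of_lt (by omega)
  rw [h, h2] at h1
  omega

private theorem lcnt_mod (m p : ℕ) : (m + 1 + (m + 1) * p + m) % (m + 1) = m + 1 - 1 := by
  have e : m + 1 + (m + 1) * p + m = (m + 1) * (p + 1) + m := by ring
  rw [e, Nat.mul_add_mod]
  exact Nat.mod_eq_of_lt (Nat.lt_succ_self m)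

private theorem lcnt_mod2 (m p : ℕ) : (2 * (m + 1) + (m + 1) * p + m) % (m + 1) = m + 1 - 1 := by
  have e : 2 * (m + 1) + (m + 1) * p + m = (m + 1) * (p + 2) + m := by ring
  rw [e, Nat.mul_add_mod]
  exact Nat.mod_eq_of_lt (Nat.lt_succ_self m)

theorem lcntEdge_inj (m Q : ℕ) : Function.Injective (lcntEdge m Q) := by
  rintro (⟨⟨s, hs⟩, ⟨d, hd⟩⟩ | ⟨⟨p, hp⟩, ⟨d, hd⟩⟩ | ⟨⟨p, hp⟩, ⟨d, hd⟩⟩ | ⟨⟨s, hs⟩, ⟨d, hd⟩⟩ |
      ⟨p, hp⟩ | ⟨⟨s, hs⟩, ⟨d, hd⟩⟩ | ⟨p, hp⟩)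
    (⟨⟨s', hs'⟩, ⟨d', hd'⟩⟩ | ⟨⟨p', hp'⟩, ⟨d', hd'⟩⟩ | ⟨⟨p', hp'⟩, ⟨d', hd'⟩⟩ |
      ⟨⟨s', hs'⟩, ⟨d', hd'⟩⟩ | ⟨p', hp'⟩ | ⟨⟨s', hs'⟩, ⟨d', hd'⟩⟩ | ⟨p', hp'⟩) h
  all_goals simp only [lcntEdge, Prod.mk.injEq] at h
  all_goals obtain ⟨h1, h2⟩ := h
  -- 1
  · obtain rfl : s = s' := by omega
    obtain rfl : d = d' := by omega
    rfl
  · omega
  · omega
  · omega
  · omega
  · omega
  · omega
  -- 2
  · omega
  · obtain rfl : p = p' := lcnt_inj (m := m) (by omega)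
    obtain rfl : d = d' := by omega
    rfl
  · exact (lcnt_ne hd' (p := p) (q := p') (by omega)).elim
  · omega
  · omega
  · have := lcnt_mul (m := m) hp
    omega
  · have := lcnt_mul (m := m) hp
    omega
  -- 3
  · omega
  · exact (lcnt_ne hd (p := p') (q := p) (by omega)).elim
  · obtain rfl : p = p' := lcnt_inj (m := m) (by omega)
    obtain rfl : d = d' := by omega
    rfl
  · omega
  · omega
  · have := lcnt_mul (m := m) hp
    omega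
  · have := lcnt_mul (m := m) hp
    omega
  -- 4
  · omega
  · omega
  · omega
  · obtain rfl : s = s' := by omega
    obtain rfl : d = d' := by omega
    rfl
  · omega
  · omega
  · omega
  -- 5
  · omega
  · omega
  · omega
  · omega
  · obtain rfl : p = p' := lcnt_inj (m := m) (by omega)
    rfl
  · omega
  · omega
  -- 6
  · omega
  · have := lcnt_mul (m := m) hp'
    omega
  · have := lcnt_mul (m := m) hp'
    omega
  · omega
  · omega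
  · obtain rfl : s = s' := by omega
    obtain rfl : d = d' := by omega
    rfl
  · omega
  -- 7
  · omega
  · have := lcnt_mul (m := m) hp'
    omega
  · have := lcnt_mul (m := m) hp'
    omega
  · omega
  · omega
  · omega
  · obtain rfl : p = p' := lcnt_inj (m := m) (by omega)
    rfl

theorem lcntEdge_rel (m Q : ℕ) (e : LCntIdx m Q) :
    Rel (m + 1) (Q + 2) (lcntEdge m Q e).1 (lcntEdge m Q e).2 ∧
      (lcntEdge m Q e).2 < 2 * (m + 1) + (m + 1) * (Q + 2) := by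
  have e0 : (m + 1) * (Q + 2) = (m + 1) * Q + 2 * (m + 1) := by ring
  unfold Rel
  rw [e0]
  rcases e with ⟨⟨s, hs⟩, ⟨d, hd⟩⟩ | ⟨⟨p, hp⟩, ⟨d, hd⟩⟩ | ⟨⟨p, hp⟩, ⟨d, hd⟩⟩ | ⟨⟨s, hs⟩, ⟨d, hd⟩⟩ |
      ⟨p, hp⟩ | ⟨⟨s, hs⟩, ⟨d, hd⟩⟩ | ⟨p, hp⟩
  all_goals simp only [lcntEdge]
  · exact ⟨Or.inr (Or.inr ⟨by omega, by omega, by omega, Or.inl (by omega)⟩), by omega⟩
  · have h := lcnt_mul (m := m) hp
    exact ⟨Or.inr (Or.inr ⟨by omega, by omega, by omega,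
      Or.inr ⟨by omega, Or.inl (lcnt_mod m p)⟩⟩), by omega⟩
  · have h := lcnt_mul (m := m) hp
    exact ⟨Or.inr (Or.inr ⟨by omega, by omega, by omega,
      Or.inr ⟨by omega, Or.inr (lcnt_mod2 m p)⟩⟩), by omega⟩
  · exact ⟨Or.inl ⟨by omega, by omega, by omega, Or.inl (by omega)⟩, by omega⟩
  · have h := lcnt_mul2 (m := m) hp
    exact ⟨Or.inl ⟨by omega, by omega, by omega, Or.inr (lcnt_mod m p)⟩, by omega⟩
  · exact ⟨Or.inr (Or.inl ⟨by omega, by omega, by omega, by omega, Or.inl (by omega)⟩), by omega⟩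
  · have h := lcnt_mul2 (m := m) hp
    exact ⟨Or.inr (Or.inl ⟨by omega, by omega, by omega, by omega, Or.inr (lcnt_mod m p)⟩),
      by omega⟩

theorem card_G0 (K P n : ℕ) (hK : 2 ≤ K) (hn : 2 * K + K * P ≤ n) :
    3 * K ^ 2 * P ≤ Nat.card (G0 K P n).edgeSet + 3 * K ^ 2 := by
  rcases Nat.lt_or_ge P 2 with hP | hP
  · have h1 : P ≤ 1 := by omega
    calc 3 * K ^ 2 * P ≤ 3 * K ^ 2 * 1 := Nat.mul_le_mul_left _ h1
      _ ≤ Nat.card (G0 K P n).edgeSet + 3 * K ^ 2 := by omega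
  obtain ⟨m, rfl⟩ : ∃ m, K = m + 1 := ⟨K - 1, by omega⟩
  obtain ⟨Q, rfl⟩ : ∃ Q, P = Q + 2 := ⟨P - 2, by omega⟩
  have hr := lcntEdge_rel m Q
  have h1 : Nat.card (LCntIdx m Q) ≤ Nat.card (G0 (m + 1) (Q + 2) n).edgeSet := by
    apply Nat.card_le_card_of_injective (fun e =>
      (⟨s((⟨(lcntEdge m Q e).1, (hr e).1.lt.trans ((hr e).2.trans_le hn)⟩ : Fin n),
        (⟨(lcntEdge m Q e).2, (hr e).2.trans_le hn⟩ : Fin n)), Or.inl (hr e).1⟩ :
          (G0 (m + 1) (Q + 2) n).edgeSet))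
    intro e e' h
    simp only [Subtype.mk.injEq, Sym2.eq_iff, Fin.mk.injEq] at h
    apply lcntEdge_inj
    have l1 := (hr e).1.lt
    have l2 := (hr e').1.lt
    rcases h with ⟨h1, h2⟩ | ⟨h1, h2⟩
    · exact Prod.ext h1 h2
    · rw [h1, h2] at l1
      exact absurd l1 (lt_asymm l2)
  have h2 : Nat.card (LCntIdx m Q) =
      ((m + 1) * Q + (m + 1)) * (m + 1) + (Q * m + (Q * m +
        (((m + 1) * Q + 2 * (m + 1)) * m + ((Q + 2) +
          (((m + 1) * Q + 2 * (m + 1)) * m + (Q + 2)))))) := by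
    rw [Nat.card_eq_fintype_card]
    simp only [LCntIdx, Fintype.card_sum, Fintype.card_prod, Fintype.card_fin]
  rw [h2] at h1
  nlinarith [h1, Nat.zero_le m]

end Pool.Agent.H36.FK
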