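import Mathlib
import Pool.Agent.H20.BK.Defs

set_option autoImplicit false

/-!
Project FK, module LOrb2. Sharper counting on the orbits of length at least four.

Proof sketch. Let `Z` be the set on the left: points `t` that are not in `A`, on an orbit of length
`≠ 3`, next to a point of `A` (before or after) on the orbit. Consider an orbit with `L ≥ 3` points,
`r` of them in `A` and `s` of them in `Z`. Then `s ≤ L - r` and `s ≤ 2 r` (map `t` to `π t` if this is in
`A`, otherwise to `π⁻¹ t`; at most two points go to the same point), so `3 s ≤ 2 L`; if `L = 3` then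
`s = 0`, if `L = 4` then `s ≤ 2`, if `L = 5` then `s ≤ 3`, in all cases `s ≤ 2 (L - 3)`, i.e.
`s + 6 ≤ 2 L`. Sum over the `numOrbits π` orbits
(fibres of `d ↦ Quotient.mk (Equiv.Perm.SameCycle.setoid π) d`; compare `LOrb.orb_count`).
-/

namespace Pool.Agent.H36.FK

open Pool.Agent.H20.BK

/-- The inequality for one orbit. -/
private theorem LOrb2_fiber {D : Type*} [Fintype D] [DecidableEq D] (π : Equiv.Perm D)
    (h1 : ∀ d, π d ≠ d) (h2 : ∀ d, π (π d) ≠ d) (A : D → Prop) [DecidablePred A]
    (F : Finset D) (hne : F.Nonempty) (hF : ∀ d ∈ F, π d ∈ F) (hF' : ∀ d ∈ F, π.symm d ∈ F) :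
    (F.filter fun t => ¬ A t ∧ π (π (π t)) ≠ t ∧ (A (π t) ∨ A (π.symm t))).card + 6 ≤
      2 * F.card := by
  have hr : (F.filter A).card + (F.filter fun t => ¬ A t).card = F.card :=
    Finset.card_filter_add_card_filter_not A
  have hs1 : (F.filter fun t => ¬ A t ∧ π (π (π t)) ≠ t ∧ (A (π t) ∨ A (π.symm t))).card ≤
      (F.filter fun t => ¬ A t).card := by
    apply Finset.card_le_card
    intro t ht
    rw [Finset.mem_filter] at ht ⊢
    exact ⟨ht.1, ht.2.1⟩
  have hs2 : (F.filter fun t => ¬ A t ∧ π (π (π t)) ≠ t ∧ (A (π t) ∨ A (π.symm t))).card ≤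
      (F.filter A).card + (F.filter A).card := by
    have hsub : (F.filter fun t => ¬ A t ∧ π (π (π t)) ≠ t ∧ (A (π t) ∨ A (π.symm t))) ⊆
        (F.filter A).image π.symm ∪ (F.filter A).image π := by
      intro t ht
      rw [Finset.mem_filter] at ht
      rw [Finset.mem_union, Finset.mem_image, Finset.mem_image]
      rcases ht.2.2.2 with h | h
      · left
        exact ⟨π t, Finset.mem_filter.mpr ⟨hF t ht.1, h⟩, π.symm_apply_apply t⟩
      · right
        exact ⟨π.symm t, Finset.mem_filter.mpr ⟨hF' t ht.1, h⟩, π.apply_symm_apply t⟩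
    exact (Finset.card_le_card hsub).trans ((Finset.card_union_le _ _).trans
      (Nat.add_le_add Finset.card_image_le Finset.card_image_le))
  by_cases hB : (F.filter fun t =>
      ¬ A t ∧ π (π (π t)) ≠ t ∧ (A (π t) ∨ A (π.symm t))).Nonempty
  · obtain ⟨d, hd⟩ := hB
    rw [Finset.mem_filter] at hd
    obtain ⟨hdF, -, hd3, -⟩ := hd
    have h4 : ({d, π d, π (π d), π (π (π d))} : Finset D).card = 4 := by
      rw [Finset.card_eq_succ]
      refine ⟨d, {π d, π (π d), π (π (π d))}, ?_, rfl, ?_⟩
      · simp only [Finset.mem_insert, Finset.mem_singleton, not_or]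
        exact ⟨(h1 d).symm, (h2 d).symm, hd3.symm⟩
      · rw [Finset.card_eq_succ]
        refine ⟨π d, {π (π d), π (π (π d))}, ?_, rfl, ?_⟩
        · simp only [Finset.mem_insert, Finset.mem_singleton, not_or]
          exact ⟨(h1 (π d)).symm, (h2 (π d)).symm⟩
        · exact Finset.card_pair (h1 (π (π d))).symm
    have hsub : ({d, π d, π (π d), π (π (π d))} : Finset D) ⊆ F := by
      intro x hx
      simp only [Finset.mem_insert, Finset.mem_singleton] at hx
      rcases hx with rfl | rfl | rfl | rfl
      · exact hdF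
      · exact hF _ hdF
      · exact hF _ (hF _ hdF)
      · exact hF _ (hF _ (hF _ hdF))
    have := Finset.card_le_card hsub
    omega
  · rw [Finset.not_nonempty_iff_eq_empty] at hB
    rw [hB, Finset.card_empty]
    obtain ⟨d, hdF⟩ := hne
    have h3 : ({d, π d, π (π d)} : Finset D).card = 3 := by
      rw [Finset.card_eq_succ]
      refine ⟨d, {π d, π (π d)}, ?_, rfl, ?_⟩
      · simp only [Finset.mem_insert, Finset.mem_singleton, not_or]
        exact ⟨(h1 d).symm, (h2 d).symm⟩
      · exact Finset.card_pair (h1 (π d)).symm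
    have hsub : ({d, π d, π (π d)} : Finset D) ⊆ F := by
      intro x hx
      simp only [Finset.mem_insert, Finset.mem_singleton] at hx
      rcases hx with rfl | rfl | rfl
      · exact hdF
      · exact hF _ hdF
      · exact hF _ (hF _ hdF)
    have := Finset.card_le_card hsub
    omega

theorem orb_count2 {D : Type*} [Finite D] (π : Equiv.Perm D) (h1 : ∀ d, π d ≠ d)
    (h2 : ∀ d, π (π d) ≠ d) (A : D → Prop) :
    Nat.card {t : D // ¬ A t ∧ π (π (π t)) ≠ t ∧ (A (π t) ∨ A (π.symm t))} + 6 * numOrbits π ≤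
      2 * Nat.card D := by
  classical
  have : Fintype D := Fintype.ofFinite D
  have : Fintype (Quotient (Equiv.Perm.SameCycle.setoid π)) := Fintype.ofFinite _
  set f : D → Quotient (Equiv.Perm.SameCycle.setoid π) :=
    fun d => Quotient.mk (Equiv.Perm.SameCycle.setoid π) d with hf
  have e1 : Nat.card {t : D // ¬ A t ∧ π (π (π t)) ≠ t ∧ (A (π t) ∨ A (π.symm t))} =
      ∑ q : Quotient (Equiv.Perm.SameCycle.setoid π),
        ((Finset.univ.filter fun d => f d = q).filter
          fun t => ¬ A t ∧ π (π (π t)) ≠ t ∧ (A (π t) ∨ A (π.symm t))).card := by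
    rw [Nat.card_eq_fintype_card, Fintype.card_subtype,
      Finset.card_eq_sum_card_fiberwise (f := f) (t := Finset.univ) (fun _ _ => Finset.mem_univ _)]
    refine Finset.sum_congr rfl fun q _ => ?_
    rw [Finset.filter_filter, Finset.filter_filter]
    congr 1
    ext d
    simp only [Finset.mem_filter, Finset.mem_univ, true_and]
    exact and_comm
  have e2 : Nat.card D = ∑ q : Quotient (Equiv.Perm.SameCycle.setoid π),
      (Finset.univ.filter fun d => f d = q).card := by
    rw [Nat.card_eq_fintype_card, ← Finset.card_univ,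
      Finset.card_eq_sum_card_fiberwise (f := f) (t := Finset.univ) (fun _ _ => Finset.mem_univ _)]
  have e3 : numOrbits π = Fintype.card (Quotient (Equiv.Perm.SameCycle.setoid π)) := by
    unfold numOrbits
    rw [Nat.card_eq_fintype_card]
  have e4 : 6 * numOrbits π = ∑ _q : Quotient (Equiv.Perm.SameCycle.setoid π), 6 := by
    rw [e3, Finset.sum_const, Finset.card_univ, smul_eq_mul, mul_comm]
  rw [e1, e2, e4, ← Finset.sum_add_distrib, Finset.mul_sum]
  refine Finset.sum_le_sum fun q _ => ?_
  refine LOrb2_fiber π h1 h2 A _ ?_ ?_ ?_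
  · obtain ⟨d, hd⟩ := Quotient.exists_rep q
    exact ⟨d, by rw [Finset.mem_filter]; exact ⟨Finset.mem_univ _, hd⟩⟩
  · intro d hd
    rw [Finset.mem_filter] at hd ⊢
    refine ⟨Finset.mem_univ _, ?_⟩
    rw [← hd.2]
    refine Quotient.sound ?_
    change π.SameCycle (π d) d
    exact Equiv.Perm.sameCycle_apply_left.mpr (Equiv.Perm.SameCycle.refl π d)
  · intro d hd
    rw [Finset.mem_filter] at hd ⊢
    refine ⟨Finset.mem_univ _, ?_⟩
    rw [← hd.2]
    refine Quotient.sound ?_
    change π.SameCycle (π.symm d) d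
    refine Equiv.Perm.sameCycle_apply_left.mp ?_
    rw [Equiv.apply_symm_apply]

end Pool.Agent.H36.FK
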