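import Mathlib
import Pool.Agent.H20.BK.LowerEuler
import Pool.Agent.H36.FK.LOrb2
import Pool.Agent.H36.FK.LLoc2

set_option autoImplicit false

/-!
Project FK, module LObs2. Euler's bound with blocked vertices, sharper form.

Proof sketch (as `LObs`; facts `h1`, `h2`, `hd2`, `hF1` as in `lower_euler`). `E = |E(H)|`,
`x = E - |E(G₀)|`, `F = numFaces σ`, `φ = σ * symmPerm H`, `A d` : `d.fst = a ∨ d.fst = b`. For `v ∈ S`
let `t = t_v` be the dart of `exists_bad2`: `t.fst = v` is not in `{a, b}`, and `A (φ t)` or `A (φ⁻¹ t)`.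
* The `v` with `φ³ t ≠ t` are at most `2 (2E) - 6F` by `orb_count2` (`t_v` determines `v = t_v.fst`).
* If `φ³ t = t` the face of `t` is a triangle `v, w, w'` with one of `w, w'` in `{a, b}` and with an edge
  outside `G₀`, which is not the edge between `v` and the vertex in `{a, b}` (in `G₀` by `Blk`). Let `u` be
  the third vertex. If `v u` is not in `G₀` assign to `v` the dart `v → u`; otherwise the edge between
  the vertex of `{a, b}` and `u` is not in `G₀`: assign to `v` the dart of the face of `t` on this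
  edge. This is an injection into the darts of `H` outside `G₀` (`2x` many): the first kind
  determines `v` (source), the second kind too (opposite vertex in the face of the dart), and a dart
  of the first kind is not of the second kind since it joins `v` to `u ∉ {a, b}` (if `u ∈ {a, b}` then
  `v u` is in `G₀`) while a dart of the second kind has an end in `{a, b}` and, if its other end is
  in `S`, would be in `G₀`.
So `|S| ≤ 4E - 6F + 2x` and `2 |E(G₀)| + |S| ≤ 2 (E - x) + 4E - 6F + 2x = 6 (E - F) ≤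
6 (|V| - 2 + 2g)`.
-/

namespace Pool.Agent.H36.FK

open Pool.Agent.H20.BK

variable {V : Type*}

private theorem LObs2_fst {H : SimpleGraph V} {σ : Equiv.Perm H.Dart} (hσ : IsRotation H σ)
    (d : H.Dart) : ((σ * symmPerm H) d).fst = d.snd := by
  rw [Equiv.Perm.mul_apply, hσ.fst_eq]
  rfl

private theorem LObs2_ne {H : SimpleGraph V} {σ : Equiv.Perm H.Dart} (hσ : IsRotation H σ)
    (d : H.Dart) : (σ * symmPerm H) d ≠ d := by
  intro hd
  have e := LObs2_fst hσ d
  rw [hd] at e
  exact d.adj.ne e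

private theorem LObs2_ne2 [Finite V] {H : SimpleGraph V} {σ : Equiv.Perm H.Dart}
    (hσ : IsRotation H σ) (hconn : H.Connected) (hn : 3 ≤ Nat.card V) (d : H.Dart) :
    (σ * symmPerm H) ((σ * symmPerm H) d) ≠ d := by
  classical
  have := Fintype.ofFinite V
  intro hd
  set d' := (σ * symmPerm H) d with hd'
  have e1 : d'.fst = d.snd := LObs2_fst hσ d
  have e2 : d.fst = d'.snd := by
    have := LObs2_fst hσ d'
    rw [hd] at this
    exact this
  have e3 : d' = d.symm := by
    apply SimpleGraph.Dart.ext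
    apply Prod.ext
    · exact e1
    · exact e2.symm
  have e4 : σ d.symm = d.symm := by
    have : (σ * symmPerm H) d = σ d.symm := rfl
    rw [← this, ← hd', e3]
  have e5 : σ d = d := by
    have : (σ * symmPerm H) d' = σ d'.symm := rfl
    rw [this, e3, SimpleGraph.Dart.symm_symm] at hd
    exact hd
  have key : ∀ c : H.Dart, σ c = c → ∀ e : H.Dart, c.fst = e.fst → e = c := by
    intro c hc e he
    obtain ⟨k, hk⟩ := hσ.sameCycle c e he
    have : (σ ^ k) c = c := by
      have hfix : Function.IsFixedPt σ c := hc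
      exact Equiv.Perm.zpow_apply_eq_self_of_apply_eq_self hc k
    rw [← hk, this]
  have hu : ∀ w, H.Adj d.fst w → w = d.snd := by
    intro w hw
    have := key d e5 ⟨(d.fst, w), hw⟩ rfl
    exact congrArg (fun e : H.Dart => e.snd) this
  have hv : ∀ w, H.Adj d.snd w → w = d.fst := by
    intro w hw
    have := key d.symm e4 ⟨(d.snd, w), hw⟩ rfl
    exact congrArg (fun e : H.Dart => e.snd) this
  have hclosed : ∀ a b, H.Adj a b → (a = d.fst ∨ a = d.snd) → (b = d.fst ∨ b = d.snd) := by
    rintro a b hab (rfl | rfl)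
    · exact Or.inr (hu b hab)
    · exact Or.inl (hv b hab)
  have hwalk : ∀ a b (p : H.Walk a b), (a = d.fst ∨ a = d.snd) → (b = d.fst ∨ b = d.snd) := by
    intro a b p
    induction p with
    | nil => exact fun h => h
    | cons hadj p ih => exact fun h => ih (hclosed _ _ hadj h)
  have hall : ∀ w : V, w = d.fst ∨ w = d.snd := by
    intro w
    obtain ⟨p⟩ := hconn.preconnected d.fst w
    exact hwalk _ _ p (Or.inl rfl)
  have hcard : Nat.card V ≤ 2 := by
    rw [Nat.card_eq_fintype_card, ← Finset.card_univ]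
    have : (Finset.univ : Finset V) ⊆ {d.fst, d.snd} := by
      intro w _
      simpa using hall w
    exact (Finset.card_le_card this).trans Finset.card_le_two
  omega

private theorem LObs2_darts {H : SimpleGraph V} [Finite V] :
    Nat.card H.Dart = 2 * Nat.card H.edgeSet := by
  classical
  have := Fintype.ofFinite V
  rw [Nat.card_eq_fintype_card, SimpleGraph.dart_card_eq_twice_card_edges,
    Nat.card_eq_fintype_card, SimpleGraph.edgeFinset_card]

/-- the darts of `H` outside `G₀` -/
private theorem LObs2_out [Finite V] {G₀ H : SimpleGraph V} (hle : G₀ ≤ H) :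
    Nat.card {d : H.Dart // ¬ G₀.Adj d.fst d.snd} + Nat.card G₀.Dart = Nat.card H.Dart := by
  classical
  have hfin : Finite H.Dart :=
    Finite.of_injective (fun d : H.Dart => d.toProd) (fun d e h => SimpleGraph.Dart.ext _ _ h)
  have e1 : Nat.card G₀.Dart = Nat.card {d : H.Dart // G₀.Adj d.fst d.snd} := by
    refine Nat.card_congr ⟨fun d => ⟨⟨d.toProd, hle d.adj⟩, d.adj⟩,
      fun d => ⟨d.1.toProd, d.2⟩, fun d => ?_, fun d => ?_⟩
    · rfl
    · rfl
  have := Fintype.ofFinite H.Dart
  rw [e1, Nat.card_eq_fintype_card, Nat.card_eq_fintype_card, Nat.card_eq_fintype_card,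
    Fintype.card_subtype_compl (fun d : H.Dart => G₀.Adj d.fst d.snd)]
  have := Fintype.card_subtype_le (fun d : H.Dart => G₀.Adj d.fst d.snd)
  omega

private theorem LObs2_card {D W : Type*} [Finite D] (p : D → Prop) (s : Finset W) (f : W → D)
    (h1 : ∀ v ∈ s, p (f v)) (h2 : Set.InjOn f s) : s.card ≤ Nat.card {d // p d} := by
  classical
  have := Fintype.ofFinite D
  rw [Nat.card_eq_fintype_card, Fintype.card_subtype]
  exact Finset.card_le_card_of_injOn f (fun v hv => by simpa using h1 v hv) h2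

/-- the assigned dart in a triangular face -/
private theorem LObs2_assign [Finite V] {G₀ H : SimpleGraph V} {σ : Equiv.Perm H.Dart}
    (hσ : IsRotation H σ) {a b v : V} (hv : Blk G₀ a b v) (t : H.Dart) (ht : t.fst = v)
    (hbad : BadDart (G₀ := G₀) σ t)
    (hnear : (t.snd = a ∨ t.snd = b) ∨
        ∃ d : H.Dart, (σ * symmPerm H) d = t ∧ d.snd = v ∧ (d.fst = a ∨ d.fst = b))
    (h3 : (σ * symmPerm H) ((σ * symmPerm H) ((σ * symmPerm H) t)) = t) :
    ∃ e : H.Dart, ¬ G₀.Adj e.fst e.snd ∧
      ((e.fst = v ∧ e.snd ≠ a ∧ e.snd ≠ b) ∨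
        (((σ * symmPerm H) ((σ * symmPerm H) e)).fst = v ∧
          (e.fst = a ∨ e.fst = b ∨ e.snd = a ∨ e.snd = b))) := by
  obtain ⟨x, y, c, hva, hvb, -⟩ := hv
  have hf := LObs2_fst hσ
  set φ := σ * symmPerm H with hφ
  have e1 : (φ t).fst = t.snd := hf t
  have e2 : (φ (φ t)).fst = (φ t).snd := hf _
  have e3 : (φ (φ t)).snd = v := by rw [← hf, h3, ht]
  have hAdj : ∀ w, (w = a ∨ w = b) → G₀.Adj v w := by
    rintro w (rfl | rfl)
    · exact hva
    · exact hvb
  unfold BadDart at hbad
  rw [← hφ] at hbad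
  rcases hbad with h | h
  · exact absurd h3 h
  rw [ht, e1, e2, e3] at h
  have hnear' : (t.snd = a ∨ t.snd = b) ∨ ((φ t).snd = a ∨ (φ t).snd = b) := by
    rcases hnear with h' | ⟨d, hd1, -, hd3⟩
    · exact Or.inl h'
    · right
      have : φ (φ t) = d := φ.injective (h3.trans hd1.symm)
      rw [← this, e2] at hd3
      exact hd3
  rcases hnear' with h' | h'
  · -- the vertex next to `v` is `a` or `b`
    have g1 : G₀.Adj v t.snd := hAdj _ h'
    by_cases g2 : G₀.Adj v (φ t).snd
    · refine ⟨φ t, ?_, Or.inr ⟨by rw [h3, ht], ?_⟩⟩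
      · rw [e1]
        rcases h with h | h | h
        · exact absurd g1 h
        · exact h
        · exact absurd g2.symm h
      · rw [e1]
        rcases h' with h' | h'
        · exact Or.inl h'
        · exact Or.inr (Or.inl h')
    · refine ⟨(φ (φ t)).symm, ?_, Or.inl ⟨?_, ?_, ?_⟩⟩
      · have : G₀.Adj (φ (φ t)).symm.fst (φ (φ t)).symm.snd ↔ G₀.Adj v (φ t).snd := by
          show G₀.Adj (φ (φ t)).snd (φ (φ t)).fst ↔ _
          rw [e2, e3]
        rw [this]
        exact g2
      · exact e3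
      · intro hc
        exact g2 (hAdj _ (Or.inl (e2.symm.trans hc)))
      · intro hc
        exact g2 (hAdj _ (Or.inr (e2.symm.trans hc)))
  · have g1 : G₀.Adj v (φ t).snd := hAdj _ h'
    by_cases g2 : G₀.Adj v t.snd
    · refine ⟨φ t, ?_, Or.inr ⟨by rw [h3, ht], ?_⟩⟩
      · rw [e1]
        rcases h with h | h | h
        · exact absurd g2 h
        · exact h
        · exact absurd g1.symm h
      · rcases h' with h' | h'
        · exact Or.inr (Or.inr (Or.inl h'))
        · exact Or.inr (Or.inr (Or.inr h'))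
    · refine ⟨t, by rw [ht]; exact g2, Or.inl ⟨ht, ?_, ?_⟩⟩
      · intro hc
        exact g2 (hAdj _ (Or.inl hc))
      · intro hc
        exact g2 (hAdj _ (Or.inr hc))

theorem blocked_euler2 {V : Type*} [Finite V] (G G₀ : SimpleGraph V) (h0 : G₀ ≤ G) (a b : V)
    (S : Finset V) (ha : a ∉ S) (hb : b ∉ S) (hS : ∀ v ∈ S, Blk G₀ a b v) (g : ℕ)
    (h : GenusLE G g) (hn : 3 ≤ Nat.card V) :
    2 * (Nat.card G₀.edgeSet : ℤ) + S.card + 12 ≤ 6 * Nat.card V + 12 * g := by
  classical
  obtain ⟨H, hGH, hconn, σ, hσ, hE⟩ := h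
  have hfin : Finite H.Dart :=
    Finite.of_injective (fun d : H.Dart => d.toProd) (fun d e h => SimpleGraph.Dart.ext _ _ h)
  have hle : G₀ ≤ H := h0.trans hGH
  have h1 := LObs2_ne hσ
  have h2 := LObs2_ne2 hσ hconn hn
  have hf := LObs2_fst hσ
  have hex : ∀ v : V, ∃ t : H.Dart, v ∈ S → (t.fst = v ∧ BadDart (G₀ := G₀) σ t ∧
      ((t.snd = a ∨ t.snd = b) ∨
        ∃ d : H.Dart, (σ * symmPerm H) d = t ∧ d.snd = v ∧ (d.fst = a ∨ d.fst = b))) := by
    intro v
    by_cases hv : v ∈ S
    · obtain ⟨t, ht⟩ := exists_bad2 hle hσ (hS v hv)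
      exact ⟨t, fun _ => ht⟩
    · have : Nontrivial V := by
        rw [← Finite.one_lt_card_iff_nontrivial]
        omega
      obtain ⟨u, w, huw⟩ := exists_pair_ne V
      obtain ⟨p⟩ := hconn.preconnected u w
      cases p with
      | nil => exact absurd rfl huw
      | cons hadj _ => exact ⟨⟨(_, _), hadj⟩, fun h' => absurd h' hv⟩
  choose t ht using hex
  set φ := σ * symmPerm H with hφ
  have hcnt := orb_count2 φ h1 h2 (fun d => d.fst = a ∨ d.fst = b)
  have hsplit := Finset.card_filter_add_card_filter_not (s := S) (fun v => φ (φ (φ (t v))) = t v)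
  -- the first kind
  have hA : (S.filter fun v => ¬ φ (φ (φ (t v))) = t v).card ≤
      Nat.card {d : H.Dart // ¬ (d.fst = a ∨ d.fst = b) ∧ φ (φ (φ d)) ≠ d ∧
        (((φ d).fst = a ∨ (φ d).fst = b) ∨ ((φ.symm d).fst = a ∨ (φ.symm d).fst = b))} := by
    refine LObs2_card _ _ t ?_ ?_
    · intro v hv
      rw [Finset.mem_filter] at hv
      obtain ⟨e1, -, e2⟩ := ht v hv.1
      refine ⟨?_, hv.2, ?_⟩
      · rw [e1]
        rintro (rfl | rfl)
        · exact ha hv.1
        · exact hb hv.1
      · rcases e2 with e2 | ⟨d, e3, -, e4⟩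
        · left
          rw [hf]
          exact e2
        · right
          rw [← e3, Equiv.symm_apply_apply]
          exact e4
    · intro v hv w hw hvw
      rw [Finset.mem_coe, Finset.mem_filter] at hv hw
      rw [← (ht v hv.1).1, ← (ht w hw.1).1, hvw]
  -- the second kind
  have hB : (S.filter fun v => φ (φ (φ (t v))) = t v).card ≤
      Nat.card {d : H.Dart // ¬ G₀.Adj d.fst d.snd} := by
    have hex2 : ∀ v : V, ∃ e : H.Dart, v ∈ S.filter (fun v => φ (φ (φ (t v))) = t v) →
        (¬ G₀.Adj e.fst e.snd ∧ ((e.fst = v ∧ e.snd ≠ a ∧ e.snd ≠ b) ∨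
          ((φ (φ e)).fst = v ∧ (e.fst = a ∨ e.fst = b ∨ e.snd = a ∨ e.snd = b)))) := by
      intro v
      by_cases hv : v ∈ S.filter (fun v => φ (φ (φ (t v))) = t v)
      · rw [Finset.mem_filter] at hv
        obtain ⟨e1, e2, e3⟩ := ht v hv.1
        obtain ⟨e, he⟩ := LObs2_assign hσ (hS v hv.1) (t v) e1 e2 e3 hv.2
        exact ⟨e, fun _ => he⟩
      · exact ⟨t v, fun h' => absurd h' hv⟩
    choose e he using hex2
    refine LObs2_card _ _ e (fun v hv => (he v hv).1) ?_
    intro v hv w hw hvw
    have hv' := he v hv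
    have hw' := he w hw
    rw [Finset.mem_coe, Finset.mem_filter] at hv hw
    have hva : v ≠ a := by rintro rfl; exact ha hv.1
    have hvb : v ≠ b := by rintro rfl; exact hb hv.1
    have hwa : w ≠ a := by rintro rfl; exact ha hw.1
    have hwb : w ≠ b := by rintro rfl; exact hb hw.1
    rw [← hvw] at hw'
    rcases hv'.2 with ⟨g1, g2, g3⟩ | ⟨g1, g2⟩ <;> rcases hw'.2 with ⟨k1, k2, k3⟩ | ⟨k1, k2⟩
    · exact g1.symm.trans k1
    · exfalso
      rcases k2 with k2 | k2 | k2 | k2
      · exact hva (g1.symm.trans k2)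
      · exact hvb (g1.symm.trans k2)
      · exact g2 k2
      · exact g3 k2
    · exfalso
      rcases g2 with g2 | g2 | g2 | g2
      · exact hwa (k1.symm.trans g2)
      · exact hwb (k1.symm.trans g2)
      · exact k2 g2
      · exact k3 g2
    · exact g1.symm.trans k1
  have hout := LObs2_out (H := H) hle
  have hd2 := LObs2_darts (H := H)
  have hd0 := LObs2_darts (H := G₀)
  have hF : numOrbits φ = numFaces σ := rfl
  have hF1 : 1 ≤ numFaces σ := by
    have hV : Nonempty V := by
      rw [← not_isEmpty_iff]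
      intro hem
      rw [Nat.card_of_isEmpty] at hn
      omega
    obtain ⟨v⟩ := hV
    unfold numFaces numOrbits
    have : Nonempty (Quotient (Equiv.Perm.SameCycle.setoid (σ * symmPerm H))) :=
      ⟨Quotient.mk _ (t v)⟩
    exact Nat.card_pos
  have hmax : max (1 : ℤ) (numFaces σ : ℤ) = numFaces σ := by
    apply max_eq_right
    exact_mod_cast hF1
  rw [hmax] at hE
  rw [hF, hd2] at hcnt
  rw [hd2, hd0] at hout
  zify at hcnt hout hsplit hA hB
  linarith

end Pool.Agent.H36.FK
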