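import Mathlib
import Pool.Agent.H20.BK.LowerBars
import Pool.Agent.H36.FK.LObs2
import Pool.Agent.H36.FK.LBlk2
import Pool.Agent.H36.FK.LCnt
import Pool.Agent.H36.FK.LBarA
import Pool.Agent.H36.FK.LBarB

set_option autoImplicit false

/-!
Project FK, module LMain. The lower bound.
-/

namespace Pool.Agent.H36.FK

open Pool.Agent.H20.BK

theorem G0_le {K P n : ℕ} (hK : 2 ≤ K) : G0 K P n ≤ (bars K P n).graph (K - 1) := by
  have key : ∀ u v : Fin n, Rel K P u v → ((bars K P n).graph (K - 1)).Adj u v := by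
    intro u v h
    rcases h with ⟨h1, h2, h3, h4⟩ | ⟨h1, h2, h3, h4, h5⟩ | ⟨h1, h2, h3, h4⟩
    · exact adj_top hK u v h1 h2 h3 h4
    · exact adj_bot hK u v h1 h2 h3 h4 h5
    · exact adj_short hK u v h1 h2 h3 h4
  intro u v h
  rcases h with h | h
  · exact key u v h
  · exact (key v u h).symm

theorem lower_bound (k n : ℕ) (hk : 1 ≤ k) (hn : 1 ≤ n) : ∃ B : Bars n, ∀ g : ℕ,
    GenusLE (B.graph k) g →
    (k : ℝ) * n / 2 + n / (12 * ((k : ℝ) + 1)) ≤ g + 2 * ((k : ℝ) + 1) ^ 2 := by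
  have hk' : (1 : ℝ) ≤ k := by exact_mod_cast hk
  by_cases h : n < 4 * (k + 1)
  · obtain ⟨B⟩ := bars_nonempty n
    refine ⟨B, fun g _ => ?_⟩
    have h1 : (n : ℝ) ≤ 4 * (k + 1) := by exact_mod_cast h.le
    have h3 : (0 : ℝ) ≤ g := Nat.cast_nonneg g
    have h5 : (n : ℝ) / (12 * ((k : ℝ) + 1)) ≤ 1 := by
      rw [div_le_one (by positivity)]
      nlinarith
    nlinarith
  · push Not at h
    -- `P = n / (k+1) - 2`
    set K := k + 1 with hKdef
    have hK : 2 ≤ K := by omega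
    set P := n / K - 2 with hP
    have hdm := Nat.div_add_mod n K
    have hmod : n % K < K := Nat.mod_lt _ (by omega)
    have hdiv : 4 ≤ n / K := by
      rw [Nat.le_div_iff_mul_le (by omega)]
      exact h
    have hPn : K * P + 2 * K = K * (n / K) := by
      have : n / K = P + 2 := by omega
      rw [this]; ring
    have hle : 2 * K + K * P ≤ n := by omega
    have hge : n ≤ 3 * K + K * P := by omega
    refine ⟨bars K P n, fun g hg => ?_⟩
    obtain ⟨a, b, S, ha, hb, hS1, hS2⟩ := exists_blk K P n hK hle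
    have hG : G0 K P n ≤ (bars K P n).graph k := by
      have := G0_le (P := P) (n := n) hK
      simpa [hKdef] using this
    have h3 := blocked_euler2 _ _ hG a b S ha hb hS2 g hg (by rw [Nat.card_fin]; omega)
    have h4 := card_G0 K P n hK hle
    rw [Nat.card_fin] at h3
    have h3' : 2 * (Nat.card (G0 K P n).edgeSet : ℝ) + S.card + 12 ≤ 6 * n + 12 * g := by
      exact_mod_cast h3
    have h4' : 3 * (K : ℝ) ^ 2 * P ≤ Nat.card (G0 K P n).edgeSet + 3 * (K : ℝ) ^ 2 := by
      exact_mod_cast h4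
    have h5' : (P : ℝ) ≤ S.card + 2 := by exact_mod_cast hS1
    have h6' : (n : ℝ) ≤ 3 * K + K * P := by exact_mod_cast hge
    have hKr : (K : ℝ) = k + 1 := by rw [hKdef]; push_cast; ring
    have hKpos : (0 : ℝ) < K := by rw [hKr]; linarith
    have h7 : (n : ℝ) / K ≤ 3 + P := by
      rw [div_le_iff₀ hKpos]
      linarith
    have h8 : (n : ℝ) / (12 * ((k : ℝ) + 1)) = n / K / 12 := by
      rw [← hKr, mul_comm, div_mul_eq_div_div]
    rw [h8, ← hKr]
    have hkK : (k : ℝ) = K - 1 := by rw [hKr]; ring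
    rw [hkK]
    have h9 : (K : ℝ) * n ≤ 3 * (K : ℝ) ^ 2 + (K : ℝ) ^ 2 * P := by nlinarith
    nlinarith

end Pool.Agent.H36.FK
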