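import Mathlib
import Pool.Agent.H20.BK.Defs

set_option autoImplicit false

/-!
Project FK, module LOrb. Points on orbits of length different from three.

Proof sketch. Every orbit has `s ≥ 3` points; if `s = 3` none of its points counts on the left and
`12 ≤ 4 s`, if `s ≥ 4` then `s + 12 ≤ 4 s`. Sum over the orbits (`numOrbits π` of them), using the
fibres of `d ↦ Quotient.mk (Equiv.Perm.SameCycle.setoid π) d`.
-/

namespace Pool.Agent.H36.FK

open Pool.Agent.H20.BK

/-- The inequality for one orbit. -/
private theorem LOrb_fiber {D : Type*} [Fintype D] [DecidableEq D] (π : Equiv.Perm D)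
    (h1 : ∀ d, π d ≠ d) (h2 : ∀ d, π (π d) ≠ d) (F : Finset D) (hne : F.Nonempty)
    (hF : ∀ d ∈ F, π d ∈ F) :
    (F.filter fun d => π (π (π d)) ≠ d).card + 12 ≤ 4 * F.card := by
  by_cases hB : (F.filter fun d => π (π (π d)) ≠ d).Nonempty
  · obtain ⟨d, hd⟩ := hB
    rw [Finset.mem_filter] at hd
    obtain ⟨hdF, hd3⟩ := hd
    have hle : (F.filter fun d => π (π (π d)) ≠ d).card ≤ F.card := Finset.card_filter_le _ _
    have h4 : ({d, π d, π (π d), π (π (π d))} : Finset D).card = 4 := by
      rw [Finset.card_eq_succ]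
      refine ⟨d, {π d, π (π d), π (π (π d))}, ?_, rfl, ?_⟩
      · simp only [Finset.mem_insert, Finset.mem_singleton, not_or]
        exact ⟨(h1 d).symm, (h2 d).symm, hd3.symm⟩
      · rw [Finset.card_eq_succ]
        refine ⟨π d, {π (π d), π (π (π d))}, ?_, rfl, ?_⟩
        · simp only [Finset.mem_insert, Finset.mem_singleton, not_or]
          exact ⟨(h1 (π d)).symm, (h2 (π d)).symm⟩
        · exact Finset.card_pair (h1 (π (π d))).symm
    have hsub : ({d, π d, π (π d), π (π (π d))} : Finset D) ⊆ F := by
      intro x hx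
      simp only [Finset.mem_insert, Finset.mem_singleton] at hx
      rcases hx with rfl | rfl | rfl | rfl
      · exact hdF
      · exact hF _ hdF
      · exact hF _ (hF _ hdF)
      · exact hF _ (hF _ (hF _ hdF))
    have := Finset.card_le_card hsub
    omega
  · rw [Finset.not_nonempty_iff_eq_empty] at hB
    rw [hB, Finset.card_empty]
    obtain ⟨d, hdF⟩ := hne
    have h3 : ({d, π d, π (π d)} : Finset D).card = 3 := by
      rw [Finset.card_eq_succ]
      refine ⟨d, {π d, π (π d)}, ?_, rfl, ?_⟩
      · simp only [Finset.mem_insert, Finset.mem_singleton, not_or]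
        exact ⟨(h1 d).symm, (h2 d).symm⟩
      · exact Finset.card_pair (h1 (π d)).symm
    have hsub : ({d, π d, π (π d)} : Finset D) ⊆ F := by
      intro x hx
      simp only [Finset.mem_insert, Finset.mem_singleton] at hx
      rcases hx with rfl | rfl | rfl
      · exact hdF
      · exact hF _ hdF
      · exact hF _ (hF _ hdF)
    have := Finset.card_le_card hsub
    omega

theorem orb_count {D : Type*} [Finite D] (π : Equiv.Perm D) (h1 : ∀ d, π d ≠ d)
    (h2 : ∀ d, π (π d) ≠ d) :
    Nat.card {d : D // π (π (π d)) ≠ d} + 12 * numOrbits π ≤ 4 * Nat.card D := by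
  classical
  have : Fintype D := Fintype.ofFinite D
  have : Fintype (Quotient (Equiv.Perm.SameCycle.setoid π)) := Fintype.ofFinite _
  set f : D → Quotient (Equiv.Perm.SameCycle.setoid π) :=
    fun d => Quotient.mk (Equiv.Perm.SameCycle.setoid π) d with hf
  have e1 : Nat.card {d : D // π (π (π d)) ≠ d} =
      ∑ q : Quotient (Equiv.Perm.SameCycle.setoid π),
        ((Finset.univ.filter fun d => f d = q).filter fun d => π (π (π d)) ≠ d).card := by
    rw [Nat.card_eq_fintype_card, Fintype.card_subtype,
      Finset.card_eq_sum_card_fiberwise (f := f) (t := Finset.univ) (fun _ _ => Finset.mem_univ _)]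
    refine Finset.sum_congr rfl fun q _ => ?_
    rw [Finset.filter_filter, Finset.filter_filter]
    congr 1
    ext d
    simp only [Finset.mem_filter, Finset.mem_univ, true_and]
    exact and_comm
  have e2 : Nat.card D = ∑ q : Quotient (Equiv.Perm.SameCycle.setoid π),
      (Finset.univ.filter fun d => f d = q).card := by
    rw [Nat.card_eq_fintype_card, ← Finset.card_univ,
      Finset.card_eq_sum_card_fiberwise (f := f) (t := Finset.univ) (fun _ _ => Finset.mem_univ _)]
  have e3 : numOrbits π = Fintype.card (Quotient (Equiv.Perm.SameCycle.setoid π)) := by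
    unfold numOrbits
    rw [Nat.card_eq_fintype_card]
  have e4 : 12 * numOrbits π = ∑ _q : Quotient (Equiv.Perm.SameCycle.setoid π), 12 := by
    rw [e3, Finset.sum_const, Finset.card_univ, smul_eq_mul, mul_comm]
  rw [e1, e2, e4, ← Finset.sum_add_distrib, Finset.mul_sum]
  refine Finset.sum_le_sum fun q _ => ?_
  refine LOrb_fiber π h1 h2 _ ?_ ?_
  · obtain ⟨d, hd⟩ := Quotient.exists_rep q
    exact ⟨d, by rw [Finset.mem_filter]; exact ⟨Finset.mem_univ _, hd⟩⟩
  · intro d hd
    rw [Finset.mem_filter] at hd ⊢
    refine ⟨Finset.mem_univ _, ?_⟩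
    rw [← hd.2]
    refine Quotient.sound ?_
    change π.SameCycle (π d) d
    exact Equiv.Perm.sameCycle_apply_left.mpr (Equiv.Perm.SameCycle.refl π d)

end Pool.Agent.H36.FK
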