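import Mathlib
import Pool.Agent.H20.BK.TriProps

set_option autoImplicit false

/-!
Project FK, module UDefs. The natural pairing of the darts of a sequence.
-/

namespace Pool.Agent.H36.FK

open Pool.Agent.H20.BK Finset

variable {V : Type*} [LinearOrder V] {K T : ℕ} {S : ℕ → Finset V}

/-- `α` pairs every start with the end of the same time interval of nearness. -/
structure NatAlpha (α : Equiv.Perm (Dt K T S)) : Prop where
  isAlpha : IsAlpha α
  lt : ∀ d, IsStart d → (d.τ : ℕ) < ((α d).τ : ℕ)
  near : ∀ d, IsStart d → ∀ σ : ℕ, (d.τ : ℕ) < σ → σ ≤ ((α d).τ : ℕ) → Near K (S σ) d.a d.b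

end Pool.Agent.H36.FK
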