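import Mathlib
import Pool.Agent.H36.FK.UDefs

set_option autoImplicit false

/-!
Project FK, module UAlpha. The natural pairing exists.

Proof sketch. For a start `d` (then `¬ Near (S τ)`, `Near (S (τ+1))` for the pair) let the partner be
the dart at the least step `τ' > τ` with `¬ Near (S (τ'+1))` (it exists since `S T = ∅`; `τ' < T`);
for an end `d` (`Near (S τ)`, `¬ Near (S (τ+1))`) the dart at the greatest step `τ' < τ` with
`¬ Near (S τ')` (`S 0 = ∅`). Both maps preserve the pair and are inverse to each other.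
-/

namespace Pool.Agent.H36.FK

open Pool.Agent.H20.BK Finset

variable {V : Type*} [LinearOrder V] {K T : ℕ} {S : ℕ → Finset V}

/-- `d` is a start, `e` is the end of the same interval. -/
private def UR (d e : Dt K T S) : Prop :=
  IsStart d ∧ ¬ IsStart e ∧ e.a = d.a ∧ e.b = d.b ∧ (d.τ : ℕ) < (e.τ : ℕ) ∧
    ∀ σ : ℕ, (d.τ : ℕ) < σ → σ ≤ (e.τ : ℕ) → Near K (S σ) d.a d.b

private theorem start_not_near (d : Dt K T S) (h : IsStart d) : ¬ Near K (S d.τ) d.a d.b :=
  fun h' => d.ch (iff_of_true h' h)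

private theorem end_near (d : Dt K T S) (h : ¬ IsStart d) : Near K (S d.τ) d.a d.b := by
  by_contra h'
  exact d.ch (iff_of_false h' h)

private theorem UR_right {d e e' : Dt K T S} (h : UR d e) (h' : UR d e') : e = e' := by
  obtain ⟨h1, h2, h3, h4, h5, h6⟩ := h
  obtain ⟨_, g2, g3, g4, g5, g6⟩ := h'
  have key : (e.τ : ℕ) = (e'.τ : ℕ) := by
    rcases lt_trichotomy (e.τ : ℕ) (e'.τ : ℕ) with hlt | heq | hgt
    · exfalso
      apply h2
      have := g6 ((e.τ : ℕ) + 1) (by omega) (by omega)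
      unfold IsStart
      rw [h3, h4]
      exact this
    · exact heq
    · exfalso
      apply g2
      have := h6 ((e'.τ : ℕ) + 1) (by omega) (by omega)
      unfold IsStart
      rw [g3, g4]
      exact this
  exact Dt.ext (Fin.ext key) (h3.trans g3.symm) (h4.trans g4.symm)

private theorem UR_left {d d' e : Dt K T S} (h : UR d e) (h' : UR d' e) : d = d' := by
  obtain ⟨h1, h2, h3, h4, h5, h6⟩ := h
  obtain ⟨g1, _, g3, g4, g5, g6⟩ := h'
  have ha : d.a = d'.a := h3.symm.trans g3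
  have hb : d.b = d'.b := h4.symm.trans g4
  have key : (d.τ : ℕ) = (d'.τ : ℕ) := by
    rcases lt_trichotomy (d.τ : ℕ) (d'.τ : ℕ) with hlt | heq | hgt
    · exfalso
      have := h6 (d'.τ : ℕ) hlt g5.le
      rw [ha, hb] at this
      exact start_not_near d' g1 this
    · exact heq
    · exfalso
      have := g6 (d.τ : ℕ) hgt h5.le
      rw [← ha, ← hb] at this
      exact start_not_near d h1 this
  exact Dt.ext (Fin.ext key) ha hb

private theorem UR_ex_right (hS : IsSeq S T) (d : Dt K T S) (h : IsStart d) :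
    ∃ e : Dt K T S, UR d e := by
  classical
  have hex : ∃ τ' : ℕ, (d.τ : ℕ) < τ' ∧ ¬ Near K (S τ') d.a d.b := by
    refine ⟨T, d.τ.2, ?_⟩
    rw [hS.last]
    intro h'
    exact absurd h'.1 (Finset.notMem_empty _)
  obtain ⟨h1, h2⟩ := Nat.find_spec hex
  have hmin : ∀ σ, σ < Nat.find hex → (d.τ : ℕ) < σ → Near K (S σ) d.a d.b := by
    intro σ hσ hσ'
    by_contra hc
    exact Nat.find_min hex hσ ⟨hσ', hc⟩
  have hle : Nat.find hex ≤ T := by
    apply Nat.find_min' hex
    refine ⟨d.τ.2, ?_⟩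
    rw [hS.last]
    intro h'
    exact absurd h'.1 (Finset.notMem_empty _)
  generalize Nat.find hex = N at *
  have hne : N ≠ (d.τ : ℕ) + 1 := by
    rintro rfl
    exact h2 h
  obtain ⟨τ', rfl⟩ : ∃ τ', N = τ' + 1 := ⟨N - 1, by omega⟩
  have hn : Near K (S τ') d.a d.b := hmin τ' (by omega) (by omega)
  refine ⟨⟨⟨τ', by omega⟩, d.a, d.b, fun hiff => h2 (hiff.1 hn)⟩, h, h2, rfl, rfl, ?_, ?_⟩
  · change (d.τ : ℕ) < τ'
    omega
  · intro σ hσ hσ'
    exact hmin σ (Nat.lt_succ_of_le hσ') hσ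

private theorem UR_ex_left (hS : IsSeq S T) (e : Dt K T S) (h : ¬ IsStart e) :
    ∃ d : Dt K T S, UR d e := by
  classical
  have he : Near K (S e.τ) e.a e.b := end_near e h
  have hex : ∃ m : ℕ, ¬ Near K (S ((e.τ : ℕ) - m)) e.a e.b := by
    refine ⟨(e.τ : ℕ), ?_⟩
    rw [Nat.sub_self, hS.zero]
    intro h'
    exact absurd h'.1 (Finset.notMem_empty _)
  have h2 := Nat.find_spec hex
  have hmin : ∀ m, m < Nat.find hex → Near K (S ((e.τ : ℕ) - m)) e.a e.b := by
    intro m hm
    by_contra hc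
    exact Nat.find_min hex hm hc
  have hle : Nat.find hex ≤ (e.τ : ℕ) := by
    apply Nat.find_min' hex
    rw [Nat.sub_self, hS.zero]
    intro h'
    exact absurd h'.1 (Finset.notMem_empty _)
  generalize Nat.find hex = N at *
  have hpos : 0 < N := by
    rcases Nat.eq_zero_or_pos N with h0 | h0
    · rw [h0, Nat.sub_zero] at h2
      exact absurd he h2
    · exact h0
  have hlt := e.τ.2
  have hn : Near K (S ((e.τ : ℕ) - N + 1)) e.a e.b := by
    have := hmin (N - 1) (by omega)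
    have e1 : (e.τ : ℕ) - (N - 1) = (e.τ : ℕ) - N + 1 := by omega
    rwa [e1] at this
  refine ⟨⟨⟨(e.τ : ℕ) - N, by omega⟩, e.a, e.b, fun hiff => h2 (hiff.2 hn)⟩, hn, h, rfl, rfl,
    ?_, ?_⟩
  · change (e.τ : ℕ) - N < (e.τ : ℕ)
    omega
  · intro σ hσ hσ'
    change (e.τ : ℕ) - N < σ at hσ
    have := hmin ((e.τ : ℕ) - σ) (by omega)
    have e1 : (e.τ : ℕ) - ((e.τ : ℕ) - σ) = σ := by omega
    rwa [e1] at this

theorem exists_natAlpha (hS : IsSeq S T) : ∃ α : Equiv.Perm (Dt K T S), NatAlpha α := by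
  classical
  choose f hf using UR_ex_right (K := K) hS
  choose g hg using UR_ex_left (K := K) hS
  let α0 : Dt K T S → Dt K T S := fun d => if h : IsStart d then f d h else g d h
  have hpos : ∀ d (h : IsStart d), α0 d = f d h := fun d h => dif_pos h
  have hneg : ∀ d (h : ¬ IsStart d), α0 d = g d h := fun d h => dif_neg h
  have hinv : Function.Involutive α0 := by
    intro d
    by_cases h : IsStart d
    · rw [hpos d h, hneg _ (hf d h).2.1]
      exact UR_left (hg _ (hf d h).2.1) (hf d h)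
    · rw [hneg d h, hpos _ (hg d h).1]
      exact UR_right (hf _ (hg d h).1) (hg d h)
  refine ⟨hinv.toPerm, ⟨⟨fun d => hinv d, fun d => ?_, fun d => ?_, fun d => ?_⟩,
    fun d h => ?_, fun d h => ?_⟩⟩
  · change (α0 d).a = d.a
    by_cases h : IsStart d
    · rw [hpos d h]; exact (hf d h).2.2.1
    · rw [hneg d h]; exact (hg d h).2.2.1.symm
  · change (α0 d).b = d.b
    by_cases h : IsStart d
    · rw [hpos d h]; exact (hf d h).2.2.2.1
    · rw [hneg d h]; exact (hg d h).2.2.2.1.symm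
  · change IsStart (α0 d) ↔ ¬ IsStart d
    by_cases h : IsStart d
    · rw [hpos d h]; exact iff_of_false (hf d h).2.1 (not_not.2 h)
    · rw [hneg d h]; exact iff_of_true (hg d h).1 h
  · change (d.τ : ℕ) < ((α0 d).τ : ℕ)
    rw [hpos d h]
    exact (hf d h).2.2.2.2.1
  · change ∀ σ : ℕ, (d.τ : ℕ) < σ → σ ≤ ((α0 d).τ : ℕ) → Near K (S σ) d.a d.b
    rw [hpos d h]
    exact (hf d h).2.2.2.2.2

end Pool.Agent.H36.FK
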