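import Mathlib
import Pool.Agent.H20.BK.Count

set_option autoImplicit false

/-!
Project FK, module UCnt. Counting darts and triangles when every step changes one element.

Proof sketch. With `chg S τ = {u}`: `e2 ⊆ inst` (a pair near in the small state and not near in the
big one has `u` in between, `btw (big) a b = K` and `btw a u + 1 + btw u b = K`), and
`|e1| ≤ |e2| + K` (`card_e1_le`). The first and the last step have `e1 = ∅` (`S 0 = ∅`, `|S 1| = 1`,
no near pairs; `S T = ∅`, `|S (T-1)| = 1`). `T = ∑ |chg| = 2 |V| ≥ 2` (`sum_card_chg`). So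
`|Dt| = ∑ (|e1| + |e2|) ≤ 2 ∑ |e2| + K (2 |V| - 2)` (`card_Dt`) and `∑ |e2| ≤ |Idx|`
(as in `core` of `H20/BK/Core.lean`).
-/

namespace Pool.Agent.H36.FK

open Pool.Agent.H20.BK Finset

variable {V : Type*} [LinearOrder V] [Fintype V] {K T : ℕ} {S : ℕ → Finset V}

omit [Fintype V] in
private theorem UCnt_big {τ : ℕ} {u : V} (h : chg S τ = {u}) :
    big S τ = insert u (small S τ) ∧ u ∉ small S τ := by
  have hsub : small S τ ⊆ big S τ := inter_subset_left.trans subset_union_left
  have hu : u ∈ chg S τ := by rw [h]; exact mem_singleton_self _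
  refine ⟨?_, (mem_sdiff.1 hu).2⟩
  ext c
  rw [mem_insert]
  constructor
  · intro hc
    by_cases hs : c ∈ small S τ
    · exact Or.inr hs
    · left
      have : c ∈ chg S τ := mem_sdiff.2 ⟨hc, hs⟩
      rw [h] at this
      exact mem_singleton.1 this
  · rintro (rfl | hc)
    · exact (mem_sdiff.1 hu).1
    · exact hsub hc

theorem card_e2_le_inst_one (τ : ℕ) (h : (chg S τ).card = 1) :
    (e2 K S τ).card ≤ (inst K S τ).card := by
  obtain ⟨u, hu⟩ := card_eq_one.1 h
  obtain ⟨hbig, hus⟩ := UCnt_big hu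
  refine card_le_card fun p hp => ?_
  rw [e2, mem_filter] at hp
  obtain ⟨-, ⟨h1, h2, h3, h4⟩, h5⟩ := hp
  have hb1 : p.1 ∈ big S τ := by rw [hbig]; exact mem_insert_of_mem h1
  have hb2 : p.2 ∈ big S τ := by rw [hbig]; exact mem_insert_of_mem h2
  have h6 : K ≤ Pool.Agent.H20.BK.btw (big S τ) p.1 p.2 := by
    by_contra hc
    exact h5 ⟨hb1, hb2, h3, not_le.1 hc⟩
  have h7 : p.1 < u ∧ u < p.2 := by
    by_contra hc
    have : Pool.Agent.H20.BK.btw (big S τ) p.1 p.2 = Pool.Agent.H20.BK.btw (small S τ) p.1 p.2 := by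
      unfold Pool.Agent.H20.BK.btw
      rw [hbig, filter_insert, if_neg hc]
    omega
  have h8 : Pool.Agent.H20.BK.btw (big S τ) p.1 p.2 =
      Pool.Agent.H20.BK.btw (small S τ) p.1 p.2 + 1 := by
    unfold Pool.Agent.H20.BK.btw
    rw [hbig, filter_insert, if_pos h7, card_insert_of_notMem]
    exact fun h => hus (mem_filter.1 h).1
  have hub : u ∈ big S τ := by rw [hbig]; exact mem_insert_self _ _
  -- strictly fewer elements between `p.1` and `u`, between `u` and `p.2`
  have h9 : Pool.Agent.H20.BK.btw (big S τ) p.1 u < Pool.Agent.H20.BK.btw (big S τ) p.1 p.2 := by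
    refine card_lt_card ((ssubset_iff_of_subset ?_).2 ⟨u, ?_, ?_⟩)
    · intro c hc
      rw [mem_filter] at hc ⊢
      exact ⟨hc.1, hc.2.1, hc.2.2.trans h7.2⟩
    · exact mem_filter.2 ⟨hub, h7.1, h7.2⟩
    · intro hc
      exact lt_irrefl u (mem_filter.1 hc).2.2
  have h10 : Pool.Agent.H20.BK.btw (big S τ) u p.2 < Pool.Agent.H20.BK.btw (big S τ) p.1 p.2 := by
    refine card_lt_card ((ssubset_iff_of_subset ?_).2 ⟨u, ?_, ?_⟩)
    · intro c hc
      rw [mem_filter] at hc ⊢
      exact ⟨hc.1, h7.1.trans hc.2.1, hc.2.2⟩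
    · exact mem_filter.2 ⟨hub, h7.1, h7.2⟩
    · intro hc
      exact lt_irrefl u (mem_filter.1 hc).2.1
  rw [inst, mem_filter]
  refine ⟨mem_univ _, h1, h2, ?_, ?_, h6, ?_⟩
  · intro w hw
    rw [hu, mem_singleton] at hw
    rw [hw]
    exact h7
  · intro w hw
    rw [hu, mem_singleton] at hw
    rw [hw]
    exact ⟨by omega, by omega⟩
  · rw [h]
    omega

private theorem UCnt_e1 {τ : ℕ} (h : (chg S τ).card = 1) (hs : small S τ = ∅) :
    (e1 K S τ).card = 0 := by
  obtain ⟨u, hu⟩ := card_eq_one.1 h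
  obtain ⟨hbig, -⟩ := UCnt_big hu
  rw [hs] at hbig
  rw [card_eq_zero, eq_empty_iff_forall_notMem]
  intro p hp
  rw [e1, mem_filter] at hp
  obtain ⟨-, ⟨h1, h2, h3, -⟩, -⟩ := hp
  rw [hbig] at h1 h2
  have e1 : p.1 = u := by simpa using h1
  have e2 : p.2 = u := by simpa using h2
  rw [e1, e2] at h3
  exact lt_irrefl _ h3

theorem count_one [Nonempty V] (hS : IsSeq S T) (h1 : ∀ τ, τ < T → (chg S τ).card = 1) :
    Fintype.card (Dt K T S) + 2 * K ≤
      2 * Fintype.card (Idx K T S (univ : Finset (Fin T))) + 2 * K * Fintype.card V := by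
  classical
  have hι : Fintype.card (Idx K T S (univ : Finset (Fin T))) =
      ∑ τ ∈ range T, (inst K S τ).card := by
    rw [Fintype.card_sigma]
    simp only [Fintype.card_coe]
    rw [Finset.sum_coe_sort (univ : Finset (Fin T)) (fun τ : Fin T => (inst K S τ).card)]
    exact Fin.sum_univ_eq_sum_range (fun τ => (inst K S τ).card) T
  have hTV : T = 2 * Fintype.card V := by
    rw [← sum_card_chg hS, Finset.sum_congr rfl (fun τ hτ => h1 τ (mem_range.1 hτ))]
    simp
  have hV : 1 ≤ Fintype.card V := Fintype.card_pos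
  have he2 : ∑ τ ∈ range T, (e2 K S τ).card ≤ ∑ τ ∈ range T, (inst K S τ).card :=
    sum_le_sum fun τ hτ => card_e2_le_inst_one τ (h1 τ (mem_range.1 hτ))
  have hs0 : small S 0 = ∅ := by
    unfold small
    rw [hS.zero, empty_inter]
  have hsT : small S (T - 1) = ∅ := by
    unfold small
    rw [Nat.sub_add_cancel (by omega), hS.last, inter_empty]
  have he1 : ∑ τ ∈ range T, (e1 K S τ).card + 2 * K ≤
      ∑ τ ∈ range T, (e2 K S τ).card + K * T := by
    have h2 : ({0, T - 1} : Finset ℕ) ⊆ range T := by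
      intro τ hτ
      rw [mem_insert, mem_singleton] at hτ
      rw [mem_range]
      omega
    have h3 := sum_sdiff (f := fun τ => (e1 K S τ).card) h2
    have h4 : ∑ τ ∈ ({0, T - 1} : Finset ℕ), (e1 K S τ).card = 0 := by
      rw [sum_pair (by omega), UCnt_e1 (h1 0 (by omega)) hs0,
        UCnt_e1 (h1 (T - 1) (by omega)) hsT]
    have h5 : ∑ τ ∈ range T \ {0, T - 1}, (e1 K S τ).card ≤
        ∑ τ ∈ range T \ {0, T - 1}, ((e2 K S τ).card + K) := by
      refine sum_le_sum fun τ hτ => ?_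
      have h6 := card_e1_le K S τ
      rw [h1 τ (mem_range.1 (mem_sdiff.1 hτ).1)] at h6
      omega
    rw [sum_add_distrib, sum_const, smul_eq_mul, card_sdiff_of_subset h2, card_range,
      card_pair (by omega)] at h5
    have h7 : ∑ τ ∈ range T \ {0, T - 1}, (e2 K S τ).card ≤ ∑ τ ∈ range T, (e2 K S τ).card :=
      sum_le_sum_of_subset sdiff_subset
    have h8 : (T - 2) * K + 2 * K = K * T := by
      rw [← add_mul, Nat.sub_add_cancel (by omega), mul_comm]
    omega
  have hD : Fintype.card (Dt K T S) =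
      ∑ τ ∈ range T, (e1 K S τ).card + ∑ τ ∈ range T, (e2 K S τ).card := by
    rw [card_Dt hS K, sum_add_distrib]
  have h9 : K * T = 2 * K * Fintype.card V := by
    rw [hTV]; ring
  rw [hι, hD]
  omega

end Pool.Agent.H36.FK
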