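import Mathlib
import Pool.Agent.H36.FK.UDefs

set_option autoImplicit false

/-!
Project FK, module UArc. The arcs at a vertex.

Proof sketch. `p = (α (tri (x, j)), tri (x, j + 1))`, so `α p.1 = tri (x, j)`, and all darts of the
triangle `x` have the step `x.1.1`. By `isStart_tri`: in an insertion step the darts `j = 0, 1` are
starts and `j = 2` is an end; in a deletion step `j = 0, 1` are ends and `j = 2` is a start. If `p.1`
is a start and `p.2` an end then `tri (x, j)`, `tri (x, j + 1)` are ends: a deletion step, `j = 0`, the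
darts are `(a, u)`, `(u, b)` and `src p.1 = src p.2 = u` is deleted (`third_mem`). If `p.1` is an end
and `p.2` a start: an insertion step, `j = 0`, `src p.1 = u` is inserted.
-/

namespace Pool.Agent.H36.FK

open Pool.Agent.H20.BK Finset

variable {V : Type*} [LinearOrder V] [Fintype V] {K T : ℕ} {S : ℕ → Finset V}

theorem arc_step (hS : IsSeq S T) {α : Equiv.Perm (Dt K T S)} (hα : IsAlpha α)
    (good : Finset (Fin T)) (π : Perms T S) {p : Dt K T S × Dt K T S}
    (hp : p ∈ arcs hS α good π) :
    p.2.τ = (α p.1).τ ∧
      (IsStart p.1 → ¬ IsStart p.2 → src p.1 ∉ S ((p.2.τ : ℕ) + 1)) ∧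
      (¬ IsStart p.1 → IsStart p.2 → src p.1 ∉ S (p.2.τ : ℕ)) := by
  simp only [arcs, mem_image, mem_univ, true_and] at hp
  obtain ⟨⟨x, j⟩, rfl⟩ := hp
  have hs := src_tri hS hα π x j
  have s0 := isStart_tri hS π x j
  have s1 := isStart_tri hS π x (j + 1)
  have hu := third_mem π x
  have hus : third π x ∉ small S x.1.1 := (mem_sdiff.1 hu).2
  have hst := hα.start (tri hS π (x, j))
  refine ⟨by rw [hα.invol]; rfl, ?_, ?_⟩
  · intro h1 h2
    change IsStart (α (tri hS π (x, j))) at h1
    change ¬ IsStart (tri hS π (x, j + 1)) at h2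
    change src (α (tri hS π (x, j))) ∉ S ((x.1.1 : ℕ) + 1)
    rw [hst] at h1
    rw [← hs]
    by_cases hI : S x.1.1 ⊆ S (x.1.1 + 1)
    · exfalso
      rw [s0] at h1
      rw [s1] at h2
      match j with
      | 0 => simp [hI] at h1
      | 1 => simp [hI] at h1
      | 2 => simp [hI] at h2
    · have hD : S (x.1.1 + 1) ⊆ S x.1.1 := (hS.mono _ x.1.1.2).resolve_left hI
      have hj : j = 0 := by
        rw [s0] at h1
        rw [s1] at h2
        match j with
        | 0 => rfl
        | 1 => simp [hI] at h2
        | 2 => simp [hI] at h1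
      subst hj
      rw [src, if_neg h2]
      have e : (tri hS π (x, 0 + 1)).a = third π x := by simp [tri, triPair, hI]
      rw [e, ← (big_small_of_superset hD).2]
      exact hus
  · intro h1 h2
    change ¬ IsStart (α (tri hS π (x, j))) at h1
    change IsStart (tri hS π (x, j + 1)) at h2
    change src (α (tri hS π (x, j))) ∉ S (x.1.1 : ℕ)
    rw [hst, not_not] at h1
    rw [← hs]
    by_cases hI : S x.1.1 ⊆ S (x.1.1 + 1)
    · have hj : j = 0 := by
        rw [s0] at h1
        rw [s1] at h2
        match j with
        | 0 => rfl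
        | 1 => simp [hI] at h2
        | 2 => simp [hI] at h1
      subst hj
      rw [src, if_pos h2]
      have e : (tri hS π (x, 0 + 1)).b = third π x := by simp [tri, triPair, hI]
      rw [e, ← (big_small_of_subset hI).2]
      exact hus
    · exfalso
      rw [s0] at h1
      rw [s1] at h2
      match j with
      | 0 => simp [hI] at h1
      | 1 => simp [hI] at h1
      | 2 => simp [hI] at h2

end Pool.Agent.H36.FK
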