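import Mathlib
import Pool.Agent.H20.BK.CycDefs

set_option autoImplicit false

/-!
Project FK, module UPot. Number of cycles and a potential.

Proof sketch. `cyc Z = ncls Z + |Z| - |D|` for a finite set of arcs `Z`. (1) Inserting an arc
increases `cyc` by at most one (`ncls` does not increase, `|Z|` increases by one). (2) If
`φ p.1 < φ p.2` for all `p ∈ Z` and `Z` is a partial injection then `cyc Z ≤ 0`: every class has
exactly one point that is not a source of an arc (induct on `|Z|`: remove an arc `p` with `φ p.2`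
maximal among the arcs of `Z`; then `p.2` is not the source of an arc of `Z`, and only `p` has the
target `p.2`, so `p.2` is isolated in `Z \ {p}` and `ncls (Z \ {p}) = ncls Z + 1`); alternatively:
the map from the points that are not sources to the classes is surjective, follow the arcs).
Apply (2) to `Z = {p ∈ Y | p.1 ∉ A}` and (1) to the other arcs.
-/

namespace Pool.Agent.H36.FK

open Pool.Agent.H20.BK Finset

theorem UPot_ncls_anti {D : Type*} [Finite D] {Z Y : Finset (D × D)} (h : Z ⊆ Y) :
    ncls Y ≤ ncls Z := by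
  unfold ncls
  refine Nat.card_le_card_of_surjective
    (Quot.map id (fun a b hab => h hab) :
      (Quot fun a b : D => (a, b) ∈ Z) → (Quot fun a b : D => (a, b) ∈ Y)) ?_
  intro q
  obtain ⟨a, rfl⟩ := Quot.exists_rep q
  exact ⟨Quot.mk _ a, rfl⟩

theorem UPot_ncls_le {D : Type*} [Fintype D] [DecidableEq D] (Z : Finset (D × D)) (hZ : PInj Z)
    (φ : D → ℤ) (h : ∀ p ∈ Z, φ p.1 < φ p.2) :
    ncls Z + Z.card ≤ Fintype.card D := by
  classical
  have hcard : (Z.image Prod.fst).card = Z.card := by
    refine card_image_of_injOn ?_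
    intro p hp q hq hpq
    exact Prod.ext hpq ((hZ p hp q hq).1 hpq)
  have h1 : ncls Z ≤ ((Z.image Prod.fst)ᶜ : Finset D).card := by
    unfold ncls
    have e : ((Z.image Prod.fst)ᶜ : Finset D).card =
        Nat.card {d : D // d ∈ ((Z.image Prod.fst)ᶜ : Finset D)} := by
      rw [Nat.card_eq_fintype_card, Fintype.card_coe]
    rw [e]
    refine Nat.card_le_card_of_surjective (fun d => Quot.mk _ d.1) ?_
    intro q
    obtain ⟨a, ha⟩ := Quot.exists_rep q
    obtain ⟨m, hm, hmax⟩ := exists_max_image
      ((univ : Finset D).filter fun d => (Quot.mk (fun a b : D => (a, b) ∈ Z) d) = q) φ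
      ⟨a, mem_filter.2 ⟨mem_univ _, ha⟩⟩
    have hm' := (mem_filter.1 hm).2
    refine ⟨⟨m, ?_⟩, hm'⟩
    rw [mem_compl, mem_image]
    rintro ⟨p, hp, hpm⟩
    have h2 := h p hp
    have h3 : Quot.mk (fun a b : D => (a, b) ∈ Z) p.2 = q := by
      rw [← hm', ← hpm]
      exact (Quot.sound (show (p.1, p.2) ∈ Z from hp)).symm
    have h4 := hmax p.2 (mem_filter.2 ⟨mem_univ _, h3⟩)
    rw [← hpm] at h4
    omega
  rw [card_compl, hcard] at h1
  have h5 : Z.card ≤ Fintype.card D := by
    rw [← hcard]
    exact card_le_univ _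
  omega

theorem cyc_le_of_pot {D : Type*} [Fintype D] [DecidableEq D] (Y : Finset (D × D)) (hY : PInj Y)
    (φ : D → ℤ) (A : Finset D) (h : ∀ p ∈ Y, p.1 ∉ A → φ p.1 < φ p.2) :
    cyc Y ≤ ((Y.filter fun p => p.1 ∈ A).card : ℤ) := by
  have h1 := UPot_ncls_le (Y.filter fun p => p.1 ∉ A)
    (fun p hp q hq => hY p (mem_filter.1 hp).1 q (mem_filter.1 hq).1) φ
    (fun p hp => h p (mem_filter.1 hp).1 (mem_filter.1 hp).2)
  have h2 := UPot_ncls_anti (filter_subset (fun p : D × D => p.1 ∉ A) Y)
  have h3 : (Y.filter fun p => p.1 ∈ A).card + (Y.filter fun p => p.1 ∉ A).card = Y.card := by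
    have := card_filter_add_card_filter_not (s := Y) (fun p => p.1 ∈ A)
    exact this
  unfold cyc
  rw [Nat.card_eq_fintype_card]
  omega

end Pool.Agent.H36.FK
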