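import Mathlib
import Pool.Agent.H20.BK.Count
import Pool.Agent.H36.FK.UArc
import Pool.Agent.H36.FK.UPot

set_option autoImplicit false

/-!
Project FK, module UCut. At most `K` closed cycles at a vertex, at most `K - 1` if some dart is free.

Proof sketch. Let `d₀` be a dart with source `v`; put `σ₀ = (start step of its strip) + 1`, i.e.
`d₀.τ + 1` if `d₀` is a start and `(α d₀).τ + 1` otherwise: in the state `σ₀` the pair of `d₀` is near,
so `v ∈ S σ₀`. Darts with source `v`: up strips (starts, `d.b = v`) and down strips (ends,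
`d.a = v`). An arc `(d, d')` at `v` has `d'.τ = (α d).τ` (`arc_step`), hence
up → up: `d'.τ > d.τ`; down → down: `d'.τ < d.τ`; up → down only at the deletion step of `v`, which is
`≥ σ₀`; down → up only at the insertion step of `v`, which is `< σ₀` (`IsSeq.conv`).

Case A, `d₀` is a down strip. `A = {d | src d = v, ¬ IsStart d, (α d).τ < σ₀ ≤ d.τ}`, `M = T + 1`,
`φ d = M - d.τ` for down strips with `d.τ < σ₀`, `φ d = 2 M + d.τ` for up strips,
`φ d = 5 M - d.τ` for down strips with `d.τ ≥ σ₀`.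
Case B, `d₀` is an up strip. `A = {d | src d = v, IsStart d, d.τ < σ₀ ≤ (α d).τ}`,
`φ d = d.τ` for up strips with `d.τ ≥ σ₀`, `φ d = 3 M - d.τ` for down strips, `φ d = 4 M + d.τ` for
up strips with `d.τ < σ₀`.
In both cases `φ` increases along all arcs at `v` whose source is not in `A`, `|A| ≤ K` (the other
elements of the pairs are at most `K` elements of `S σ₀` near to `v` on one side, and a
pair has only one strip alive at `σ₀`), so `cyc ≤ |{p | p.1 ∈ A}| ≤ |A| ≤ K` (`cyc_le_of_pot`), and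
`≤ |A| - 1` if `d₀ ∈ A` is not the source of an arc. If no dart has the source `v` then there are no
arcs at `v` and `cyc ≤ 0`.
-/

namespace Pool.Agent.H36.FK

open Pool.Agent.H20.BK Finset

variable {V : Type*} [LinearOrder V] [Fintype V] {K T : ℕ} {S : ℕ → Finset V}

private theorem UCut_src {d : Dt K T S} {v : V} (h : src d = v) :
    (IsStart d → d.b = v) ∧ (¬ IsStart d → d.a = v) := by
  unfold src at h
  constructor
  · intro hd
    rwa [if_pos hd] at h
  · intro hd
    rwa [if_neg hd] at h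

/-- An end is near in the state before its step. -/
private theorem UCut_end_near {d : Dt K T S} (hd : ¬ IsStart d) : Near K (S d.τ) d.a d.b := by
  by_contra h
  exact d.ch ⟨fun e => absurd e h, fun e => absurd e hd⟩

/-- A start is not near in the state before its step. -/
private theorem UCut_start_not {d : Dt K T S} (hd : IsStart d) : ¬ Near K (S d.τ) d.a d.b := by
  intro h
  exact d.ch ⟨fun _ => hd, fun _ => h⟩

/-- Down strips at `v` alive in the state `σ₀`. -/
theorem card_down (hS : IsSeq S T) {α : Equiv.Perm (Dt K T S)} (hα : NatAlpha α) (v : V)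
    (σ₀ : ℕ) :
    (univ.filter fun d : Dt K T S => src d = v ∧ ¬ IsStart d ∧ ((α d).τ : ℕ) < σ₀ ∧
      σ₀ ≤ (d.τ : ℕ)).card ≤ K := by
  have hnear : ∀ d : Dt K T S, ¬ IsStart d → ∀ σ : ℕ, ((α d).τ : ℕ) < σ → σ ≤ (d.τ : ℕ) →
      Near K (S σ) d.a d.b := by
    intro d hd σ h1 h2
    have h3 := hα.near (α d) ((hα.isAlpha.start d).2 hd) σ h1
    rw [hα.isAlpha.invol, hα.isAlpha.pair_a, hα.isAlpha.pair_b] at h3
    exact h3 h2
  have key : ∀ d : Dt K T S, src d = v → ¬ IsStart d → ((α d).τ : ℕ) < σ₀ → σ₀ ≤ (d.τ : ℕ) →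
      Near K (S σ₀) v d.b := by
    intro d hd hd1 h1 h2
    have h3 := hnear d hd1 σ₀ h1 h2
    rwa [(UCut_src hd).2 hd1] at h3
  have h := card_le_card_of_injOn (s := univ.filter fun d : Dt K T S => src d = v ∧ ¬ IsStart d ∧
      ((α d).τ : ℕ) < σ₀ ∧ σ₀ ≤ (d.τ : ℕ)) (t := range K) (fun d => btw (S σ₀) v d.b)
    (by
      intro d hd
      have hd' := (mem_filter.1 hd).2
      have h3 := key d hd'.1 hd'.2.1 hd'.2.2.1 hd'.2.2.2
      simpa using h3.2.2.2)
    (by
      intro d hd d' hd' he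
      obtain ⟨h1, h2, h3, h4⟩ := (mem_filter.1 hd).2
      obtain ⟨h1', h2', h3', h4'⟩ := (mem_filter.1 hd').2
      have n1 := key d h1 h2 h3 h4
      have n2 := key d' h1' h2' h3' h4'
      simp only at he
      have hb : d.b = d'.b := by
        rcases lt_trichotomy d.b d'.b with hlt | heq | hlt
        · exact absurd he (TriProps_btw_right n1.2.1 n1.2.2.1 hlt).ne
        · exact heq
        · exact absurd he.symm (TriProps_btw_right n2.2.1 n2.2.2.1 hlt).ne
      have ha : d.a = d'.a := by rw [(UCut_src h1).2 h2, (UCut_src h1').2 h2']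
      have hτ : (d.τ : ℕ) = (d'.τ : ℕ) := by
        rcases lt_trichotomy (d.τ : ℕ) (d'.τ : ℕ) with hlt | heq | hlt
        · exfalso
          apply h2
          have h5 := hnear d' h2' (d.τ + 1) (by omega) (by omega)
          rw [← ha, ← hb] at h5
          exact h5
        · exact heq
        · exfalso
          apply h2'
          have h5 := hnear d h2 (d'.τ + 1) (by omega) (by omega)
          rw [ha, hb] at h5
          exact h5
      exact Dt.ext (Fin.ext hτ) ha hb)
  simpa using h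

/-- Up strips at `v` alive in the state `σ₀`. -/
theorem card_up (hS : IsSeq S T) {α : Equiv.Perm (Dt K T S)} (hα : NatAlpha α) (v : V)
    (σ₀ : ℕ) :
    (univ.filter fun d : Dt K T S => src d = v ∧ IsStart d ∧ (d.τ : ℕ) < σ₀ ∧
      σ₀ ≤ ((α d).τ : ℕ)).card ≤ K := by
  have key : ∀ d : Dt K T S, src d = v → IsStart d → (d.τ : ℕ) < σ₀ → σ₀ ≤ ((α d).τ : ℕ) →
      Near K (S σ₀) d.a v := by
    intro d hd hd1 h1 h2
    have h3 := hα.near d hd1 σ₀ h1 h2
    rwa [(UCut_src hd).1 hd1] at h3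
  have h := card_le_card_of_injOn (s := univ.filter fun d : Dt K T S => src d = v ∧ IsStart d ∧
      (d.τ : ℕ) < σ₀ ∧ σ₀ ≤ ((α d).τ : ℕ)) (t := range K) (fun d => btw (S σ₀) d.a v)
    (by
      intro d hd
      have hd' := (mem_filter.1 hd).2
      have h3 := key d hd'.1 hd'.2.1 hd'.2.2.1 hd'.2.2.2
      simpa using h3.2.2.2)
    (by
      intro d hd d' hd' he
      obtain ⟨h1, h2, h3, h4⟩ := (mem_filter.1 hd).2
      obtain ⟨h1', h2', h3', h4'⟩ := (mem_filter.1 hd').2
      have n1 := key d h1 h2 h3 h4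
      have n2 := key d' h1' h2' h3' h4'
      simp only at he
      have ha : d.a = d'.a := by
        rcases lt_trichotomy d.a d'.a with hlt | heq | hlt
        · exact absurd he.symm (TriProps_btw_left n2.1 n2.2.2.1 hlt).ne
        · exact heq
        · exact absurd he (TriProps_btw_left n1.1 n1.2.2.1 hlt).ne
      have hb : d.b = d'.b := by rw [(UCut_src h1).1 h2, (UCut_src h1').1 h2']
      have hτ : (d.τ : ℕ) = (d'.τ : ℕ) := by
        rcases lt_trichotomy (d.τ : ℕ) (d'.τ : ℕ) with hlt | heq | hlt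
        · exfalso
          apply UCut_start_not h2'
          have h5 := hα.near d h2 d'.τ (by omega) (by omega)
          rw [ha, hb] at h5
          exact h5
        · exact heq
        · exfalso
          apply UCut_start_not h2
          have h5 := hα.near d' h2' d.τ (by omega) (by omega)
          rw [← ha, ← hb] at h5
          exact h5
      exact Dt.ext (Fin.ext hτ) ha hb)
  simpa using h

/-- The set of cut strips of a dart. -/
private theorem UCut_core (hS : IsSeq S T) {α : Equiv.Perm (Dt K T S)} (hα : NatAlpha α)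
    (good : Finset (Fin T)) (π : Perms T S) (v : V) (d₀ : Dt K T S) (hd₀ : src d₀ = v) :
    ∃ A : Finset (Dt K T S), d₀ ∈ A ∧ A.card ≤ K ∧
      cyc (arcsAt hS α good π v) ≤
        (((arcsAt hS α good π v).filter fun p => p.1 ∈ A).card : ℤ) := by
  have hP : PInj (arcsAt hS α good π v) := fun p hp q hq =>
    pinj_arcs hS hα.isAlpha good π p (mem_filter.1 hp).1 q (mem_filter.1 hq).1
  have hτT : ∀ d : Dt K T S, (d.τ : ℕ) < T := fun d => d.τ.2
  have hlt : ∀ d : Dt K T S, ¬ IsStart d → ((α d).τ : ℕ) < (d.τ : ℕ) := by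
    intro d hd
    have h := hα.lt (α d) ((hα.isAlpha.start d).2 hd)
    rwa [hα.isAlpha.invol] at h
  -- the insertion and the deletion step of `v`
  have hdel : ∀ σ₀, σ₀ ≤ T → v ∈ S σ₀ → ∀ d : Dt K T S, src d = v → ¬ IsStart d →
      v ∉ S ((d.τ : ℕ) + 1) → σ₀ ≤ (d.τ : ℕ) := by
    intro σ₀ h0 h1 d hd hd1 h2
    by_contra hc
    have h3 := UCut_end_near hd1
    rw [(UCut_src hd).2 hd1] at h3
    exact h2 (hS.conv v d.τ (d.τ + 1) σ₀ (by omega) (by omega) h0 h3.1 h1)
  have hins : ∀ σ₀, σ₀ ≤ T → v ∈ S σ₀ → ∀ d : Dt K T S, src d = v → IsStart d →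
      v ∉ S (d.τ : ℕ) → (d.τ : ℕ) < σ₀ := by
    intro σ₀ h0 h1 d hd hd1 h2
    by_contra hc
    have h3 : Near K (S (d.τ + 1)) d.a d.b := hd1
    rw [(UCut_src hd).1 hd1] at h3
    have h4 := hτT d
    exact h2 (hS.conv v σ₀ d.τ (d.τ + 1) (by omega) (by omega) (by omega) h1 h3.2.1)
  by_cases hst : IsStart d₀
  · -- up strip
    have hd1 := hα.lt d₀ hst
    have hT0 := hτT d₀
    have hv : v ∈ S (d₀.τ + 1) := by
      have h3 : Near K (S (d₀.τ + 1)) d₀.a d₀.b := hst
      rw [(UCut_src hd₀).1 hst] at h3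
      exact h3.2.1
    obtain ⟨σ₀, hσ₀⟩ : ∃ σ₀ : ℕ, σ₀ = d₀.τ + 1 := ⟨_, rfl⟩
    rw [← hσ₀] at hv
    have hσT : σ₀ ≤ T := by omega
    refine ⟨univ.filter fun d : Dt K T S => src d = v ∧ IsStart d ∧ (d.τ : ℕ) < σ₀ ∧
      σ₀ ≤ ((α d).τ : ℕ), ?_, card_up hS hα v σ₀, ?_⟩
    · rw [mem_filter]
      exact ⟨mem_univ _, hd₀, hst, by omega, by omega⟩
    · refine cyc_le_of_pot _ hP (fun d => if IsStart d then
        (if σ₀ ≤ (d.τ : ℕ) then ((d.τ : ℕ) : ℤ) else 4 * ((T : ℤ) + 1) + ((d.τ : ℕ) : ℤ)) else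
        3 * ((T : ℤ) + 1) - ((d.τ : ℕ) : ℤ)) _ ?_
      intro p hp hpA
      obtain ⟨hp1, hp2⟩ := mem_filter.1 hp
      obtain ⟨s1, s2, s3⟩ := arc_step hS hα.isAlpha good π hp1
      have hsrc2 : src p.2 = v := by
        rw [← src_arcs hS hα.isAlpha good π p hp1, hp2]
      have hA : ¬ (IsStart p.1 ∧ (p.1.τ : ℕ) < σ₀ ∧ σ₀ ≤ ((α p.1).τ : ℕ)) := by
        intro h
        exact hpA (mem_filter.2 ⟨mem_univ _, hp2, h⟩)
      rw [hp2] at s2 s3
      have e : (p.2.τ : ℕ) = ((α p.1).τ : ℕ) := by rw [s1]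
      have b1 := hτT p.1
      have b2 := hτT p.2
      by_cases h1 : IsStart p.1
      · have l1 := hα.lt p.1 h1
        have hA' : ¬ ((p.1.τ : ℕ) < σ₀ ∧ σ₀ ≤ ((α p.1).τ : ℕ)) := fun h => hA ⟨h1, h⟩
        by_cases h2 : IsStart p.2
        · simp only [h1, h2, if_true]
          split_ifs <;> omega
        · have h3 := hdel σ₀ hσT hv p.2 hsrc2 h2 (s2 h1 h2)
          simp only [h1, h2, if_true, if_false]
          split_ifs <;> omega
      · have l1 := hlt p.1 h1
        by_cases h2 : IsStart p.2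
        · have h3 := hins σ₀ hσT hv p.2 hsrc2 h2 (s3 h1 h2)
          simp only [h1, h2, if_true, if_false]
          split_ifs <;> omega
        · simp only [h1, h2, if_false]
          omega
  · -- down strip
    have hd1 := hlt d₀ hst
    have hT0 := hτT d₀
    have hv : v ∈ S ((α d₀).τ + 1) := by
      have h3 := hα.near (α d₀) ((hα.isAlpha.start d₀).2 hst) ((α d₀).τ + 1) (by omega)
        (by rw [hα.isAlpha.invol]; omega)
      rw [hα.isAlpha.pair_a, hα.isAlpha.pair_b, (UCut_src hd₀).2 hst] at h3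
      exact h3.1
    obtain ⟨σ₀, hσ₀⟩ : ∃ σ₀ : ℕ, σ₀ = (α d₀).τ + 1 := ⟨_, rfl⟩
    rw [← hσ₀] at hv
    have hσT : σ₀ ≤ T := by omega
    refine ⟨univ.filter fun d : Dt K T S => src d = v ∧ ¬ IsStart d ∧ ((α d).τ : ℕ) < σ₀ ∧
      σ₀ ≤ (d.τ : ℕ), ?_, card_down hS hα v σ₀, ?_⟩
    · rw [mem_filter]
      exact ⟨mem_univ _, hd₀, hst, by omega, by omega⟩
    · refine cyc_le_of_pot _ hP (fun d => if IsStart d then
        2 * ((T : ℤ) + 1) + ((d.τ : ℕ) : ℤ) else
        (if σ₀ ≤ (d.τ : ℕ) then 5 * ((T : ℤ) + 1) - ((d.τ : ℕ) : ℤ) else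
          ((T : ℤ) + 1) - ((d.τ : ℕ) : ℤ))) _ ?_
      intro p hp hpA
      obtain ⟨hp1, hp2⟩ := mem_filter.1 hp
      obtain ⟨s1, s2, s3⟩ := arc_step hS hα.isAlpha good π hp1
      have hsrc2 : src p.2 = v := by
        rw [← src_arcs hS hα.isAlpha good π p hp1, hp2]
      have hA : ¬ (¬ IsStart p.1 ∧ ((α p.1).τ : ℕ) < σ₀ ∧ σ₀ ≤ (p.1.τ : ℕ)) := by
        intro h
        exact hpA (mem_filter.2 ⟨mem_univ _, hp2, h⟩)
      rw [hp2] at s2 s3
      have e : (p.2.τ : ℕ) = ((α p.1).τ : ℕ) := by rw [s1]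
      have b1 := hτT p.1
      have b2 := hτT p.2
      by_cases h1 : IsStart p.1
      · have l1 := hα.lt p.1 h1
        by_cases h2 : IsStart p.2
        · simp only [h1, h2, if_true]
          omega
        · have h3 := hdel σ₀ hσT hv p.2 hsrc2 h2 (s2 h1 h2)
          simp only [h1, h2, if_true, if_false]
          split_ifs <;> omega
      · have l1 := hlt p.1 h1
        have hA' : ¬ (((α p.1).τ : ℕ) < σ₀ ∧ σ₀ ≤ (p.1.τ : ℕ)) := fun h => hA ⟨h1, h⟩
        by_cases h2 : IsStart p.2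
        · have h3 := hins σ₀ hσT hv p.2 hsrc2 h2 (s3 h1 h2)
          simp only [h1, h2, if_true, if_false]
          split_ifs <;> omega
        · simp only [h1, h2, if_false]
          split_ifs <;> omega

theorem cyc_arcsAt (hK : 1 ≤ K) (hS : IsSeq S T) {α : Equiv.Perm (Dt K T S)} (hα : NatAlpha α)
    (good : Finset (Fin T)) (π : Perms T S) (v : V) :
    cyc (arcsAt hS α good π v) ≤ (K : ℤ) - 1 ∨
      (cyc (arcsAt hS α good π v) ≤ (K : ℤ) ∧
        ∀ d, src d = v → ∃ p ∈ arcs hS α good π, p.1 = d) := by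
  have hP : PInj (arcsAt hS α good π v) := fun p hp q hq =>
    pinj_arcs hS hα.isAlpha good π p (mem_filter.1 hp).1 q (mem_filter.1 hq).1
  have hcard : ∀ A : Finset (Dt K T S),
      ((arcsAt hS α good π v).filter fun p => p.1 ∈ A).card ≤ A.card := by
    intro A
    refine card_le_card_of_injOn (fun p => p.1) (fun p hp => (mem_filter.1 hp).2) ?_
    intro p hp q hq h
    have hp' := (mem_filter.1 hp).1
    have hq' := (mem_filter.1 hq).1
    exact Prod.ext h ((hP p hp' q hq').1 h)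
  by_cases hall : ∀ d, src d = v → ∃ p ∈ arcs hS α good π, p.1 = d
  · by_cases hex : ∃ d : Dt K T S, src d = v
    · obtain ⟨d₀, hd₀⟩ := hex
      obtain ⟨A, -, h2, h3⟩ := UCut_core hS hα good π v d₀ hd₀
      have h4 := hcard A
      exact Or.inr ⟨by omega, hall⟩
    · left
      push Not at hex
      have h := cyc_le_of_pot (arcsAt hS α good π v) hP (fun _ => 0) ∅ (by
        intro p hp _
        exact absurd (mem_filter.1 hp).2 (hex p.1))
      simp only [notMem_empty, filter_false, card_empty] at h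
      omega
  · left
    push Not at hall
    obtain ⟨d₀, hd₀, hno⟩ := hall
    obtain ⟨A, h1, h2, h3⟩ := UCut_core hS hα good π v d₀ hd₀
    have h4 := hcard (A.erase d₀)
    have h5 : (arcsAt hS α good π v).filter (fun p => p.1 ∈ A) =
        (arcsAt hS α good π v).filter fun p => p.1 ∈ A.erase d₀ := by
      apply filter_congr
      intro p hp
      rw [mem_erase]
      exact ⟨fun h => ⟨hno p (mem_filter.1 hp).1, h⟩, fun h => h.2⟩
    rw [h5] at h3
    rw [card_erase_of_mem h1] at h4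
    omega

end Pool.Agent.H36.FK
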