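import Mathlib
import Pool.Agent.H20.BK.Embed
import Pool.Agent.H20.BK.Simple
import Pool.Agent.H20.BK.Fiber

set_option autoImplicit false

/-!
Project FK, module URot. A rotation system from a set of arcs, cheaper at closed vertices.

Proof sketch (compare `exists_rot` in `H20/BK/Embed.lean`). `Y` = the set of arcs
`(α (tri x), tri (x.1, x.2 + 1))`, a partial injection preserving `src`. Call `v` open if some dart
with source `v` is not the source of an arc, closed otherwise. Let `Y₁` = arcs at open vertices.
(1) `merge_all`: if `σ` preserves `src` then some `σ'` preserves `src`, is cyclic on every fibre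
and `numOrbits σ - #(image of src) ≤ ...`: every multiplication of `σ` by a transposition of two
darts of the same fibre in different orbits lowers `numOrbits σ` by one (`Embed_numOrbits_merge`) and
`numOrbits (σ * α)` by at most one (`Simple_orbits_swap`; `σ * swap d e * α = σ * α * swap (α d) (α e)`
as `α` is an involution). (2) `Embed_greedy Y₁`, `Embed_fibres` give `τ` keeping all but
`cyc Y₁ = ∑ cyc (Y at open v)` arcs of `Y₁` (`cyc_fiber`), cyclic on the fibres. (3) Let `σ₁ d` be the
target of the arc from `d` if `src d` is closed and `τ d` otherwise: a permutation; all triangles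
whose three arcs are kept are orbits of `σ₁ * α`, so `numOrbits (σ₁ * α) ≥ |ι| - cyc Y₁`. The number of
orbits of `σ₁` in a closed fibre is `cyc (Y at v)`, in an open fibre (nonempty) it is one. (4) Apply
(1) to `σ₁`: the loss is at most `∑_(v closed, fibre nonempty) (cyc (Y at v) - 1) ≤ m #(closed)`.
-/

namespace Pool.Agent.H36.FK

open Pool.Agent.H20.BK Finset

/-- A partial injection inside the fibres of `src` extends to a permutation inside the fibres. -/
private theorem URot_extend {D V : Type*} [Fintype D] [DecidableEq D] (src : D → V)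
    (Y : Finset (D × D)) (hY : PInj Y) (hs : ∀ p ∈ Y, src p.2 = src p.1) :
    ∃ σ : Equiv.Perm D, (∀ p ∈ Y, σ p.1 = p.2) ∧ ∀ d, src (σ d) = src d := by
  induction Y using Finset.induction_on with
  | empty => exact ⟨1, by simp, fun d => rfl⟩
  | insert p Y' hp ih =>
    obtain ⟨b, w⟩ := p
    have hY' : PInj Y' := fun p hp q hq =>
      hY p (Finset.mem_insert_of_mem hp) q (Finset.mem_insert_of_mem hq)
    obtain ⟨σ, h1, h2⟩ := ih hY' (fun p hp => hs p (Finset.mem_insert_of_mem hp))
    set w' : D := σ.symm w with hw'
    have hw1 : σ w' = w := by simp [hw']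
    have hsw : src w' = src b := by
      have h3 := h2 w'
      rw [hw1] at h3
      have h4 := hs (b, w) (Finset.mem_insert_self _ _)
      exact h3.symm.trans h4
    have hnb : ∀ q ∈ Y', q.1 ≠ b := by
      intro q hq hqb
      have h3 := (hY q (Finset.mem_insert_of_mem hq) (b, w) (Finset.mem_insert_self _ _)).1 hqb
      have h4 : q = (b, w) := Prod.ext hqb h3
      exact hp (h4 ▸ hq)
    have hnw : ∀ q ∈ Y', q.1 ≠ w' := by
      intro q hq hqw
      have h0 : q.2 = w := by rw [← h1 q hq, hqw, hw1]
      have h3 := (hY q (Finset.mem_insert_of_mem hq) (b, w) (Finset.mem_insert_self _ _)).2 h0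
      exact hnb q hq h3
    refine ⟨σ * Equiv.swap b w', ?_, ?_⟩
    · intro q hq
      rcases Finset.mem_insert.1 hq with rfl | hq
      · rw [Equiv.Perm.mul_apply]
        change σ ((Equiv.swap b w') b) = w
        rw [Equiv.swap_apply_left, hw1]
      · rw [Equiv.Perm.mul_apply, Equiv.swap_apply_of_ne_of_ne (hnb q hq) (hnw q hq)]
        exact h1 q hq
    · intro x
      rw [Equiv.Perm.mul_apply, h2]
      by_cases hx : x = b
      · rw [hx, Equiv.swap_apply_left, hsw]
      · by_cases hx' : x = w'
        · rw [hx', Equiv.swap_apply_right, hsw]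
        · rw [Equiv.swap_apply_of_ne_of_ne hx hx']

private theorem URot_src_swap {D V : Type*} [DecidableEq D] (src : D → V) (σ : Equiv.Perm D)
    (hs : ∀ d, src (σ d) = src d) {d e : D} (hde : src d = src e) (x : D) :
    src ((σ * Equiv.swap d e) x) = src x := by
  rw [Equiv.Perm.mul_apply, hs]
  by_cases hx : x = d
  · rw [hx, Equiv.swap_apply_left, hde]
  · by_cases hx' : x = e
    · rw [hx', Equiv.swap_apply_right, hde]
    · rw [Equiv.swap_apply_of_ne_of_ne hx hx']

/-- Merging the cycles of a fibre which have a free place. -/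
private theorem URot_free {D V : Type*} [Fintype D] [DecidableEq D] (src : D → V)
    (Y : Finset (D × D)) (σ : Equiv.Perm D) (hs : ∀ d, src (σ d) = src d)
    (ha : ∀ p ∈ Y, σ p.1 = p.2) :
    ∃ τ : Equiv.Perm D, (∀ d, src (τ d) = src d) ∧ (∀ p ∈ Y, τ p.1 = p.2) ∧
      (∀ d e, src d = src e → (∀ w, (d, w) ∉ Y) → (∀ w, (e, w) ∉ Y) → τ.SameCycle d e) := by
  induction hN : numOrbits σ using Nat.strong_induction_on generalizing σ with
  | _ N ih =>
    by_cases hall : ∀ d e, src d = src e → (∀ w, (d, w) ∉ Y) → (∀ w, (e, w) ∉ Y) →
        σ.SameCycle d e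
    · exact ⟨σ, hs, ha, hall⟩
    · push Not at hall
      obtain ⟨d, e, hde, hd, he, hnot⟩ := hall
      have hm := Embed_numOrbits_merge σ d e hnot
      refine ih (numOrbits (σ * Equiv.swap d e)) (by omega) (σ * Equiv.swap d e) ?_ ?_ rfl
      · exact URot_src_swap src σ hs hde
      · intro p hp
        have h1 : p.1 ≠ d := fun h => hd p.2 (by rw [← h]; exact hp)
        have h2 : p.1 ≠ e := fun h => he p.2 (by rw [← h]; exact hp)
        rw [Equiv.Perm.mul_apply, Equiv.swap_apply_of_ne_of_ne h1 h2]
        exact ha p hp

/-- Merging all cycles of the fibres, with a loss of at most one face for every merge. -/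
private theorem URot_merge {D V : Type*} [Fintype D] [DecidableEq D] (src : D → V)
    (α : Equiv.Perm D) (σ : Equiv.Perm D) (hs : ∀ d, src (σ d) = src d) :
    ∃ τ : Equiv.Perm D, (∀ d, src (τ d) = src d) ∧
      (∀ d e, src d = src e → τ.SameCycle d e) ∧
      numOrbits (σ * α) + numOrbits τ ≤ numOrbits (τ * α) + numOrbits σ := by
  induction hN : numOrbits σ using Nat.strong_induction_on generalizing σ with
  | _ N ih =>
    by_cases hall : ∀ d e, src d = src e → σ.SameCycle d e
    · exact ⟨σ, hs, hall, by omega⟩
    · push Not at hall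
      obtain ⟨d, e, hde, hnot⟩ := hall
      have hm := Embed_numOrbits_merge σ d e hnot
      obtain ⟨τ, h1, h2, h3⟩ := ih (numOrbits (σ * Equiv.swap d e)) (by omega)
        (σ * Equiv.swap d e) (URot_src_swap src σ hs hde) rfl
      refine ⟨τ, h1, h2, ?_⟩
      have h4 : σ * Equiv.swap d e * α = σ * α * Equiv.swap (α⁻¹ d) (α⁻¹ e) := by
        rw [mul_assoc, mul_assoc, Equiv.swap_mul_eq_mul_swap]
      have h5 := Simple_orbits_swap (σ * α) (α⁻¹ d) (α⁻¹ e)
      rw [← h4] at h5
      omega

/-- Every nonempty fibre contains a cycle. -/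
private theorem URot_image {D V : Type*} [Fintype D] [DecidableEq D] [DecidableEq V]
    (src : D → V) (τ : Equiv.Perm D) (ht1 : ∀ d, src (τ d) = src d) :
    ((univ : Finset D).image src).card ≤ numOrbits τ := by
  classical
  have hsct : ∀ d e, τ.SameCycle d e → src d = src e := fun d e h =>
    Embed_le_of τ (fun d e => src d = src e) (fun _ => rfl) (fun _ _ h => h.symm)
      (fun _ _ _ h1 h2 => h1.trans h2) (fun x => (ht1 x).symm) d e h
  have : Finite (Quotient (Equiv.Perm.SameCycle.setoid τ)) := Simple_finite_quot τ
  have hex : ∀ v : {v // v ∈ (univ : Finset D).image src}, ∃ d, src d = v.1 := by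
    rintro ⟨v, hv⟩
    obtain ⟨d, -, hd⟩ := Finset.mem_image.1 hv
    exact ⟨d, hd⟩
  choose r hr using hex
  rw [← Fintype.card_coe, ← Nat.card_eq_fintype_card]
  unfold numOrbits
  refine Nat.card_le_card_of_injective (fun v =>
    Quotient.mk (Equiv.Perm.SameCycle.setoid τ) (r v)) ?_
  intro v v' h
  have h1 : τ.SameCycle (r v) (r v') := Quotient.exact h
  have h2 := hsct _ _ h1
  rw [hr, hr] at h2
  exact Subtype.ext h2

/-- Merging all orbits inside the fibres by transpositions. -/
theorem merge_all {D V : Type*} [Fintype D] [DecidableEq D] [Fintype V] [DecidableEq V]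
    (src : D → V) (α : Equiv.Perm D) (hα : ∀ d, α (α d) = d) (σ : Equiv.Perm D)
    (hσ : ∀ d, src (σ d) = src d) :
    ∃ σ' : Equiv.Perm D, (∀ d, src (σ' d) = src d) ∧
      (∀ d e, src d = src e → σ'.SameCycle d e) ∧
      (numOrbits (σ * α) : ℤ) - (numOrbits σ : ℤ) + ((univ.image src).card : ℤ) ≤
        (numOrbits (σ' * α) : ℤ) := by
  obtain ⟨τ, h1, h2, h3⟩ := URot_merge src α σ hσ
  have h4 := URot_image src τ h1
  exact ⟨τ, h1, h2, by omega⟩

theorem exists_rot2 {D V ι : Type*} [Fintype D] [DecidableEq D] [Fintype V] [DecidableEq V]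
    [Fintype ι] (src : D → V) (α : Equiv.Perm D) (hα : ∀ d, α (α d) = d)
    (tri : ι × Fin 3 → D) (hinj : Function.Injective tri)
    (hsrc : ∀ i j, src (tri (i, j + 1)) = src (α (tri (i, j)))) (m : ℕ)
    (Y : Finset (D × D))
    (hYdef : Y = (univ : Finset (ι × Fin 3)).image fun x => (α (tri x), tri (x.1, x.2 + 1)))
    (hcyc : ∀ v, cyc (Y.filter fun p => src p.1 = v) ≤ (m : ℤ) ∨
      (cyc (Y.filter fun p => src p.1 = v) ≤ (m : ℤ) + 1 ∧
        ∀ d, src d = v → ∃ p ∈ Y, p.1 = d)) :
    ∃ σ : Equiv.Perm D, (∀ d, src (σ d) = src d) ∧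
      (∀ d e, src d = src e → σ.SameCycle d e) ∧
      (Fintype.card ι : ℤ) - (m : ℤ) * Fintype.card V ≤ (numOrbits (σ * α) : ℤ) := by
  classical
  set arc : ι × Fin 3 → D × D := fun x => (α (tri x), tri (x.1, x.2 + 1)) with harc
  have hY : Y = (univ : Finset (ι × Fin 3)).image arc := hYdef
  have hmemY : ∀ x, arc x ∈ Y := fun x => by
    rw [hY]; exact Finset.mem_image_of_mem _ (Finset.mem_univ x)
  have hP : PInj Y := by
    intro p hp q hq
    rw [hY] at hp hq
    obtain ⟨x, -, rfl⟩ := Finset.mem_image.1 hp
    obtain ⟨y, -, rfl⟩ := Finset.mem_image.1 hq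
    constructor
    · intro h
      have : x = y := hinj (α.injective h)
      rw [this]
    · intro h
      have h1 : (x.1, x.2 + 1) = (y.1, y.2 + 1) := hinj h
      have h2 := Prod.mk.inj h1
      have h3 : x.2 = y.2 := add_right_cancel h2.2
      have : x = y := Prod.ext h2.1 h3
      rw [this]
  have hsY : ∀ p ∈ Y, src p.2 = src p.1 := by
    intro p hp
    rw [hY] at hp
    obtain ⟨x, -, rfl⟩ := Finset.mem_image.1 hp
    exact hsrc x.1 x.2
  obtain ⟨σ0, ha0, hs0⟩ := URot_extend src Y hP hsY
  obtain ⟨σ, hs, ha, hfree⟩ := URot_free src Y σ0 hs0 ha0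
  obtain ⟨τ, ht1, ht2, ht3⟩ := URot_merge src α σ hs
  refine ⟨τ, ht1, ht2, ?_⟩
  -- all triangles are faces of `σ`
  have hface : Fintype.card ι ≤ numOrbits (σ * α) := by
    have hφ : ∀ i j, (σ * α) (tri (i, j)) = tri (i, j + 1) := by
      intro i j
      exact ha _ (hmemY (i, j))
    have hinv' : ∀ i, ∀ (n : ℕ) (x : D), (∃ j, tri (i, j) = x) →
        ∃ j, tri (i, j) = ((σ * α) ^ n) x := by
      intro i n
      induction n with
      | zero => intro x hx; simpa using hx
      | succ n ih =>
        intro x hx
        rw [pow_succ', Equiv.Perm.mul_apply]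
        obtain ⟨j, hj⟩ := ih x hx
        rw [← hj]
        exact ⟨j + 1, (hφ i j).symm⟩
    rw [← Nat.card_eq_fintype_card]
    unfold numOrbits
    refine Nat.card_le_card_of_injective (fun i : ι =>
      Quotient.mk (Equiv.Perm.SameCycle.setoid (σ * α)) (tri (i, 0))) ?_
    intro i i' h
    have h1 : (σ * α).SameCycle (tri (i, 0)) (tri (i', 0)) := Quotient.exact h
    obtain ⟨n, -, hn⟩ := h1.exists_pow_eq'
    obtain ⟨j, hj⟩ := hinv' i n _ ⟨0, rfl⟩
    rw [hn] at hj
    exact (Prod.mk.inj (hinj hj)).1
  -- the number of cycles of `σ`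
  have hcyc : numOrbits σ ≤ numOrbits τ + m * Fintype.card V := by
    have hsc : ∀ d e, σ.SameCycle d e → src d = src e := fun d e h =>
      Embed_le_of σ (fun d e => src d = src e) (fun _ => rfl) (fun _ _ h => h.symm)
        (fun _ _ _ h1 h2 => h1.trans h2) (fun x => (hs x).symm) d e h
    have : Finite (Quotient (Equiv.Perm.SameCycle.setoid σ)) := Simple_finite_quot σ
    have : Fintype (Quotient (Equiv.Perm.SameCycle.setoid σ)) := Fintype.ofFinite _
    -- the number of cycles of `τ`
    have hτ := URot_image src τ ht1
    -- the fibres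
    have hfib : ∀ v, ((univ : Finset (Quotient (Equiv.Perm.SameCycle.setoid σ))).filter
        fun q => src q.out = v).card ≤ (if v ∈ (univ : Finset D).image src then 1 else 0) + m := by
      intro v
      by_cases hv : v ∈ (univ : Finset D).image src
      · rw [if_pos hv]
        -- the sources of the discarded arcs
        set Yv : Finset (D × D) := Y.filter fun p => src p.1 = v with hYv
        have hPv : PInj Yv := fun p hp q hq =>
          hP p (Finset.mem_filter.1 hp).1 q (Finset.mem_filter.1 hq).1
        obtain ⟨Kv, σv, hKv, hav, hbv, hcv, hdv⟩ := Embed_greedy Yv hPv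
        set P' : Finset D := (Yv \ Kv).image Prod.fst with hP'
        have hP'card : (P'.card : ℤ) ≤ cyc Yv := by
          have h1 : P'.card ≤ (Yv \ Kv).card := Finset.card_image_le
          have h2 := Finset.card_sdiff_add_card_eq_card hKv
          have h3 := Embed_ncls Yv σv hbv
          unfold cyc
          rw [h3, ← hdv]
          push_cast
          omega
        have hchoice : ∀ q : Quotient (Equiv.Perm.SameCycle.setoid σ), src q.out = v →
            (¬ ∃ d, σ.SameCycle q.out d ∧ ∀ w, (d, w) ∉ Y) → ∃ p ∈ P', σ.SameCycle q.out p := by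
          intro q hq hnf
          obtain ⟨e, he1, he2⟩ := hcv q.out
          have h1 : σ.SameCycle q.out e := by
            have h2 := (hbv q.out e).1 he1
            have h3 : ∀ x y, Relation.EqvGen (fun a b : D => (a, b) ∈ Yv) x y →
                σ.SameCycle x y := by
              intro x y h
              induction h with
              | rel x y h =>
                have h4 : σ x = y := ha (x, y) (Finset.mem_filter.1 h).1
                rw [← h4]
                exact Equiv.Perm.sameCycle_apply_right.2 (Equiv.Perm.SameCycle.refl _ _)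
              | refl x => exact Equiv.Perm.SameCycle.refl _ _
              | symm x y _ ih => exact ih.symm
              | trans x y z _ _ ih1 ih2 => exact ih1.trans ih2
            exact h3 _ _ h2
          have h5 : ∃ w, (e, w) ∈ Y := by
            by_contra hno
            push Not at hno
            exact hnf ⟨e, h1, hno⟩
          obtain ⟨w, hw⟩ := h5
          refine ⟨e, ?_, h1⟩
          rw [hP', Finset.mem_image]
          refine ⟨(e, w), Finset.mem_sdiff.2 ⟨?_, he2 w⟩, rfl⟩
          exact Finset.mem_filter.2 ⟨hw, (hsc _ _ h1).symm.trans hq⟩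
        let f : Quotient (Equiv.Perm.SameCycle.setoid σ) → Option D := fun q =>
          if h : src q.out = v ∧ ¬ ∃ d, σ.SameCycle q.out d ∧ ∀ w, (d, w) ∉ Y then
            some (hchoice q h.1 h.2).choose else none
        have hinjf : Set.InjOn f ((univ : Finset (Quotient
            (Equiv.Perm.SameCycle.setoid σ))).filter fun q => src q.out = v : Finset _) := by
          intro q hq q' hq' hqq
          have hq1 : src q.out = v := (Finset.mem_filter.1 hq).2
          have hq1' : src q'.out = v := (Finset.mem_filter.1 hq').2
          simp only [f] at hqq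
          by_cases h1 : ∃ d, σ.SameCycle q.out d ∧ ∀ w, (d, w) ∉ Y
          · by_cases h2 : ∃ d, σ.SameCycle q'.out d ∧ ∀ w, (d, w) ∉ Y
            · obtain ⟨d, hd1, hd2⟩ := h1
              obtain ⟨d', hd1', hd2'⟩ := h2
              have h3 : src d = src d' := by
                rw [← hsc _ _ hd1, ← hsc _ _ hd1', hq1, hq1']
              have h4 := hfree d d' h3 hd2 hd2'
              have h5 : σ.SameCycle q.out q'.out := (hd1.trans h4).trans hd1'.symm
              rw [← Quotient.out_eq q, ← Quotient.out_eq q']
              exact Quotient.sound h5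
            · rw [dif_neg (fun h => h.2 h1), dif_pos ⟨hq1', h2⟩] at hqq
              exact absurd hqq (by simp)
          · by_cases h2 : ∃ d, σ.SameCycle q'.out d ∧ ∀ w, (d, w) ∉ Y
            · rw [dif_pos ⟨hq1, h1⟩, dif_neg (fun h => h.2 h2)] at hqq
              exact absurd hqq (by simp)
            · rw [dif_pos ⟨hq1, h1⟩, dif_pos ⟨hq1', h2⟩] at hqq
              have h3 := Option.some.inj hqq
              have h4 := (hchoice q hq1 h1).choose_spec.2
              have h5 := (hchoice q' hq1' h2).choose_spec.2
              rw [← h3] at h5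
              have h6 : σ.SameCycle q.out q'.out := h4.trans h5.symm
              rw [← Quotient.out_eq q, ← Quotient.out_eq q']
              exact Quotient.sound h6
        by_cases hfr : ∃ d, src d = v ∧ ∀ x, α (tri x) ≠ d
        · have hle : P'.card ≤ m := by
            obtain ⟨d, hd1, hd2⟩ := hfr
            rcases hcyc v with h | ⟨-, h⟩
            · exact_mod_cast hP'card.trans h
            · obtain ⟨p, hp1, hp2⟩ := h d hd1
              rw [hY] at hp1
              obtain ⟨x, -, hx⟩ := Finset.mem_image.1 hp1
              refine absurd ?_ (hd2 x)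
              rw [← hp2, ← hx]
          have h6 := Finset.card_le_card_of_injOn (t := Finset.insertNone P') f (by
            intro q hq
            have hq1 : src q.out = v := (Finset.mem_filter.1 hq).2
            by_cases h1 : ∃ d, σ.SameCycle q.out d ∧ ∀ w, (d, w) ∉ Y
            · have : f q = none := dif_neg (fun h => h.2 h1)
              rw [this]
              simp
            · have : f q = some (hchoice q hq1 h1).choose := dif_pos ⟨hq1, h1⟩
              rw [this]
              simp only [Finset.mem_coe, Finset.some_mem_insertNone]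
              exact (hchoice q hq1 h1).choose_spec.1) hinjf
          rw [Finset.card_insertNone] at h6
          omega
        · push Not at hfr
          have h6 := Finset.card_le_card_of_injOn (t := P'.image some) f (by
            intro q hq
            have hq1 : src q.out = v := (Finset.mem_filter.1 hq).2
            have h1 : ¬ ∃ d, σ.SameCycle q.out d ∧ ∀ w, (d, w) ∉ Y := by
              rintro ⟨d, hd1, hd2⟩
              obtain ⟨x, hx⟩ := hfr d ((hsc _ _ hd1).symm.trans hq1)
              refine hd2 (tri (x.1, x.2 + 1)) ?_
              have := hmemY x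
              rw [harc] at this
              simp only [hx] at this
              exact this
            have : f q = some (hchoice q hq1 h1).choose := dif_pos ⟨hq1, h1⟩
            rw [this]
            exact Finset.mem_coe.2 (Finset.mem_image_of_mem _
              (hchoice q hq1 h1).choose_spec.1)) hinjf
          have h7 := Finset.card_image_le (s := P') (f := (some : D → Option D))
          have h8 : P'.card ≤ m + 1 := by
            rcases hcyc v with h | ⟨h, -⟩
            · have := hP'card.trans h
              omega
            · have := hP'card.trans h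
              omega
          omega
      · rw [if_neg hv]
        have : ((univ : Finset (Quotient (Equiv.Perm.SameCycle.setoid σ))).filter
            fun q => src q.out = v) = ∅ := by
          rw [Finset.filter_eq_empty_iff]
          intro q _ hq
          exact hv (Finset.mem_image.2 ⟨q.out, Finset.mem_univ _, hq⟩)
        rw [this]
        simp
    have hsum : numOrbits σ = ∑ v : V, ((univ : Finset (Quotient
        (Equiv.Perm.SameCycle.setoid σ))).filter fun q => src q.out = v).card := by
      unfold numOrbits
      rw [Nat.card_eq_fintype_card, ← Finset.card_univ]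
      exact Finset.card_eq_sum_card_fiberwise (fun q _ => Finset.mem_coe.2 (Finset.mem_univ _))
    rw [hsum]
    refine (Finset.sum_le_sum fun v _ => hfib v).trans ?_
    rw [Finset.sum_add_distrib, Finset.sum_const, Finset.card_univ, smul_eq_mul, mul_comm m,
      Finset.sum_ite_mem, Finset.univ_inter, Finset.sum_const, smul_eq_mul, mul_one]
    omega
  have hfin : Fintype.card ι ≤ numOrbits (τ * α) + m * Fintype.card V := by omega
  have hfin' : (Fintype.card ι : ℤ) ≤ (numOrbits (τ * α) : ℤ) + (m : ℤ) * Fintype.card V := by
    exact_mod_cast hfin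
  linarith

end Pool.Agent.H36.FK
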