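import Mathlib
import Pool.Agent.H20.BK.Upper
import Pool.Agent.H36.FK.UAlpha
import Pool.Agent.H36.FK.UCut
import Pool.Agent.H36.FK.URot
import Pool.Agent.H36.FK.UCnt
import Pool.Agent.H36.FK.USeq

set_option autoImplicit false

/-!
Project FK, module UMain. The upper bound.
-/

namespace Pool.Agent.H36.FK

open Pool.Agent.H20.BK Finset

theorem core_one {V : Type*} [LinearOrder V] [Fintype V] [Nonempty V] {T : ℕ}
    {S : ℕ → Finset V} (k : ℕ) (hk : 1 ≤ k) (hS : IsSeq S T)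
    (h1 : ∀ τ, τ < T → (chg S τ).card = 1) (hcon : (seqGraph (k + 1) S T).Connected) :
    GenusLE (seqGraph (k + 1) S T) (k * Fintype.card V) := by
  obtain ⟨α, hα⟩ := exists_natAlpha (K := k + 1) hS
  have hα' := hα.isAlpha
  set π : Perms T S := fun _ => 1 with hπ
  set good : Finset (Fin T) := univ with hgood
  obtain ⟨σ, hσ1, hσ2, hσ3⟩ := exists_rot2 (src (K := k + 1) (T := T) (S := S)) α hα'.invol
    (tri hS π) (tri_injective hS (good := good) π) (fun i j => src_tri hS hα' π i j) k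
    (arcs hS α good π) rfl (fun v => by
      have h := cyc_arcsAt (by omega) hS hα good π v
      rcases h with h | ⟨h, h'⟩
      · left
        have e : ((k + 1 : ℕ) : ℤ) - 1 = (k : ℤ) := by push_cast; ring
        rw [e] at h
        exact h
      · right
        refine ⟨?_, h'⟩
        have e : ((k + 1 : ℕ) : ℤ) = (k : ℤ) + 1 := by push_cast; ring
        rw [e] at h
        exact h)
  obtain ⟨τ, hτ, hF⟩ := exists_simple (src (K := k + 1) (T := T) (S := S)) α hα'.invol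
    (src_alpha_ne hS hα') σ hσ1 hσ2 (seqGraph (k + 1) S T) (adj_iff_dart hS hα')
  refine ⟨seqGraph (k + 1) S T, le_rfl, hcon, τ, hτ, ?_⟩
  have hcnt := count_one (K := k + 1) hS h1
  rw [Nat.card_eq_fintype_card (α := Dt (k + 1) T S)] at hF
  rw [Nat.card_eq_fintype_card (α := V)]
  have hF' : 2 * ((numOrbits (σ * α) : ℕ) : ℤ) - ((Fintype.card (Dt (k + 1) T S) : ℤ) -
      2 * ((Nat.card (seqGraph (k + 1) S T).edgeSet : ℕ) : ℤ)) ≤ 2 * ((numFaces τ : ℕ) : ℤ) := by
    exact_mod_cast hF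
  have hmax : (numFaces τ : ℤ) ≤ max 1 (numFaces τ : ℤ) := le_max_right _ _
  have hcnt' : (Fintype.card (Dt (k + 1) T S) : ℤ) + 2 * ((k : ℤ) + 1) ≤
      2 * (Fintype.card (Idx (k + 1) T S good) : ℤ) + 2 * ((k : ℤ) + 1) * Fintype.card V := by
    exact_mod_cast hcnt
  have hk' : (1 : ℤ) ≤ k := by exact_mod_cast hk
  push_cast
  nlinarith

theorem upper_sorted_one {n : ℕ} (hn : 1 ≤ n) (k : ℕ) (hk : 1 ≤ k) (Bs : Bars n)
    (hy : Monotone Bs.y) : GenusLE (Bs.graph k) (k * n) := by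
  obtain ⟨S, hS, h1, ⟨z, hz⟩, hadj⟩ := seq_of_bars hn k Bs hy
  have : Nonempty (Fin n) := ⟨⟨0, hn⟩⟩
  have hcon := seqGraph_connected (K := k + 1) (by omega) z hz
  have hle : Bs.graph k ≤ seqGraph (k + 1) S (2 * n) := by
    intro i j hij
    obtain ⟨τ, h1, h2⟩ := hadj i j hij
    rcases h2 with h2 | h2
    · exact Or.inl ⟨τ, h1, h2⟩
    · exact Or.inr ⟨τ, h1, h2⟩
  have h := core_one k hk hS h1 hcon
  rw [Fintype.card_fin] at h
  exact GenusLE.mono_graph hle h

theorem upper_bound {n : ℕ} (hn : 1 ≤ n) (k : ℕ) (hk : 1 ≤ k) (Bs : Bars n) :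
    GenusLE (Bs.graph k) (k * n) := by
  have h := upper_sorted_one hn k hk (Bs.comp (Tuple.sort Bs.y)) (Tuple.monotone_sort Bs.y)
  exact genusLE_of_equiv (Tuple.sort Bs.y) _ _
    (fun a b hab => (Bs.comp_adj _ k a b).2 hab) _ h

end Pool.Agent.H36.FK
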