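import Mathlib
import Pool.Agent.H36.FK.UMain
import Pool.Agent.H36.FK.LMain

set_option autoImplicit false

/-!
Project FK, module Main: bounds for the maximum genus of bar `k`-visibility graphs, `k` fixed.
-/

namespace Pool.Agent.H36.FK

open Pool.Agent.H20.BK

theorem main (k n : ℕ) (hk : 1 ≤ k) (hn : 1 ≤ n) : ∃ g : ℕ, IsGreatest (genera k n) g ∧
    (k : ℝ) * n / 2 + n / (12 * ((k : ℝ) + 1)) - 2 * ((k : ℝ) + 1) ^ 2 ≤ g ∧ g ≤ k * n := by
  have hle : ∀ Bs : Bars n, GenusLE (Bs.graph k) (k * n) := fun Bs => upper_bound hn k hk Bs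
  have hbdd : ∀ g ∈ genera k n, g ≤ k * n := by
    rintro g ⟨Bs, rfl⟩
    exact Nat.sInf_le (hle Bs)
  have hne : (genera k n).Nonempty := by
    obtain ⟨B⟩ := bars_nonempty n
    exact ⟨_, B, rfl⟩
  have hmem : sSup (genera k n) ∈ genera k n := Nat.sSup_mem hne ⟨_, hbdd⟩
  have hgr : IsGreatest (genera k n) (sSup (genera k n)) :=
    ⟨hmem, fun g hg => le_csSup ⟨_, hbdd⟩ hg⟩
  refine ⟨sSup (genera k n), hgr, ?_, hbdd _ hmem⟩
  obtain ⟨B, hB⟩ := lower_bound k n hk hn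
  have h2 : GenusLE (B.graph k) (genus (B.graph k)) :=
    Nat.sInf_mem (s := {g | GenusLE (B.graph k) g}) ⟨_, hle B⟩
  have h3 := hB _ h2
  have h4 : genus (B.graph k) ≤ sSup (genera k n) := hgr.2 ⟨B, rfl⟩
  have h4' : ((genus (B.graph k) : ℕ) : ℝ) ≤ (sSup (genera k n) : ℕ) := by exact_mod_cast h4
  linarith

end Pool.Agent.H36.FK
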