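import Mathlib
import Pool.Agent.H36.FK.UDefs

set_option autoImplicit false

/-!
Project FK, module UCutA. At most `K` strips on one side of a vertex are alive at a given time.
-/

namespace Pool.Agent.H36.FK

open Pool.Agent.H20.BK Finset

variable {V : Type*} [LinearOrder V] [Fintype V] {K T : ℕ} {S : ℕ → Finset V}

omit [Fintype V] in
/-- Two ends of the same pair, whose strips are both alive at `σ₀`, are equal. -/
theorem UCutA_unique {α : Equiv.Perm (Dt K T S)} (hα : NatAlpha α)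
    (σ₀ : ℕ) {d d' : Dt K T S} (hd : ¬ IsStart d) (hd' : ¬ IsStart d')
    (h1 : ((α d).τ : ℕ) < σ₀) (h2 : σ₀ ≤ (d.τ : ℕ)) (h1' : ((α d').τ : ℕ) < σ₀)
    (h2' : σ₀ ≤ (d'.τ : ℕ)) (ha : d.a = d'.a) (hb : d.b = d'.b) : d = d' := by
  have key : ∀ e e' : Dt K T S, ¬ IsStart e → ¬ IsStart e' → σ₀ ≤ (e.τ : ℕ) →
      ((α e').τ : ℕ) < σ₀ → e.a = e'.a → e.b = e'.b → ¬ (e.τ : ℕ) < e'.τ := by
    intro e e' he he' g1 g2 ga gb hlt
    have hs : IsStart (α e') := (hα.isAlpha.start e').2 he'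
    have h3 := hα.near (α e') hs ((e.τ : ℕ) + 1) (by omega)
      (by rw [hα.isAlpha.invol]; omega)
    rw [hα.isAlpha.pair_a, hα.isAlpha.pair_b, ← ga, ← gb] at h3
    exact he h3
  have h3 := key d d' hd hd' h2 h1' ha hb
  have h4 := key d' d hd' hd h2' h1 ha.symm hb.symm
  exact Dt.ext (Fin.ext (by omega)) ha hb

omit [Fintype V] in
theorem UCutA_near {α : Equiv.Perm (Dt K T S)} (hα : NatAlpha α)
    (σ₀ : ℕ) {d : Dt K T S} (hd : ¬ IsStart d) (h1 : ((α d).τ : ℕ) < σ₀)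
    (h2 : σ₀ ≤ (d.τ : ℕ)) : Near K (S σ₀) d.a d.b := by
  have hs : IsStart (α d) := (hα.isAlpha.start d).2 hd
  have h3 := hα.near (α d) hs σ₀ h1 (by rw [hα.isAlpha.invol]; exact h2)
  rwa [hα.isAlpha.pair_a, hα.isAlpha.pair_b] at h3

omit [Fintype V] in
theorem UCutA_inj_b {A : Finset V} {v b b' : V} (hb : b ∈ A) (hb' : b' ∈ A) (h : v < b)
    (h' : v < b') (he : Pool.Agent.H20.BK.btw A v b = Pool.Agent.H20.BK.btw A v b') : b = b' := by
  rcases lt_trichotomy b b' with hlt | heq | hlt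
  · exact absurd he (TriProps_btw_right hb h hlt).ne
  · exact heq
  · exact absurd he.symm (TriProps_btw_right hb' h' hlt).ne

omit [Fintype V] in
theorem UCutA_inj_a {A : Finset V} {v a a' : V} (ha : a ∈ A) (ha' : a' ∈ A) (h : a < v)
    (h' : a' < v) (he : Pool.Agent.H20.BK.btw A a v = Pool.Agent.H20.BK.btw A a' v) : a = a' := by
  rcases lt_trichotomy a a' with hlt | heq | hlt
  · exact absurd he.symm (TriProps_btw_left ha' h' hlt).ne
  · exact heq
  · exact absurd he (TriProps_btw_left ha h hlt).ne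

/-- Down strips at `v` alive in the state `σ₀`. -/
theorem UCutA_down {α : Equiv.Perm (Dt K T S)} (hα : NatAlpha α) (v : V)
    (σ₀ : ℕ) :
    (univ.filter fun d : Dt K T S => src d = v ∧ ¬ IsStart d ∧ ((α d).τ : ℕ) < σ₀ ∧
      σ₀ ≤ (d.τ : ℕ)).card ≤ K := by
  have h := card_le_card_of_injOn (t := range K)
    (s := univ.filter fun d : Dt K T S => src d = v ∧ ¬ IsStart d ∧ ((α d).τ : ℕ) < σ₀ ∧
      σ₀ ≤ (d.τ : ℕ)) (fun d => Pool.Agent.H20.BK.btw (S σ₀) v d.b) (by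
      intro d hd
      obtain ⟨-, h1, h2, h3, h4⟩ := mem_filter.1 (mem_coe.1 hd)
      have ha : d.a = v := by
        rw [src, if_neg h2] at h1
        exact h1
      have hn := UCutA_near hα σ₀ h2 h3 h4
      rw [ha] at hn
      exact mem_coe.2 (mem_range.2 hn.2.2.2)) (by
      intro d hd d' hd' he
      obtain ⟨-, h1, h2, h3, h4⟩ := mem_filter.1 (mem_coe.1 hd)
      obtain ⟨-, h1', h2', h3', h4'⟩ := mem_filter.1 (mem_coe.1 hd')
      have ha : d.a = v := by
        rw [src, if_neg h2] at h1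
        exact h1
      have ha' : d'.a = v := by
        rw [src, if_neg h2'] at h1'
        exact h1'
      have hn := UCutA_near hα σ₀ h2 h3 h4
      have hn' := UCutA_near hα σ₀ h2' h3' h4'
      rw [ha] at hn
      rw [ha'] at hn'
      have hb : d.b = d'.b := UCutA_inj_b hn.2.1 hn'.2.1 hn.2.2.1 hn'.2.2.1 he
      exact UCutA_unique hα σ₀ h2 h2' h3 h4 h3' h4' (ha.trans ha'.symm) hb)
  rwa [card_range] at h

/-- Up strips at `v` alive in the state `σ₀`. -/
theorem UCutA_up {α : Equiv.Perm (Dt K T S)} (hα : NatAlpha α) (v : V)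
    (σ₀ : ℕ) :
    (univ.filter fun d : Dt K T S => src d = v ∧ IsStart d ∧ (d.τ : ℕ) < σ₀ ∧
      σ₀ ≤ ((α d).τ : ℕ)).card ≤ K := by
  have aux : ∀ d : Dt K T S, src d = v ∧ IsStart d ∧ (d.τ : ℕ) < σ₀ ∧ σ₀ ≤ ((α d).τ : ℕ) →
      d.b = v ∧ ¬ IsStart (α d) ∧ ((α (α d)).τ : ℕ) < σ₀ ∧ Near K (S σ₀) d.a d.b := by
    rintro d ⟨h1, h2, h3, h4⟩
    have hb : d.b = v := by
      rw [src, if_pos h2] at h1
      exact h1
    have hn := hα.near d h2 σ₀ h3 h4
    refine ⟨hb, ?_, ?_, hn⟩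
    · rw [hα.isAlpha.start]
      exact not_not.2 h2
    · rw [hα.isAlpha.invol]
      exact h3
  have h := card_le_card_of_injOn (t := range K)
    (s := univ.filter fun d : Dt K T S => src d = v ∧ IsStart d ∧ (d.τ : ℕ) < σ₀ ∧
      σ₀ ≤ ((α d).τ : ℕ)) (fun d => Pool.Agent.H20.BK.btw (S σ₀) d.a v) (by
      intro d hd
      obtain ⟨hb, -, -, hn⟩ := aux d (mem_filter.1 (mem_coe.1 hd)).2
      rw [hb] at hn
      exact mem_coe.2 (mem_range.2 hn.2.2.2)) (by
      intro d hd d' hd' he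
      have g := (mem_filter.1 (mem_coe.1 hd)).2
      have g' := (mem_filter.1 (mem_coe.1 hd')).2
      obtain ⟨hb, hs, hl, hn⟩ := aux d g
      obtain ⟨hb', hs', hl', hn'⟩ := aux d' g'
      rw [hb] at hn
      rw [hb'] at hn'
      have ha : d.a = d'.a := UCutA_inj_a hn.1 hn'.1 hn.2.2.1 hn'.2.2.1 he
      have h5 : α d = α d' := UCutA_unique hα σ₀ hs hs' hl g.2.2.2 hl' g'.2.2.2
        (by rw [hα.isAlpha.pair_a, hα.isAlpha.pair_a]; exact ha)
        (by rw [hα.isAlpha.pair_b, hα.isAlpha.pair_b, hb, hb'])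
      exact α.injective h5)
  rwa [card_range] at h

end Pool.Agent.H36.FK
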